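import Pool.Agent.Helper734.FT.Basic

set_option autoImplicit false

open MeasureTheory Set

namespace Pool.Agent.Helper734.FT

/-- the properties of the finite family `L` extracted from the geometry -/
structure Good {ι : Type} (L : Finset ι) (s b : ι → ℝ) (M T R : ℝ) : Prop where
  sep : ∀ i ∈ L, ∀ j ∈ L, i ≠ j → 1 / 4 ≤ |s i - s j|
  V : ∃ i ∈ L, ∃ j ∈ L, s i = 0 ∧ b i = 0 ∧ b j = 0 ∧ 1 ≤ s j ∧ s j ≤ 2
  mx : ∀ i j, Cons L s i j → |s i| + T * (s j - s i) ≤ R →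
    ∃ p q, Cons L s p q ∧ |s p - s i| ≤ T * (s j - s i) ∧ |s q - s i| ≤ T * (s j - s i) ∧
      cr s b i j + 1 / √(s j - s i) ≤ cr s b p q
  p3 : ∀ i ∈ L, ∀ j ∈ L, s i < s j → |s i| ≤ R → ∀ t : ℝ, 128 * M ≤ t →
    (s j - s i) * t ^ 2 ≤ 2 * R → ∀ F : Finset ι,
    (∀ k ∈ L, |s k - s i| ≤ 64 * M * ((s j - s i) * t ^ 2) →
      |s k * cr s b i j + b k - (s i * cr s b i j + b i)| ≤ 3 * √(s j - s i) * t ^ 3 → k ∈ F) →
    t ^ 2 / (32 * M) ≤ F.card

theorem inclexcl {ι τ : Type} [DecidableEq ι] [DecidableEq τ] (A : τ → Finset ι) (q : ℝ) (hq : 0 ≤ q)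
    (h : ∀ t u, t ≠ u → ((A t ∩ A u).card : ℝ) ≤ q) (I : Finset τ) :
    ∑ t ∈ I, ((A t).card : ℝ) ≤ (I.biUnion A).card + (I.card : ℝ) ^ 2 * q := by
  induction I using Finset.induction_on with
  | empty => simp
  | insert t I ht ih =>
    rw [Finset.sum_insert ht, Finset.biUnion_insert, Finset.card_insert_of_notMem ht]
    have h1 := Finset.card_union_add_card_inter (A t) (I.biUnion A)
    have h2 : ((A t ∩ I.biUnion A).card : ℝ) ≤ I.card * q := by
      rw [Finset.inter_biUnion]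
      calc (((I.biUnion fun u => A t ∩ A u).card : ℕ) : ℝ)
          ≤ ((∑ u ∈ I, (A t ∩ A u).card : ℕ) : ℝ) := by exact_mod_cast Finset.card_biUnion_le
        _ = ∑ u ∈ I, ((A t ∩ A u).card : ℝ) := by push_cast; rfl
        _ ≤ ∑ u ∈ I, q := Finset.sum_le_sum fun u hu => h t u (by rintro rfl; exact ht hu)
        _ = I.card * q := by simp
    have h3 : ((A t ∪ I.biUnion A).card : ℝ) + ((A t ∩ I.biUnion A).card : ℝ)
        = (A t).card + (I.biUnion A).card := by exact_mod_cast h1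
    push_cast
    have h4 : (0 : ℝ) ≤ I.card := by positivity
    nlinarith

theorem cluster (c' H : ℝ) (hc' : 0 < c') (hH : 1 ≤ H) : ∃ m0 : ℕ, 1 ≤ m0 ∧ ∃ Λ θ0 : ℝ,
    0 < Λ ∧ 1 ≤ θ0 ∧ ∀ θ, θ0 ≤ θ → ∀ (ι : Type) (L : Finset ι) (s b : ι → ℝ),
      (∀ i ∈ L, ∀ j ∈ L, i ≠ j → 1 / 4 ≤ |s i - s j|) →
      ∀ (c : ℝ) (X Y σ : Fin m0 → ℝ) (A : Fin m0 → Finset ι),
        (∀ t, |σ t - c| ≤ θ) → (∀ t, A t ⊆ L) →
        (∀ t, ∀ k ∈ A t, |s k - σ t| ≤ H * θ ∧ |s k * X t + b k - Y t| ≤ 12 * (θ * √θ)) →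
        (∀ t, c' * θ ≤ ((A t).card : ℝ)) →
        (∀ t u, t ≠ u → Λ * √θ ≤ |X t - X u|) → False := by
  classical
  obtain ⟨m, hm⟩ := exists_nat_ge ((16 * (H + 1) + 4) / c')
  refine ⟨m + 1, by omega, 384 * ((m : ℝ) + 1) ^ 2, 4 * ((m : ℝ) + 1) ^ 2, by positivity, ?_, ?_⟩
  · have : (0 : ℝ) ≤ m := by positivity
    nlinarith
  intro θ hθ ι L s b hsep c X Y σ A hσ hAL hA hcard hX
  have hm0 : (0 : ℝ) ≤ m := by positivity
  have hθ1 : 1 ≤ θ := by nlinarith
  have hθ0 : 0 < θ := by linarith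
  have hsq : 0 < √θ := Real.sqrt_pos.mpr hθ0
  set Λ : ℝ := 384 * ((m : ℝ) + 1) ^ 2 with hΛ
  have hΛ0 : 0 < Λ := by positivity
  have hpair : ∀ t u, t ≠ u → ((A t ∩ A u).card : ℝ) ≤ 192 * θ / Λ + 1 := by
    intro t u htu
    rcases (A t ∩ A u).eq_empty_or_nonempty with h0 | hne
    · rw [h0]; simp; positivity
    obtain ⟨k0, hk0, hmin⟩ := Finset.exists_min_image (A t ∩ A u) s hne
    have hdiff : ∀ k ∈ A t ∩ A u, ∀ k' ∈ A t ∩ A u, |s k - s k'| ≤ 48 * θ / Λ := by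
      intro k hk k' hk'
      rw [Finset.mem_inter] at hk hk'
      have a1 := abs_le.mp (hA t k hk.1).2
      have a2 := abs_le.mp (hA u k hk.2).2
      have a3 := abs_le.mp (hA t k' hk'.1).2
      have a4 := abs_le.mp (hA u k' hk'.2).2
      have e1 : |(s k - s k') * (X t - X u)| ≤ 48 * (θ * √θ) := by
        rw [abs_le]
        constructor <;> nlinarith
      rw [abs_mul] at e1
      have e2 := hX t u htu
      have e3 : |s k - s k'| * (Λ * √θ) ≤ 48 * (θ * √θ) :=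
        (mul_le_mul_of_nonneg_left e2 (abs_nonneg _)).trans e1
      rw [le_div_iff₀ hΛ0]
      have e4 : (|s k - s k'| * Λ) * √θ ≤ (48 * θ) * √θ := by nlinarith
      exact le_of_mul_le_mul_right e4 hsq
    have h1 := sep_card (A t ∩ A u) s (1 / 4) (s k0) (48 * θ / Λ) (by norm_num) (by positivity)
      (fun i hi j hj hij => hsep i (hAL t (Finset.mem_inter.mp hi).1) j (hAL t (Finset.mem_inter.mp hj).1) hij)
      (fun i hi => ⟨hmin i hi, by
        have := abs_le.mp (hdiff i hi k0 hk0)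
        linarith [this.2]⟩)
    calc ((A t ∩ A u).card : ℝ) ≤ 48 * θ / Λ / (1 / 4) + 1 := h1
      _ = 192 * θ / Λ + 1 := by ring
  have hU : ((Finset.univ.biUnion A).card : ℝ) ≤ 8 * (H + 1) * θ + 1 := by
    have h1 := sep_card (Finset.univ.biUnion A) s (1 / 4) (c - (H + 1) * θ) (2 * (H + 1) * θ)
      (by norm_num) (by nlinarith)
      (fun i hi j hj hij => by
        obtain ⟨t, _, ht⟩ := Finset.mem_biUnion.mp hi
        obtain ⟨u, _, hu⟩ := Finset.mem_biUnion.mp hj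
        exact hsep i (hAL t ht) j (hAL u hu) hij)
      (fun i hi => by
        obtain ⟨t, _, ht⟩ := Finset.mem_biUnion.mp hi
        have a1 := abs_le.mp (hA t i ht).1
        have a2 := abs_le.mp (hσ t)
        constructor <;> nlinarith)
    calc ((Finset.univ.biUnion A).card : ℝ) ≤ 2 * (H + 1) * θ / (1 / 4) + 1 := h1
      _ = 8 * (H + 1) * θ + 1 := by ring
  have hmain := inclexcl A (192 * θ / Λ + 1) (by positivity) hpair Finset.univ
  have hlow : ((m : ℝ) + 1) * (c' * θ) ≤ ∑ t ∈ (Finset.univ : Finset (Fin (m + 1))), ((A t).card : ℝ) := by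
    calc ((m : ℝ) + 1) * (c' * θ) = ∑ t ∈ (Finset.univ : Finset (Fin (m + 1))), (c' * θ) := by simp
      _ ≤ _ := Finset.sum_le_sum fun t _ => hcard t
  have hq : (((Finset.univ : Finset (Fin (m + 1))).card : ℕ) : ℝ) = (m : ℝ) + 1 := by simp
  rw [hq] at hmain
  have e1 : ((m : ℝ) + 1) ^ 2 * (192 * θ / Λ + 1) = θ / 2 + ((m : ℝ) + 1) ^ 2 := by
    rw [hΛ]
    field_simp
    ring
  rw [e1] at hmain
  have e2 : (16 * (H + 1) + 4) ≤ m * c' := by rwa [div_le_iff₀ hc'] at hm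
  have e3 : (16 * (H + 1) + 4) * θ ≤ ((m : ℝ) + 1) * (c' * θ) := by
    have : (16 * (H + 1) + 4) * θ ≤ (m * c') * θ := mul_le_mul_of_nonneg_right e2 hθ0.le
    nlinarith [mul_pos hc' hθ0]
  have e4 : 0 < H * θ := by positivity
  nlinarith

open Classical in
theorem empties {ι : Type} (S : Finset ι) (f : ι → ℝ) (a K δ : ℝ) (N : ℕ) (hK : 0 < K)
    (hδ1 : δ < 1)
    (hmax : ∀ n : ℕ, n < N →
      (1 - δ) * N * ((S.filter (fun i => a + n * K ≤ f i ∧ f i < a + (n + 1) * K)).card : ℝ)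
        ≤ ((S.filter (fun i => a ≤ f i ∧ f i < a + N * K)).card : ℝ))
    (hpos : 0 < (S.filter (fun i => a ≤ f i ∧ f i < a + N * K)).card) :
    (((Finset.range N).filter
      (fun n : ℕ => ∀ i ∈ S, ¬ (a + n * K ≤ f i ∧ f i < a + (n + 1) * K))).card : ℝ) ≤ δ * N := by
  set I := S.filter (fun i => a ≤ f i ∧ f i < a + N * K) with hI
  set C : ℕ → Finset ι := fun n => S.filter (fun i => a + n * K ≤ f i ∧ f i < a + (n + 1) * K) with hC
  set Em := (Finset.range N).filter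
      (fun n : ℕ => ∀ i ∈ S, ¬ (a + n * K ≤ f i ∧ f i < a + (n + 1) * K)) with hEm
  set Ne := (Finset.range N).filter
      (fun n : ℕ => ¬ ∀ i ∈ S, ¬ (a + n * K ≤ f i ∧ f i < a + (n + 1) * K)) with hNe
  have hcard : Em.card + Ne.card = N := by
    have := Finset.card_filter_add_card_filter_not (s := Finset.range N)
      (fun n : ℕ => ∀ i ∈ S, ¬ (a + n * K ≤ f i ∧ f i < a + (n + 1) * K))
    rwa [Finset.card_range] at this
  have hsub : I ⊆ Ne.biUnion C := by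
    intro i hi
    rw [hI, Finset.mem_filter] at hi
    obtain ⟨hiS, h1, h2⟩ := hi
    rw [Finset.mem_biUnion]
    have h0 : 0 ≤ (f i - a) / K := div_nonneg (by linarith) hK.le
    have h3 := Nat.floor_le h0
    have h4 := Nat.lt_floor_add_one ((f i - a) / K)
    have h5 : (⌊(f i - a) / K⌋₊ : ℝ) * K ≤ f i - a := by
      rwa [le_div_iff₀ hK] at h3
    have h6 : f i - a < (⌊(f i - a) / K⌋₊ + 1) * K := by
      rwa [div_lt_iff₀ hK] at h4
    have h7 : ⌊(f i - a) / K⌋₊ < N := by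
      rw [Nat.floor_lt h0, div_lt_iff₀ hK]
      linarith
    refine ⟨⌊(f i - a) / K⌋₊, ?_, ?_⟩
    · rw [hNe, Finset.mem_filter]
      refine ⟨Finset.mem_range.2 h7, fun h => h i hiS ⟨by linarith, by linarith⟩⟩
    · rw [hC]
      simp only [Finset.mem_filter]
      exact ⟨hiS, by linarith, by linarith⟩
  have hle : (I.card : ℝ) ≤ ∑ n ∈ Ne, ((C n).card : ℝ) := by
    have := (Finset.card_le_card hsub).trans Finset.card_biUnion_le
    exact_mod_cast this
  have hIpos : (0 : ℝ) < I.card := by exact_mod_cast hpos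
  have h8 : (1 - δ) * N * ∑ n ∈ Ne, ((C n).card : ℝ) ≤ Ne.card * I.card := by
    rw [Finset.mul_sum]
    calc ∑ n ∈ Ne, (1 - δ) * N * ((C n).card : ℝ) ≤ ∑ n ∈ Ne, (I.card : ℝ) := by
          refine Finset.sum_le_sum fun n hn => ?_
          exact hmax n (Finset.mem_range.1 (Finset.mem_filter.1 hn).1)
      _ = Ne.card * I.card := by rw [Finset.sum_const, nsmul_eq_mul]
  have h9 : (1 - δ) * N * I.card ≤ Ne.card * I.card := by
    refine le_trans ?_ h8
    exact mul_le_mul_of_nonneg_left hle (mul_nonneg (by linarith) (Nat.cast_nonneg _))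
  have h10 : (1 - δ) * N ≤ Ne.card := le_of_mul_le_mul_right h9 hIpos
  have h11 : (Em.card : ℝ) + Ne.card = N := by exact_mod_cast hcard
  linarith

open Classical in
theorem density (δ c R0 : ℝ) (hδ : 0 < δ) (hδ1 : δ < 1) (hc : 0 < c) (Ψ : ℕ → ℕ)
    (hΨ : ∀ n, 2 ≤ Ψ n) : ∃ (J : ℕ) (ℓ : ℕ → ℕ), ℓ 0 = 1 ∧ (∀ j, ℓ (j + 1) = Ψ (ℓ j) * ℓ j) ∧
      R0 ≤ (ℓ J : ℝ) ∧
      ∀ (ι : Type) (L : Finset ι) (s : ι → ℝ),
        (∀ i ∈ L, ∀ j ∈ L, i ≠ j → 1 / 4 ≤ |s i - s j|) →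
        c * (ℓ J : ℝ) ≤ ((L.filter (fun i => -((ℓ J : ℝ) / 2) ≤ s i ∧ s i < (ℓ J : ℝ) / 2)).card : ℝ) →
        ∃ j < J, ∃ a : ℝ, -((ℓ J : ℝ) / 2) ≤ a ∧ a + ℓ (j + 1) ≤ (ℓ J : ℝ) / 2 ∧
          0 < (L.filter (fun i => a ≤ s i ∧ s i < a + ℓ (j + 1))).card ∧
          ∀ a' : ℝ, a ≤ a' → a' + ℓ j ≤ a + ℓ (j + 1) →
            (1 - δ) * (Ψ (ℓ j) : ℝ) * ((L.filter (fun i => a' ≤ s i ∧ s i < a' + ℓ j)).card : ℝ)
              ≤ ((L.filter (fun i => a ≤ s i ∧ s i < a + ℓ (j + 1))).card : ℝ) := by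
  obtain ⟨ℓ, hℓ0, hℓs⟩ : ∃ ℓ : ℕ → ℕ, ℓ 0 = 1 ∧ ∀ j, ℓ (j + 1) = Ψ (ℓ j) * ℓ j :=
    ⟨fun j => Nat.rec 1 (fun _ x => Ψ x * x) j, rfl, fun _ => rfl⟩
  have hpow : ∀ j, 2 ^ j ≤ ℓ j := by
    intro j
    induction j with
    | zero => rw [hℓ0]; simp
    | succ j ih =>
      rw [hℓs, pow_succ, mul_comm]
      exact Nat.mul_le_mul (hΨ _) ih
  have hpos : ∀ j, 0 < ℓ j := fun j => lt_of_lt_of_le (by positivity) (hpow j)
  have h1 : Filter.Tendsto (fun J : ℕ => 5 * (1 - δ) ^ J) Filter.atTop (nhds (5 * 0)) :=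
    (tendsto_pow_atTop_nhds_zero_of_lt_one (by linarith) (by linarith)).const_mul 5
  rw [mul_zero] at h1
  have h2 : Filter.Tendsto (fun J : ℕ => (2 : ℝ) ^ J) Filter.atTop Filter.atTop :=
    tendsto_pow_atTop_atTop_of_one_lt (by norm_num)
  obtain ⟨J, hJ1, hJ2⟩ := ((h1.eventually (gt_mem_nhds hc)).and
    (h2.eventually (Filter.eventually_ge_atTop R0))).exists
  refine ⟨J, ℓ, hℓ0, hℓs, hJ2.trans (by exact_mod_cast hpow J), ?_⟩
  intro ι L s hsep hcount
  by_contra hcon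
  push Not at hcon
  have key : ∀ m, m ≤ J → ∃ a : ℝ, -((ℓ J : ℝ) / 2) ≤ a ∧ a + ℓ (J - m) ≤ (ℓ J : ℝ) / 2 ∧
      c * (ℓ (J - m) : ℝ) ≤
        (1 - δ) ^ m * ((L.filter (fun i => a ≤ s i ∧ s i < a + ℓ (J - m))).card : ℝ) := by
    intro m
    induction m with
    | zero =>
      intro _
      refine ⟨-((ℓ J : ℝ) / 2), le_rfl, ?_, ?_⟩
      · rw [Nat.sub_zero]; linarith
      · rw [Nat.sub_zero, pow_zero, one_mul]
        have h3 : -((ℓ J : ℝ) / 2) + (ℓ J : ℝ) = (ℓ J : ℝ) / 2 := by ring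
        rw [h3]
        exact hcount
    | succ m ih =>
      intro hm
      obtain ⟨a, ha1, ha2, ha3⟩ := ih (by omega)
      obtain ⟨j, hj⟩ : ∃ j, j = J - (m + 1) := ⟨_, rfl⟩
      have hj1 : J - m = j + 1 := by omega
      rw [← hj]
      rw [hj1] at ha2 ha3
      have hlpos : (0 : ℝ) < (ℓ (j + 1) : ℝ) := by exact_mod_cast hpos (j + 1)
      have hNpos : 0 < (L.filter (fun i => a ≤ s i ∧ s i < a + ℓ (j + 1))).card := by
        rcases Nat.eq_zero_or_pos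
          (L.filter (fun i => a ≤ s i ∧ s i < a + ℓ (j + 1))).card with h0 | h0
        · rw [h0, Nat.cast_zero, mul_zero] at ha3
          have := mul_pos hc hlpos
          linarith
        · exact h0
      obtain ⟨a', ha'1, ha'2, ha'3⟩ := hcon j (by omega) a ha1 ha2 hNpos
      refine ⟨a', by linarith, by linarith, ?_⟩
      have hΨpos : (0 : ℝ) < (Ψ (ℓ j) : ℝ) := by
        have := hΨ (ℓ j)
        exact_mod_cast (by omega : 0 < Ψ (ℓ j))
      have hd : (0 : ℝ) ≤ (1 - δ) ^ m := pow_nonneg (by linarith) m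
      have h4 : (ℓ (j + 1) : ℝ) = (Ψ (ℓ j) : ℝ) * (ℓ j : ℝ) := by
        rw [hℓs]; push_cast; ring
      have h5 := mul_le_mul_of_nonneg_left ha'3.le hd
      have h6 := ha3.trans h5
      have h7 : (Ψ (ℓ j) : ℝ) * (c * (ℓ j : ℝ)) ≤ (Ψ (ℓ j) : ℝ) *
          ((1 - δ) ^ (m + 1) * ((L.filter (fun i => a' ≤ s i ∧ s i < a' + ℓ j)).card : ℝ)) := by
        calc (Ψ (ℓ j) : ℝ) * (c * (ℓ j : ℝ)) = c * (ℓ (j + 1) : ℝ) := by rw [h4]; ring
          _ ≤ _ := h6
          _ = _ := by ring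
      exact le_of_mul_le_mul_left h7 hΨpos
  obtain ⟨a, _, _, ha⟩ := key J le_rfl
  rw [Nat.sub_self, hℓ0] at ha
  have h8 := sep_card (L.filter (fun i => a ≤ s i ∧ s i < a + (1 : ℕ))) s (1 / 4) a 1
    (by norm_num) (by norm_num)
    (fun i hi j hj hij => hsep i (Finset.mem_filter.1 hi).1 j (Finset.mem_filter.1 hj).1 hij)
    (fun i hi => ⟨(Finset.mem_filter.1 hi).2.1, by
      have := (Finset.mem_filter.1 hi).2.2
      push_cast at this
      exact this.le⟩)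
  have h9 : (1 - δ) ^ J * ((L.filter (fun i => a ≤ s i ∧ s i < a + (1 : ℕ))).card : ℝ) ≤
      (1 - δ) ^ J * 5 := by
    apply mul_le_mul_of_nonneg_left _ (pow_nonneg (by linarith) J)
    refine h8.trans (by norm_num)
  push_cast at ha h9
  linarith

/-- disjoint long empty intervals have small total length -/
theorem long_gaps {ι : Type} (S : Finset ι) (f : ι → ℝ) (a K δ : ℝ) (N : ℕ) (hK : 0 < K)
    (E : Finset ℕ) (hE : ∀ n : ℕ, n < N →
      (∀ i ∈ S, ¬ (a + n * K ≤ f i ∧ f i < a + (n + 1) * K)) → n ∈ E)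
    (hEc : (E.card : ℝ) ≤ δ * N)
    {κ : Type} (P : Finset κ) (l r : κ → ℝ) (hl : ∀ p ∈ P, a ≤ l p) (hr : ∀ p ∈ P, r p ≤ a + N * K)
    (hlen : ∀ p ∈ P, 3 * K < r p - l p)
    (hemp : ∀ p ∈ P, ∀ i ∈ S, ¬ (l p < f i ∧ f i < r p))
    (hdisj : ∀ p ∈ P, ∀ q ∈ P, p ≠ q → r p ≤ l q ∨ r q ≤ l p) :
    ∑ p ∈ P, (r p - l p) ≤ 3 * δ * N * K := by
  classical
  set Q : κ → Finset ℕ := fun p => Finset.Ico (⌊(l p - a) / K⌋₊ + 1) ⌊(r p - a) / K⌋₊ with hQ
  have hmem : ∀ p ∈ P, ∀ n ∈ Q p, l p < a + n * K ∧ a + (n + 1) * K ≤ r p ∧ n < N := by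
    intro p hp n hn
    rw [hQ, Finset.mem_Ico] at hn
    obtain ⟨h1, h2⟩ := hn
    have hl0 : 0 ≤ (l p - a) / K := div_nonneg (by linarith [hl p hp]) hK.le
    have hr0 : 0 ≤ (r p - a) / K := div_nonneg (by linarith [hl p hp, hlen p hp]) hK.le
    have h3 : (l p - a) / K < n := by
      have := Nat.lt_floor_add_one ((l p - a) / K)
      have h4 : ((⌊(l p - a) / K⌋₊ + 1 : ℕ) : ℝ) ≤ n := by exact_mod_cast h1
      push_cast at h4
      linarith
    have h5 : ((n : ℝ) + 1) ≤ (r p - a) / K := by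
      have := Nat.floor_le hr0
      have h4 : ((n + 1 : ℕ) : ℝ) ≤ (⌊(r p - a) / K⌋₊ : ℝ) := by exact_mod_cast h2
      push_cast at h4
      linarith
    rw [div_lt_iff₀ hK] at h3
    rw [le_div_iff₀ hK] at h5
    refine ⟨by linarith, by linarith, ?_⟩
    have h6 : ((n : ℝ) + 1) * K ≤ N * K := by linarith [hr p hp]
    have h7 : ((n : ℝ) + 1) ≤ N := le_of_mul_le_mul_right h6 hK
    have h8 : ((n + 1 : ℕ) : ℝ) ≤ N := by push_cast; exact h7
    exact_mod_cast h8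
  have hcard : ∀ p ∈ P, (r p - l p) / (3 * K) ≤ (Q p).card := by
    intro p hp
    rw [hQ]
    simp only [Nat.card_Ico]
    have hl0 : 0 ≤ (l p - a) / K := div_nonneg (by linarith [hl p hp]) hK.le
    have h1 : (⌊(l p - a) / K⌋₊ : ℝ) ≤ (l p - a) / K := Nat.floor_le hl0
    have h2 := Nat.lt_floor_add_one ((r p - a) / K)
    have h3 : (⌊(r p - a) / K⌋₊ : ℝ) - (⌊(l p - a) / K⌋₊ + 1) ≤
        ((⌊(r p - a) / K⌋₊ - (⌊(l p - a) / K⌋₊ + 1) : ℕ) : ℝ) := by
      rw [sub_le_iff_le_add]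
      have : ⌊(r p - a) / K⌋₊ ≤ (⌊(r p - a) / K⌋₊ - (⌊(l p - a) / K⌋₊ + 1)) +
        (⌊(l p - a) / K⌋₊ + 1) := by omega
      exact_mod_cast this
    have h4 : (r p - a) / K - (l p - a) / K = (r p - l p) / K := by ring
    have h5 : 3 < (r p - l p) / K := by
      rw [lt_div_iff₀ hK]; exact hlen p hp
    have h6 : (r p - l p) / (3 * K) = (r p - l p) / K / 3 := by
      rw [div_div, mul_comm]
    rw [h6]
    linarith
  have hdis : (P : Set κ).PairwiseDisjoint Q := by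
    intro p hp q hq hpq
    rw [Function.onFun, Finset.disjoint_left]
    intro n hn hn'
    obtain ⟨a1, a2, _⟩ := hmem p hp n hn
    obtain ⟨b1, b2, _⟩ := hmem q hq n hn'
    rcases hdisj p hp q hq hpq with h | h <;> nlinarith
  have hsub : P.biUnion Q ⊆ E := by
    intro n hn
    rw [Finset.mem_biUnion] at hn
    obtain ⟨p, hp, hn⟩ := hn
    obtain ⟨a1, a2, a3⟩ := hmem p hp n hn
    apply hE n a3
    intro i hi ⟨h1, h2⟩
    exact hemp p hp i hi ⟨by linarith, by linarith⟩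
  have hsum : ∑ p ∈ P, (r p - l p) / (3 * K) ≤ δ * N := by
    calc ∑ p ∈ P, (r p - l p) / (3 * K) ≤ ∑ p ∈ P, ((Q p).card : ℝ) := Finset.sum_le_sum hcard
      _ = ((P.biUnion Q).card : ℝ) := by rw [Finset.card_biUnion hdis]; push_cast; rfl
      _ ≤ (E.card : ℝ) := by exact_mod_cast Finset.card_le_card hsub
      _ ≤ δ * N := hEc
  rw [← Finset.sum_div, div_le_iff₀ (by positivity)] at hsum
  linarith

theorem chain {α : Type} (P : Set α) (hP : P.Finite) (pos g X : α → ℝ) (T D c : ℝ) (hT : 1 ≤ T)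
    (hD : 0 < D)
    (hg : ∀ p ∈ P, 0 < g p)
    (next : ∀ p ∈ P, |pos p - c| + T * g p ≤ D → ∃ q ∈ P, |pos q - pos p| ≤ T * g p ∧
      |pos q + g q - pos p| ≤ T * g p ∧ X p + 1 / √(g p) ≤ X q)
    (p0 : α) (hp0 : p0 ∈ P) (h1 : |pos p0 - c| ≤ D / 2) (h2 : |pos p0 + g p0 - c| ≤ D / 2) :
    ∃ (n : ℕ) (f : ℕ → α), (∀ m ≤ n, f m ∈ P ∧ |pos (f m) - c| ≤ D ∧ |pos (f m) + g (f m) - c| ≤ D) ∧
      (∀ m < n, X (f m) + 1 / √(g (f m)) ≤ X (f (m + 1))) ∧
      D / 2 ≤ T * ∑ m ∈ Finset.range (n + 1), g (f m) := by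
  classical
  have hex : ∀ p : α, ∃ q : α, (p ∈ P → q ∈ P) ∧ (p ∈ P → |pos p - c| + T * g p ≤ D →
      |pos q - pos p| ≤ T * g p ∧ |pos q + g q - pos p| ≤ T * g p ∧ X p + 1 / √(g p) ≤ X q) := by
    intro p
    by_cases h : p ∈ P ∧ |pos p - c| + T * g p ≤ D
    · obtain ⟨q, hq, h3⟩ := next p h.1 h.2
      exact ⟨q, fun _ => hq, fun _ _ => h3⟩
    · refine ⟨p, fun hp => hp, fun hp h2 => absurd ⟨hp, h2⟩ h⟩
  choose nx hnx1 hnx2 using hex
  let F : ℕ → α := fun m => nx^[m] p0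
  have hF0 : F 0 = p0 := rfl
  have hFs : ∀ m, F (m + 1) = nx (F m) := fun m => Function.iterate_succ_apply' nx m p0
  have hFP : ∀ m, F m ∈ P := by
    intro m
    induction m with
    | zero => exact hp0
    | succ m ih => rw [hFs]; exact hnx1 _ ih
  have hnot : ∃ m, ¬ (|pos (F m) - c| + T * g (F m) ≤ D) := by
    by_contra hcon
    push Not at hcon
    have hmono : StrictMono (fun m => X (F m)) := by
      apply strictMono_nat_of_lt_succ
      intro m
      have h3 := (hnx2 (F m) (hFP m) (hcon m)).2.2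
      have h4 : 0 < 1 / √(g (F m)) := by
        have := Real.sqrt_pos.2 (hg _ (hFP m))
        positivity
      show X (F m) < X (F (m + 1))
      rw [hFs]
      linarith
    have hinj : Function.Injective F := by
      intro a b hab
      exact hmono.injective (by show X (F a) = X (F b); rw [hab])
    exact (Set.infinite_of_injective_forall_mem hinj hFP) hP
  have hn := Nat.find_spec hnot
  have hlt : ∀ m < Nat.find hnot, |pos (F m) - c| + T * g (F m) ≤ D := fun m hm => by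
    have := Nat.find_min hnot hm
    push Not at this
    exact this
  set n := Nat.find hnot with hndef
  have hsum : ∀ m ≤ n, |pos (F m) - c| ≤ D / 2 + T * ∑ j ∈ Finset.range m, g (F j) := by
    intro m
    induction m with
    | zero => intro _; rw [hF0]; simpa using h1
    | succ m ih =>
      intro hm
      have h3 := ih (by omega)
      have h4 := hnx2 (F m) (hFP m) (hlt m (by omega))
      rw [Finset.sum_range_succ, hFs]
      have h5 := abs_sub_le (pos (nx (F m))) (pos (F m)) c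
      rw [mul_add]
      linarith [h4.1]
  refine ⟨n, F, ?_, ?_, ?_⟩
  · intro m hm
    refine ⟨hFP m, ?_⟩
    rcases Nat.eq_zero_or_pos m with h0 | h0
    · subst h0
      rw [hF0]
      exact ⟨by linarith, by linarith⟩
    · obtain ⟨k, rfl⟩ : ∃ k, m = k + 1 := ⟨m - 1, by omega⟩
      have h3 := hlt k (by omega)
      have h4 := hnx2 (F k) (hFP k) h3
      rw [hFs]
      have h5 := abs_sub_le (pos (nx (F k))) (pos (F k)) c
      have h6 := abs_sub_le (pos (nx (F k)) + g (nx (F k))) (pos (F k)) c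
      exact ⟨by linarith [h4.1], by linarith [h4.2.1]⟩
  · intro m hm
    rw [hFs]
    exact (hnx2 (F m) (hFP m) (hlt m hm)).2.2
  · have h3 := hsum n le_rfl
    rw [Finset.sum_range_succ, mul_add]
    rw [not_le] at hn
    linarith

theorem cons_between {ι : Type} (L : Finset ι) (s F : ι → ℝ)
    (hd : ∀ i ∈ L, ∀ j ∈ L, i ≠ j → s i ≠ s j) (k l : ι) (hk : k ∈ L) (hl : l ∈ L)
    (hkl : s k < s l) (hF : F l ≤ F k) :
    ∃ p q, Cons L s p q ∧ s k ≤ s p ∧ s q ≤ s l ∧ F q ≤ F p := by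
  classical
  have hAne : (L.filter (fun m => s k ≤ s m ∧ s m < s l ∧ F l ≤ F m)).Nonempty :=
    ⟨k, Finset.mem_filter.2 ⟨hk, le_rfl, hkl, hF⟩⟩
  obtain ⟨p, hp, hpmax⟩ := Finset.exists_max_image _ s hAne
  rw [Finset.mem_filter] at hp
  obtain ⟨hpL, hkp, hpl, hFp⟩ := hp
  have hBne : (L.filter (fun m => s p < s m ∧ s m ≤ s l)).Nonempty :=
    ⟨l, Finset.mem_filter.2 ⟨hl, hpl, le_rfl⟩⟩
  obtain ⟨q, hq, hqmin⟩ := Finset.exists_min_image _ s hBne
  rw [Finset.mem_filter] at hq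
  obtain ⟨hqL, hpq, hql⟩ := hq
  refine ⟨p, q, ⟨hpL, hqL, hpq, ?_⟩, hkp, hql, ?_⟩
  · rintro m hm ⟨h1, h2⟩
    have := hqmin m (Finset.mem_filter.2 ⟨hm, h1, by linarith⟩)
    linarith
  · rcases hql.lt_or_eq with h | h
    · by_contra hcon
      push Not at hcon
      have := hpmax q (Finset.mem_filter.2 ⟨hqL, by linarith, h, by linarith⟩)
      linarith
    · have : q = l := by
        by_contra hne
        exact hd q hqL l hl hne h
      rw [this]; exact hFp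

theorem start_pair {ι : Type} (L : Finset ι) (s : ι → ℝ)
    (hd : ∀ i ∈ L, ∀ j ∈ L, i ≠ j → s i ≠ s j) (a K : ℝ) (N : ℕ) (hK : 0 < K) (hN : 16 ≤ N)
    (E : Finset ℕ) (hE : ∀ n : ℕ, n < N →
      (∀ i ∈ L, ¬ (a + n * K ≤ s i ∧ s i < a + (n + 1) * K)) → n ∈ E)
    (hEc : (E.card : ℝ) ≤ N / 24) :
    ∃ p q, Cons L s p q ∧ a + N * K / 4 ≤ s p ∧ s q ≤ a + 3 * (N * K) / 4 := by
  classical
  have hE24 : 24 * E.card ≤ N := by
    have : (24 : ℝ) * E.card ≤ N := by linarith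
    exact_mod_cast this
  set S : Finset ℕ := Finset.Ico ((N + 3) / 4) (3 * N / 4) \ E with hS
  have hScard : 1 < S.card := by
    have h1 : (Finset.Ico ((N + 3) / 4) (3 * N / 4)).card - E.card ≤ S.card :=
      Finset.le_card_sdiff _ _
    rw [Nat.card_Ico] at h1
    omega
  obtain ⟨u, hu, v, hv, huv⟩ := Finset.one_lt_card.mp hScard
  have main : ∀ u v : ℕ, u ∈ S → v ∈ S → u < v →
      ∃ p q, Cons L s p q ∧ a + N * K / 4 ≤ s p ∧ s q ≤ a + 3 * (N * K) / 4 := by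
    intro u v hu hv huv
    rw [hS, Finset.mem_sdiff, Finset.mem_Ico] at hu hv
    obtain ⟨⟨hu1, hu2⟩, hu3⟩ := hu
    obtain ⟨⟨hv1, hv2⟩, hv3⟩ := hv
    have ex : ∀ n : ℕ, n < N → n ∉ E → ∃ i ∈ L, a + n * K ≤ s i ∧ s i < a + (n + 1) * K := by
      intro n hn hnE
      by_contra hcon
      push Not at hcon
      exact hnE (hE n hn (fun i hi h => absurd h.2 (not_lt.mpr (hcon i hi h.1))))
    obtain ⟨i, hi, hi1, hi2⟩ := ex u (by omega) hu3
    obtain ⟨j, hj, hj1, hj2⟩ := ex v (by omega) hv3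
    have huv' : ((u : ℝ) + 1) ≤ v := by exact_mod_cast huv
    have hij : s i < s j := by
      have : ((u : ℝ) + 1) * K ≤ v * K := mul_le_mul_of_nonneg_right huv' hK.le
      linarith
    obtain ⟨p, q, hpq, hp, hq, -⟩ := cons_between L s (fun _ => (0 : ℝ)) hd i j hi hj hij le_rfl
    refine ⟨p, q, hpq, ?_, ?_⟩
    · have h4 : (N : ℝ) ≤ 4 * u := by
        have : N ≤ 4 * u := by omega
        exact_mod_cast this
      have : (N : ℝ) * K ≤ 4 * u * K := mul_le_mul_of_nonneg_right h4 hK.le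
      linarith
    · have h4 : 4 * ((v : ℝ) + 1) ≤ 3 * N := by
        have : 4 * (v + 1) ≤ 3 * N := by omega
        exact_mod_cast this
      have : 4 * ((v : ℝ) + 1) * K ≤ 3 * N * K := mul_le_mul_of_nonneg_right h4 hK.le
      linarith
  rcases lt_or_gt_of_ne huv with h | h
  · exact main u v hu hv h
  · exact main v u hv hu h

theorem select (m0 q : ℕ) (hq : 1 ≤ q) (Q : Finset ℕ) (x : ℕ → ℝ) (ε : ℝ) (hε : 0 < ε)
    (hcard : m0 * q ≤ Q.card) (hx : ∀ m ∈ Q, ∀ m' ∈ Q, m < m' → x m + ε ≤ x m') :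
    ∃ e : Fin m0 → ℕ, (∀ t, e t ∈ Q) ∧ ∀ t u, t ≠ u → (q : ℝ) * ε ≤ |x (e t) - x (e u)| := by
  classical
  set e0 := Q.orderEmbOfFin rfl with he0
  have hmem : ∀ i, e0 i ∈ Q := fun i => Q.orderEmbOfFin_mem rfl i
  have hgap : ∀ (d : ℕ) (u v : Fin Q.card), (v : ℕ) = u + d → x (e0 u) + d * ε ≤ x (e0 v) := by
    intro d
    induction d with
    | zero =>
      intro u v huv
      have : v = u := by ext; simpa using huv
      subst this; simp
    | succ d ih =>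
      intro u v huv
      have hlt : (u : ℕ) + d < Q.card := by have := v.isLt; omega
      have h1 := ih u ⟨u + d, hlt⟩ rfl
      have h2 : e0 ⟨u + d, hlt⟩ < e0 v := by
        apply e0.strictMono
        show (u : ℕ) + d < v
        omega
      have h3 := hx _ (hmem ⟨u + d, hlt⟩) _ (hmem v) h2
      push_cast
      linarith
  have hidx : ∀ t : Fin m0, q * (t : ℕ) < Q.card := by
    intro t
    have ht := t.isLt
    have : q * (t : ℕ) < q * m0 := Nat.mul_lt_mul_of_pos_left ht (by omega)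
    calc q * (t : ℕ) < q * m0 := this
      _ = m0 * q := mul_comm _ _
      _ ≤ Q.card := hcard
  have key : ∀ t u : Fin m0, t < u →
      x (e0 ⟨q * t, hidx t⟩) + (q : ℝ) * ε ≤ x (e0 ⟨q * u, hidx u⟩) := by
    intro t u htu
    have htu' : (t : ℕ) < u := htu
    obtain ⟨k, hk⟩ := Nat.exists_eq_add_of_lt htu'
    have h := hgap (q * (k + 1)) ⟨q * t, hidx t⟩ ⟨q * u, hidx u⟩ (by
      show q * (u : ℕ) = q * t + q * (k + 1)
      rw [hk]; ring)
    have h5 : (q : ℝ) * ε ≤ ((q * (k + 1) : ℕ) : ℝ) * ε := by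
      push_cast
      have hq0 : (0 : ℝ) ≤ q := Nat.cast_nonneg _
      have hk0 : (0 : ℝ) ≤ k := Nat.cast_nonneg _
      nlinarith [mul_nonneg (mul_nonneg hq0 hk0) hε.le]
    linarith
  refine ⟨fun t => e0 ⟨q * t, hidx t⟩, fun t => hmem _, ?_⟩
  intro t u htu
  rcases lt_or_gt_of_ne htu with h | h
  · have := key t u h
    rw [abs_sub_comm]
    exact le_trans (by linarith) (le_abs_self _)
  · have := key u t h
    exact le_trans (by linarith) (le_abs_self _)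

/-- a long chain of consecutive pairs contains many short gaps -/
theorem short_many {ι : Type} (L : Finset ι) (s : ι → ℝ)
    (hd : ∀ i ∈ L, ∀ j ∈ L, i ≠ j → s i ≠ s j) (a K T : ℝ) (N : ℕ) (hK : 0 < K) (hT : 1 ≤ T)
    (E : Finset ℕ) (hE : ∀ n : ℕ, n < N →
      (∀ i ∈ L, ¬ (a + n * K ≤ s i ∧ s i < a + (n + 1) * K)) → n ∈ E)
    (hEc : (E.card : ℝ) ≤ (1 / (24 * T)) * N)
    (n : ℕ) (f : ℕ → ι × ι) (hc : ∀ m ≤ n, Cons L s (f m).1 (f m).2)
    (hl : ∀ m ≤ n, a ≤ s (f m).1) (hr : ∀ m ≤ n, s (f m).2 ≤ a + N * K)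
    (hinj : ∀ m ≤ n, ∀ m' ≤ n, f m = f m' → m = m')
    (hsum : N * K / 4 ≤ T * ∑ m ∈ Finset.range (n + 1), (s (f m).2 - s (f m).1)) :
    (N : ℝ) / (24 * T) ≤ (((Finset.range (n + 1)).filter
      (fun m => s (f m).2 - s (f m).1 ≤ 3 * K)).card : ℝ) := by
  classical
  have hT0 : 0 < T := by linarith
  set Sh := (Finset.range (n + 1)).filter (fun m => s (f m).2 - s (f m).1 ≤ 3 * K) with hSh
  set Lg := (Finset.range (n + 1)).filter (fun m => ¬ (s (f m).2 - s (f m).1 ≤ 3 * K)) with hLg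
  have hsplit : ∑ m ∈ Sh, (s (f m).2 - s (f m).1) + ∑ m ∈ Lg, (s (f m).2 - s (f m).1)
      = ∑ m ∈ Finset.range (n + 1), (s (f m).2 - s (f m).1) := by
    rw [hSh, hLg]
    exact Finset.sum_filter_add_sum_filter_not _ _ _
  have hmem : ∀ m ∈ Lg, m ≤ n ∧ 3 * K < s (f m).2 - s (f m).1 := by
    intro m hm
    rw [hLg, Finset.mem_filter, Finset.mem_range] at hm
    exact ⟨by omega, not_le.mp hm.2⟩
  -- key: order of different pairs
  have hkey : ∀ m ≤ n, ∀ m' ≤ n, m ≠ m' → s (f m).2 ≤ s (f m').1 ∨ s (f m').2 ≤ s (f m).1 := by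
    intro m hm m' hm' hne
    have h1 := hc m hm
    have h2 := hc m' hm'
    obtain ⟨h1a, h1b, h1c, h1d⟩ := h1
    obtain ⟨h2a, h2b, h2c, h2d⟩ := h2
    rcases lt_trichotomy (s (f m).1) (s (f m').1) with h | h | h
    · left
      by_contra hcon
      exact h1d _ h2a ⟨h, not_le.mp hcon⟩
    · exfalso
      have e1 : (f m).1 = (f m').1 := by
        by_contra hcon
        exact hd _ h1a _ h2a hcon h
      have e2 : (f m).2 = (f m').2 := by
        by_contra hcon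
        have hs := hd _ h1b _ h2b hcon
        rcases lt_or_gt_of_ne hs with h' | h'
        · exact h2d _ h1b ⟨by rw [← h]; exact h1c, h'⟩
        · exact h1d _ h2b ⟨by rw [h]; exact h2c, h'⟩
      exact hne (hinj m hm m' hm' (Prod.ext e1 e2))
    · right
      by_contra hcon
      exact h2d _ h1a ⟨h, not_le.mp hcon⟩
  have hlg := long_gaps L s a K (1 / (24 * T)) N hK E hE hEc Lg
    (fun m => s (f m).1) (fun m => s (f m).2)
    (fun m hm => hl m (hmem m hm).1) (fun m hm => hr m (hmem m hm).1)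
    (fun m hm => (hmem m hm).2)
    (fun m hm i hi => (hc m (hmem m hm).1).2.2.2 i hi)
    (fun m hm m' hm' hne => hkey m (hmem m hm).1 m' (hmem m' hm').1 hne)
  have hsh : ∑ m ∈ Sh, (s (f m).2 - s (f m).1) ≤ (Sh.card : ℝ) * (3 * K) := by
    have := Finset.sum_le_card_nsmul Sh (fun m => s (f m).2 - s (f m).1) (3 * K) (by
      intro m hm
      rw [hSh, Finset.mem_filter] at hm
      exact hm.2)
    rwa [nsmul_eq_mul] at this
  have h3 : (N : ℝ) * K / 4 ≤ T * ((Sh.card : ℝ) * (3 * K) + 3 * (1 / (24 * T)) * N * K) := by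
    refine hsum.trans ?_
    rw [← hsplit]
    exact mul_le_mul_of_nonneg_left (add_le_add hsh hlg) hT0.le
  have h4 : T * ((Sh.card : ℝ) * (3 * K) + 3 * (1 / (24 * T)) * N * K)
      = T * (Sh.card : ℝ) * 3 * K + N * K / 8 := by
    field_simp
    ring
  rw [h4] at h3
  have h5 : (N : ℝ) * K ≤ (24 * T * (Sh.card : ℝ)) * K := by nlinarith
  have h6 : (N : ℝ) ≤ 24 * T * (Sh.card : ℝ) := le_of_mul_le_mul_right h5 hK
  rw [div_le_iff₀ (by positivity)]
  linarith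

/-- the local contradiction inside a window of slopes of near maximal density -/
theorem comb_window (M T : ℝ) (hM : 1 ≤ M) (hT : 1 ≤ T) (K : ℕ) (hK : 1 ≤ K) : ∃ N0 : ℕ,
    ∀ N : ℕ, N0 ≤ N → ∀ (R : ℝ) (ι : Type) (L : Finset ι) (s b : ι → ℝ), Good L s b M T R →
      ∀ a : ℝ, -R ≤ a → a + N * K ≤ R → ∀ E : Finset ℕ,
      (∀ n : ℕ, n < N → (∀ i ∈ L, ¬ (a + n * K ≤ s i ∧ s i < a + (n + 1) * K)) → n ∈ E) →
      (E.card : ℝ) ≤ (1 / (24 * T)) * N → False := by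
  have hM0 : (0:ℝ) < M := by linarith
  have hT0 : (0:ℝ) < T := by linarith
  have hKR : (1:ℝ) ≤ (K:ℝ) := by exact_mod_cast hK
  have hK0 : (0:ℝ) < (K:ℝ) := by linarith
  obtain ⟨m0, hm0, Λ, θ0, hΛ, hθ0, hcl⟩ := cluster (1/(96*M*K)) (64*M) (by positivity) (by linarith)
  have hm0R : (1:ℝ) ≤ m0 := by exact_mod_cast hm0
  obtain ⟨N0, hN0⟩ := exists_nat_ge (16 + 3*(128*M)^2 + θ0 + (48*T*m0*Λ*K*√3)^2 + 96*T*m0)
  refine ⟨N0, ?_⟩
  intro N hN R ι L s b hG a ha1 ha2 E hE hEc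
  have hNN : (N0:ℝ) ≤ (N:ℝ) := by exact_mod_cast hN
  have e1 : 0 ≤ 3*(128*M)^2 := by positivity
  have e2 : 0 ≤ (48*T*m0*Λ*K*√3)^2 := by positivity
  have e3 : 0 ≤ 96*T*m0 := by positivity
  have h16 : (16:ℝ) ≤ N := by linarith
  have h16n : 16 ≤ N := by exact_mod_cast h16
  have hNM : 3*(128*M)^2 ≤ (N:ℝ) := by linarith
  have hNθ : θ0 ≤ (N:ℝ) := by linarith
  have hNL : (48*T*m0*Λ*K*√3)^2 ≤ (N:ℝ) := by linarith
  have hNm : 96*T*m0 ≤ (N:ℝ) := by linarith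
  have hN0' : (0:ℝ) < N := by linarith
  have hNK : (0:ℝ) < N * K := by positivity
  have hd : ∀ i ∈ L, ∀ j ∈ L, i ≠ j → s i ≠ s j := by
    intro i hi j hj hij h
    have := hG.sep i hi j hj hij
    rw [h, sub_self, abs_zero] at this
    norm_num at this
  have hEc24 : (E.card : ℝ) ≤ N / 24 := by
    refine hEc.trans ?_
    rw [div_mul_eq_mul_div, one_mul]
    apply div_le_div_of_nonneg_left hN0'.le (by norm_num)
    linarith
  obtain ⟨p, q, hpq, hp1, hq1⟩ := start_pair L s hd a K N hK0 h16n E hE hEc24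
  have hpqlt : s p < s q := hpq.2.2.1
  obtain ⟨c, hc⟩ : ∃ c : ℝ, c = a + N*K/2 := ⟨_, rfl⟩
  obtain ⟨D, hD⟩ : ∃ D : ℝ, D = N*K/2 := ⟨_, rfl⟩
  have hDpos : 0 < D := by rw [hD]; positivity
  have hcD : |c| + D ≤ R := by
    have : |c| ≤ R - D := by
      rw [abs_le]; constructor <;> rw [hc, hD] <;> linarith
    linarith
  have hP : ({p : ι × ι | Cons L s p.1 p.2} : Set (ι × ι)).Finite := by
    refine Set.Finite.subset (Finset.finite_toSet (L ×ˢ L)) ?_
    intro p hp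
    rw [Finset.mem_coe, Finset.mem_product]
    exact ⟨hp.1, hp.2.1⟩
  have hnext : ∀ p ∈ ({p : ι × ι | Cons L s p.1 p.2} : Set (ι × ι)),
      |s p.1 - c| + T * (s p.2 - s p.1) ≤ D → ∃ q ∈ ({p : ι × ι | Cons L s p.1 p.2} : Set (ι × ι)),
      |s q.1 - s p.1| ≤ T * (s p.2 - s p.1) ∧
      |s q.1 + (s q.2 - s q.1) - s p.1| ≤ T * (s p.2 - s p.1) ∧
        cr s b p.1 p.2 + 1 / √(s p.2 - s p.1) ≤ cr s b q.1 q.2 := by
    intro p hp hpD
    have h1 : |s p.1| ≤ |s p.1 - c| + |c| := by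
      have := abs_add_le (s p.1 - c) c
      rwa [sub_add_cancel] at this
    obtain ⟨u, v, huv, h2, h3, h4⟩ := hG.mx p.1 p.2 hp (by linarith)
    refine ⟨(u, v), huv, h2, ?_, h4⟩
    have : s u + (s v - s u) - s p.1 = s v - s p.1 := by ring
    simp only
    rw [this]
    exact h3
  have hst1 : |s p - c| ≤ D / 2 := by
    rw [abs_le]; constructor <;> rw [hc, hD] <;> linarith
  have hst2 : |s p + (s q - s p) - c| ≤ D / 2 := by
    rw [abs_le]; constructor <;> rw [hc, hD] <;> linarith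
  obtain ⟨n, f, hf1, hf2, hf3⟩ := chain ({p : ι × ι | Cons L s p.1 p.2} : Set (ι × ι)) hP
    (fun p => s p.1) (fun p => s p.2 - s p.1) (fun p => cr s b p.1 p.2) T D c hT hDpos
    (fun p hp => sub_pos.2 hp.2.2.1) hnext (p, q) hpq hst1 hst2
  try simp only at hf1 hf2 hf3
  have hgpos : ∀ m ≤ n, 0 < s (f m).2 - s (f m).1 := fun m hm => sub_pos.2 (hf1 m hm).1.2.2.1
  have hmono : ∀ m' m, m < m' → m' ≤ n →
      cr s b (f m).1 (f m).2 + 1 / √(s (f m).2 - s (f m).1) ≤ cr s b (f m').1 (f m').2 := by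
    intro m'
    induction m' with
    | zero => intro m hm; omega
    | succ k ih =>
      intro m hm hk
      rcases Nat.lt_succ_iff_lt_or_eq.1 hm with h | h
      · have h1 := ih m h (by omega)
        have h2 := hf2 k (by omega)
        have h3 : 0 ≤ 1 / √(s (f k).2 - s (f k).1) := by positivity
        linarith
      · subst h
        exact hf2 m (by omega)
  have hinj : ∀ m ≤ n, ∀ m' ≤ n, f m = f m' → m = m' := by
    have key : ∀ m ≤ n, ∀ m' ≤ n, m < m' → f m ≠ f m' := by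
      intro m hm m' hm' hlt heq
      have h1 := hmono m' m hlt hm'
      rw [← heq] at h1
      have h2 : 0 < 1 / √(s (f m).2 - s (f m).1) := by
        have := Real.sqrt_pos.2 (hgpos m hm)
        positivity
      linarith
    intro m hm m' hm' heq
    rcases lt_trichotomy m m' with h | h | h
    · exact absurd heq (key m hm m' hm' h)
    · exact h
    · exact absurd heq.symm (key m' hm' m hm h)
  have hl : ∀ m ≤ n, a ≤ s (f m).1 := by
    intro m hm
    have := (abs_le.1 (hf1 m hm).2.1).1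
    rw [hc, hD] at this
    linarith
  have hr : ∀ m ≤ n, s (f m).2 ≤ a + N * K := by
    intro m hm
    have := (abs_le.1 (hf1 m hm).2.2).2
    rw [hc, hD] at this
    linarith
  have hsm := short_many L s hd a K T N hK0 hT E hE hEc n f (fun m hm => (hf1 m hm).1) hl hr hinj
    (by rw [hD] at hf3; linarith)
  obtain ⟨Q, hQ⟩ : ∃ Q : Finset ℕ, Q = (Finset.range (n + 1)).filter
      (fun m => s (f m).2 - s (f m).1 ≤ 3 * K) := ⟨_, rfl⟩
  rw [← hQ] at hsm
  have hQm : ∀ m ∈ Q, m ≤ n ∧ s (f m).2 - s (f m).1 ≤ 3 * K := by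
    intro m hm
    rw [hQ, Finset.mem_filter, Finset.mem_range] at hm
    exact ⟨by omega, hm.2⟩
  have h3K : (0:ℝ) < √(3*K) := Real.sqrt_pos.2 (by positivity)
  obtain ⟨qq, hqq⟩ : ∃ qq : ℕ, qq = ⌈Λ * √(N*K) * √(3*K)⌉₊ + 1 := ⟨_, rfl⟩
  have hqq1 : Λ * √(N*K) * √(3*K) ≤ qq := by
    rw [hqq]; push_cast
    have := Nat.le_ceil (Λ * √(N*K) * √(3*K))
    linarith
  have hqq2 : (qq:ℝ) ≤ Λ * √(N*K) * √(3*K) + 2 := by
    rw [hqq]; push_cast
    have := (Nat.ceil_lt_add_one (show 0 ≤ Λ * √(N*K) * √(3*K) by positivity)).le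
    linarith
  have hsq : √((N:ℝ)*K) * √(3*K) = K * √3 * √N := by
    rw [← Real.sqrt_mul hNK.le]
    have : (N:ℝ)*K*(3*K) = (K:ℝ)^2 * (3 * N) := by ring
    rw [this, Real.sqrt_mul (by positivity), Real.sqrt_sq hK0.le, Real.sqrt_mul (by norm_num)]
    ring
  have hsN : 48*T*m0*Λ*K*√3 ≤ √N := Real.le_sqrt_of_sq_le hNL
  have hcard : m0 * qq ≤ Q.card := by
    have h1 : (m0:ℝ) * qq ≤ N / (24*T) := by
      have h2 : (m0:ℝ) * qq ≤ m0 * (Λ * (K * √3 * √N) + 2) := by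
        apply mul_le_mul_of_nonneg_left _ (by positivity)
        rw [← hsq]
        linarith
      refine h2.trans ?_
      rw [le_div_iff₀ (by positivity)]
      have h4 : (48*T*m0*Λ*K*√3) * √N ≤ √N * √N := mul_le_mul_of_nonneg_right hsN (Real.sqrt_nonneg _)
      rw [Real.mul_self_sqrt hN0'.le] at h4
      nlinarith
    have h5 : (m0:ℝ) * qq ≤ Q.card := h1.trans hsm
    exact_mod_cast h5
  obtain ⟨e, he1, he2⟩ := select m0 qq (by omega) Q (fun m => cr s b (f m).1 (f m).2) (1 / √(3*K))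
    (by positivity) hcard (by
      intro m hm m' hm' hlt
      have h1 := hmono m' m hlt (hQm m' hm').1
      have h2 : 1 / √(3*K) ≤ 1 / √(s (f m).2 - s (f m).1) := by
        apply one_div_le_one_div_of_le (Real.sqrt_pos.2 (hgpos m (hQm m hm).1))
        exact Real.sqrt_le_sqrt (hQm m hm).2
      linarith)
  have hθ : θ0 ≤ (N:ℝ) * K := by nlinarith
  classical
  refine hcl ((N:ℝ)*K) hθ ι L s b hG.sep c (fun t => cr s b (f (e t)).1 (f (e t)).2)
    (fun t => s (f (e t)).1 * cr s b (f (e t)).1 (f (e t)).2 + b (f (e t)).1)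
    (fun t => s (f (e t)).1)
    (fun t => L.filter (fun k => |s k - s (f (e t)).1| ≤ 64 * M * (N*K) ∧
      |s k * cr s b (f (e t)).1 (f (e t)).2 + b k -
        (s (f (e t)).1 * cr s b (f (e t)).1 (f (e t)).2 + b (f (e t)).1)| ≤ 12 * ((N*K) * √(N*K))))
    ?_ ?_ ?_ ?_ ?_
  · intro t
    have h1 := (hf1 (e t) (hQm _ (he1 t)).1).2.1
    refine h1.trans ?_
    rw [hD]; linarith
  · intro t
    exact Finset.filter_subset _ _
  · intro t k hk
    rw [Finset.mem_filter] at hk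
    exact hk.2
  · intro t
    obtain ⟨hm1, hm2⟩ := hQm _ (he1 t)
    have hCons : Cons L s (f (e t)).1 (f (e t)).2 := (hf1 (e t) hm1).1
    have hg0 := hgpos _ hm1
    have hcl1 := (hf1 (e t) hm1).2.1
    generalize (f (e t)).1 = i at hm2 hCons hg0 hcl1 ⊢
    generalize (f (e t)).2 = j at hm2 hCons hg0 ⊢
    obtain ⟨g, hg⟩ : ∃ g, g = s j - s i := ⟨_, rfl⟩
    have hg4 : 1/4 ≤ g := by
      have := hG.sep i hCons.1 j hCons.2.1 (by rintro rfl; exact absurd hCons.2.2.1 (lt_irrefl _))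
      rw [abs_sub_comm, abs_of_pos hg0] at this
      rw [hg]; exact this
    rw [← hg] at hm2 hg0
    have hθg : 0 ≤ (N:ℝ)*K/g := by positivity
    have htsq : √((N:ℝ)*K/g)^2 = (N:ℝ)*K/g := Real.sq_sqrt hθg
    have hgt : g * √((N:ℝ)*K/g)^2 = (N:ℝ)*K := by
      rw [htsq]; field_simp
    have hNg : (N:ℝ)/3 ≤ (N:ℝ)*K/g := by
      rw [div_le_div_iff₀ (by norm_num) hg0]
      nlinarith
    have hp3 := hG.p3 i hCons.1 j hCons.2.1 hCons.2.2.1 (by
        have h1 : |s i| ≤ |s i - c| + |c| := by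
          have := abs_add_le (s i - c) c
          rwa [sub_add_cancel] at this
        linarith) (√((N:ℝ)*K/g)) (by
        apply Real.le_sqrt_of_sq_le
        linarith) (by
        rw [← hg, hgt]; linarith) (L.filter (fun k => |s k - s i| ≤ 64 * M * (N*K) ∧
          |s k * cr s b i j + b k - (s i * cr s b i j + b i)| ≤ 12 * ((N*K) * √(N*K)))) (by
        intro k hk h1 h2
        rw [← hg, hgt] at h1
        rw [Finset.mem_filter]
        refine ⟨hk, h1, h2.trans ?_⟩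
        rw [← hg]
        have h3 : √g * √((N:ℝ)*K/g)^3 = (N*K) * √(N*K) / g := by
          have h4 : √g * √((N:ℝ)*K/g) = √((N:ℝ)*K) := by
            rw [← Real.sqrt_mul hg0.le]
            congr 1
            field_simp
          calc √g * √((N:ℝ)*K/g)^3 = (√g * √((N:ℝ)*K/g)) * √((N:ℝ)*K/g)^2 := by ring
            _ = √((N:ℝ)*K) * ((N:ℝ)*K/g) := by rw [h4, htsq]
            _ = (N*K) * √(N*K) / g := by ring
        rw [mul_assoc, h3]
        have h5 : 0 ≤ (N:ℝ)*K * √((N:ℝ)*K) := by positivity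
        have h6 : (N:ℝ)*K * √((N:ℝ)*K) / g ≤ 4 * ((N:ℝ)*K * √((N:ℝ)*K)) := by
          rw [div_le_iff₀ hg0]
          nlinarith
        linarith)
    refine le_trans ?_ hp3
    rw [htsq]
    have h7 : (N:ℝ)*K/(3*K) ≤ (N:ℝ)*K/g := div_le_div_of_nonneg_left hNK.le hg0 hm2
    calc 1 / (96 * M * K) * ((N:ℝ) * K) = ((N:ℝ)*K/(3*K)) / (32*M) := by
          field_simp
          norm_num
      _ ≤ ((N:ℝ)*K/g) / (32*M) := by
          apply div_le_div_of_nonneg_right h7 (by positivity)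
  · intro t u htu
    refine le_trans ?_ (he2 t u htu)
    rw [mul_one_div, le_div_iff₀ h3K]
    exact hqq1

/-- density of slopes at the largest scale -/
theorem Good.dens {ι : Type} {L : Finset ι} {s b : ι → ℝ} {M T R : ℝ} (h : Good L s b M T R)
    (hM : 1 ≤ M) (hR : 2 ^ 22 * M ^ 3 ≤ R) (F : Finset ι)
    (hF : ∀ k ∈ L, |s k| ≤ R / 2 → k ∈ F) : R / (8192 * M ^ 2) ≤ F.card := by
  obtain ⟨i, hi, j, hj, si, bi, bj, g1, g2⟩ := h.V
  have hM0 : 0 < M := by linarith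
  have hR0 : 0 < R := lt_of_lt_of_le (by positivity) hR
  have hg0 : 0 < s j := by linarith
  set t : ℝ := √(R / (128 * M * s j)) with ht
  have ht2 : t ^ 2 = R / (128 * M * s j) := Real.sq_sqrt (by positivity)
  have hlow : R / (256 * M) ≤ t ^ 2 := by
    rw [ht2]
    apply div_le_div_of_nonneg_left hR0.le (by positivity)
    nlinarith
  have h1 : (128 * M) ^ 2 ≤ t ^ 2 := by
    refine le_trans ?_ hlow
    rw [le_div_iff₀ (by positivity)]
    nlinarith
  have h2 : 128 * M ≤ t := by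
    have ht0 : 0 ≤ t := Real.sqrt_nonneg _
    nlinarith
  have hgt : s j * t ^ 2 = R / (128 * M) := by
    rw [ht2]; field_simp
  have h3 : s j * t ^ 2 ≤ 2 * R := by
    rw [hgt, div_le_iff₀ (by positivity)]
    nlinarith
  have h4 : 64 * M * (s j * t ^ 2) = R / 2 := by
    rw [hgt]; field_simp; norm_num
  have key := h.p3 i hi j hj (by rw [si]; exact hg0) (by rw [si, abs_zero]; exact hR0.le) t h2
    (by rw [si, sub_zero]; exact h3) F (by
      intro k hk hk1 _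
      rw [si, sub_zero, sub_zero, h4] at hk1
      exact hF k hk hk1)
  refine le_trans ?_ key
  calc R / (8192 * M ^ 2) = (R / (256 * M)) / (32 * M) := by field_simp; norm_num
    _ ≤ t ^ 2 / (32 * M) := by gcongr

theorem comb (M T : ℝ) (hM : 1 ≤ M) (hT : 1 ≤ T) : ∃ R : ℝ, 1 ≤ R ∧
    ∀ (ι : Type) (L : Finset ι) (s b : ι → ℝ), ¬ Good L s b M T R := by
  classical
  have hN0 : ∀ K : ℕ, ∃ N0 : ℕ, 1 ≤ K → 
    ∀ N : ℕ, N0 ≤ N → ∀ (R : ℝ) (ι : Type) (L : Finset ι) (s b : ι → ℝ), Good L s b M T R →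
      ∀ a : ℝ, -R ≤ a → a + N * K ≤ R → ∀ E : Finset ℕ,
      (∀ n : ℕ, n < N → (∀ i ∈ L, ¬ (a + n * K ≤ s i ∧ s i < a + (n + 1) * K)) → n ∈ E) →
      (E.card : ℝ) ≤ (1 / (24 * T)) * N → False := by
    intro K
    by_cases hK : 1 ≤ K
    · obtain ⟨N0, h⟩ := comb_window M T hM hT K hK
      exact ⟨N0, fun _ => h⟩
    · exact ⟨0, fun h => absurd h hK⟩
  choose N0 hN0 using hN0
  have hM0 : 0 < M := by linarith
  have hT0 : 0 < T := by linarith
  have hδ : (0:ℝ) < 1 / (24 * T) := by positivity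
  have hδ1 : (1:ℝ) / (24 * T) < 1 := by
    rw [div_lt_one (by positivity)]; linarith
  have hc : (0:ℝ) < 1 / (16384 * M ^ 2) := by positivity
  obtain ⟨J, ℓ, hℓ0, hℓs, hR0, hden⟩ := density (1 / (24 * T)) (1 / (16384 * M ^ 2))
    (2 ^ 23 * M ^ 3) hδ hδ1 hc (fun K => max 2 (N0 K)) (fun n => le_max_left _ _)
  have hℓ1 : ∀ j, 1 ≤ ℓ j := by
    intro j
    induction j with
    | zero => rw [hℓ0]
    | succ j ih =>
      rw [hℓs]
      have : 1 ≤ max 2 (N0 (ℓ j)) := le_trans (by norm_num) (le_max_left _ _)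
      exact Nat.one_le_iff_ne_zero.mpr (Nat.mul_ne_zero (by omega) (by omega))
  have hM3 : (1:ℝ) ≤ M ^ 3 := one_le_pow₀ hM
  refine ⟨(ℓ J : ℝ) / 2, ?_, ?_⟩
  · have : (2:ℝ) ^ 23 * M ^ 3 ≥ 2 := by nlinarith
    linarith
  · intro ι L s b hG
    have hR : 2 ^ 22 * M ^ 3 ≤ (ℓ J : ℝ) / 2 := by linarith
    have hcard := hG.dens hM hR
      (L.filter (fun i => -((ℓ J : ℝ) / 2) ≤ s i ∧ s i < (ℓ J : ℝ) / 2)) (by
        intro k hk hs
        rw [Finset.mem_filter]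
        have hpos : (0:ℝ) < (ℓ J : ℝ) / 2 := by
          have : (0:ℝ) < 2 ^ 22 * M ^ 3 := by positivity
          linarith
        have := abs_le.mp hs
        refine ⟨hk, by linarith [this.1], by linarith [this.2]⟩)
    obtain ⟨j, hj, a, ha1, ha2, ha3, ha4⟩ := hden ι L s hG.sep (by
      refine le_trans (le_of_eq ?_) hcard
      field_simp
      ring)
    have hNK : ((ℓ (j + 1) : ℕ) : ℝ) = ((max 2 (N0 (ℓ j)) : ℕ) : ℝ) * (ℓ j : ℝ) := by
      rw [hℓs]; push_cast; ring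
    have hK0 : (0:ℝ) < (ℓ j : ℝ) := by exact_mod_cast (hℓ1 j)
    rw [hNK] at ha2 ha3 ha4
    have hemp := empties L s a (ℓ j : ℝ) (1 / (24 * T)) (max 2 (N0 (ℓ j))) hK0 hδ1 (by
      intro n hn
      have hn1 : ((n:ℝ) + 1) ≤ ((max 2 (N0 (ℓ j)) : ℕ) : ℝ) := by exact_mod_cast hn
      have h4 := ha4 (a + n * (ℓ j : ℝ)) (by
        have : (0:ℝ) ≤ n * (ℓ j : ℝ) := by positivity
        linarith) (by nlinarith)
      have e1 : a + n * (ℓ j : ℝ) + (ℓ j : ℝ) = a + ((n:ℝ) + 1) * (ℓ j : ℝ) := by ring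
      rw [e1] at h4
      exact h4) ha3
    refine hN0 (ℓ j) (hℓ1 j) (max 2 (N0 (ℓ j))) (le_max_right _ _) ((ℓ J : ℝ) / 2) ι L s b hG a ha1
      ha2 ((Finset.range (max 2 (N0 (ℓ j)))).filter
      (fun n : ℕ => ∀ i ∈ L, ¬ (a + n * (ℓ j : ℝ) ≤ s i ∧ s i < a + (n + 1) * (ℓ j : ℝ)))) ?_ ?_
    · intro n hn h
      rw [Finset.mem_filter]
      exact ⟨Finset.mem_range.mpr hn, h⟩
    · exact hemp

end Pool.Agent.Helper734.FT
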