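import Mathlib

set_option autoImplicit false

open MeasureTheory Set

namespace Pool.Agent.Helper734.FT

/-- Square window of half side `Z`. -/
def win (Z : ℝ) : Set (ℝ × ℝ) := {z | |z.1| ≤ Z ∧ |z.2| ≤ Z}

/-- Region cut out by finitely many open half planes bounded by lines `y = s i * x + b i`. -/
def reg {ι : Type} (s b : ι → ℝ) {n : ℕ} (a : Fin n → ι) (σ : Fin n → ℝ) : Set (ℝ × ℝ) :=
  {z | ∀ m, 0 < σ m * (z.2 - s (a m) * z.1 - b (a m))}

/-- A family of lines `y = s i * x + b i` which, inside the window of half side `Z`, behaves like an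
arrangement with all cells of area between `1` and `M`. -/
structure Cfg {ι : Type} (s b : ι → ℝ) (Z M : ℝ) : Prop where
  T : ∀ (n : ℕ) (a : Fin n → ι) (σ : Fin n → ℝ), (reg s b a σ).Nonempty →
    reg s b a σ ⊆ win Z → 1 ≤ volume (reg s b a σ)
  U : ∀ Ω : Set (ℝ × ℝ), IsOpen Ω → Convex ℝ Ω → Ω ⊆ win Z →
    (∀ i, ∀ z ∈ Ω, z.2 ≠ s i * z.1 + b i) → volume Ω ≤ ENNReal.ofReal M
  G : ∀ i j k, i ≠ j → j ≠ k → i ≠ k → ∀ x y : ℝ, y = s i * x + b i → y = s j * x + b j →
    y ≠ s k * x + b k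

/-- x-coordinate of the crossing of lines `i` and `j`. -/
noncomputable def cr {ι : Type} (s b : ι → ℝ) (i j : ι) : ℝ := (b i - b j) / (s j - s i)

/-- `i, j` are consecutive in `L` for the order by slope. -/
def Cons {ι : Type} (L : Finset ι) (s : ι → ℝ) (i j : ι) : Prop :=
  i ∈ L ∧ j ∈ L ∧ s i < s j ∧ ∀ k ∈ L, ¬ (s i < s k ∧ s k < s j)

end Pool.Agent.Helper734.FT
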