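import Pool.Agent.Helper734.FT.Max
import Pool.Agent.Helper734.FT.Comb

set_option autoImplicit false

open MeasureTheory Set

namespace Pool.Agent.Helper734.FT

theorem geo_max {M T H0 Z0 : ℝ} (hT : 1 ≤ T) (hH0 : 1 ≤ H0) (hZ0 : 1 ≤ Z0)
    (hmax : MaxP M T H0 Z0) {ι : Type} [Fintype ι] {s b : ι → ℝ} {Z : ℝ} (h : Cfg s b Z M)
    (L : Finset ι) (Tm B : ℝ) (hTm : 1 ≤ Tm) (hB1 : 2 * H0 ≤ B) (hB2 : Z0 ≤ B)
    (hBZ : 18 * Tm * B ≤ Z) (hL : ∀ k, k ∈ L ↔ |s k| ≤ Tm ∧ |b k| ≤ B)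
    (hclo : ∀ k, |s k| ≤ Tm → |b k| ≤ 18 * Tm * B → |b k| ≤ B)
    (hsep : ∀ i ∈ L, ∀ j ∈ L, i ≠ j → 1 / 4 ≤ |s i - s j|) (i j : ι) (hc : Cons L s i j)
    (hR : |s i| + T * (s j - s i) ≤ Tm) :
    ∃ p q, Cons L s p q ∧ |s p - s i| ≤ T * (s j - s i) ∧ |s q - s i| ≤ T * (s j - s i) ∧
      cr s b i j + 1 / √(s j - s i) ≤ cr s b p q := by
  obtain ⟨hiL, hjL, hij, hbet⟩ := hc
  have hi := (hL i).1 hiL
  have hj := (hL j).1 hjL
  set g := s j - s i with hg
  have hg0 : 0 < g := by rw [hg]; linarith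
  have hg4 : 1 / 4 ≤ g := by
    have hne : i ≠ j := by
      rintro rfl
      exact lt_irrefl _ hij
    have := hsep i hiL j hjL hne
    rw [abs_sub_comm, abs_of_pos (by linarith : 0 < s j - s i)] at this
    exact this
  have hg2 : g ≤ 2 * Tm := by
    have h1 := abs_le.1 hi.1
    have h2 := abs_le.1 hj.1
    rw [hg]; linarith [h1.1, h2.2]
  set μ := √g with hμd
  have hμ : 0 < μ := Real.sqrt_pos.2 hg0
  have hμ2 : μ ^ 2 = g := Real.sq_sqrt hg0.le
  have hμh : 1 / 2 ≤ μ := by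
    by_contra hcon
    push Not at hcon
    nlinarith
  have hμT : μ ≤ 2 * Tm := by
    by_contra hcon
    push Not at hcon
    nlinarith
  have hB : 1 ≤ B := by linarith
  have hTB : 1 ≤ Tm * B := by nlinarith
  have hBTB : B ≤ Tm * B := by nlinarith
  set X := cr s b i j with hXd
  have hX : g * X = b i - b j := by
    rw [hXd]; unfold cr; rw [← hg]; field_simp
  have hXB : |X| ≤ 8 * B := by
    have h1 : |g * X| ≤ 2 * B := by
      rw [hX]
      have h1 := abs_le.1 hi.2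
      have h2 := abs_le.1 hj.2
      rw [abs_le]
      constructor <;> linarith [h1.1, h1.2, h2.1, h2.2]
    rw [abs_mul, abs_of_pos hg0] at h1
    have h2 := abs_nonneg X
    nlinarith
  have hwin : ∀ x y : ℝ, |x| ≤ Z0 → |y| ≤ Z0 →
      |X + x / μ| ≤ Z ∧ |s i * (X + x / μ) + b i + μ * y| ≤ Z := by
    intro x y hx hy
    have h1 : |x / μ| ≤ 2 * Z0 := by
      rw [abs_div, abs_of_pos hμ, div_le_iff₀ hμ]
      have : 0 ≤ Z0 := by linarith
      nlinarith
    have h2 : |X + x / μ| ≤ 10 * B := by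
      calc |X + x / μ| ≤ |X| + |x / μ| := abs_add_le _ _
        _ ≤ 8 * B + 2 * Z0 := by linarith
        _ ≤ 10 * B := by linarith
    constructor
    · linarith
    · have h3 : |s i * (X + x / μ)| ≤ Tm * (10 * B) := by
        rw [abs_mul]
        exact mul_le_mul hi.1 h2 (abs_nonneg _) (by linarith)
      have h4 : |μ * y| ≤ 2 * Tm * B := by
        rw [abs_mul, abs_of_pos hμ]
        exact mul_le_mul hμT (by linarith) (abs_nonneg _) (by linarith)
      calc |s i * (X + x / μ) + b i + μ * y| ≤ |s i * (X + x / μ) + b i| + |μ * y| := abs_add_le _ _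
        _ ≤ (|s i * (X + x / μ)| + |b i|) + |μ * y| := by
            have := abs_add_le (s i * (X + x / μ)) (b i); linarith
        _ ≤ Tm * (10 * B) + B + 2 * Tm * B := by linarith [hi.2]
        _ ≤ Z := by linarith
  have hcfg := h.transform X (s i) (b i) μ Z0 hμ hwin
  -- membership
  have hsk : ∀ k, |(s k - s i) / μ ^ 2| ≤ T → |s k - s i| ≤ T * g := by
    intro k hk
    rw [hμ2, abs_div, abs_of_pos hg0, div_le_iff₀ hg0] at hk
    exact hk
  have hmem : ∀ k, |(s k - s i) / μ ^ 2| ≤ T →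
      |((s k - s i) * X + b k - b i) / μ| ≤ H0 → k ∈ L := by
    intro k hk1 hk2
    have h1 := hsk k hk1
    have h2 : |s k| ≤ Tm := by
      have : |s k| ≤ |s i| + |s k - s i| := by
        have := abs_add_le (s i) (s k - s i)
        rwa [add_sub_cancel] at this
      linarith
    have h3 : |(s k - s i) * X + b k - b i| ≤ H0 * μ := by
      rw [abs_div, abs_of_pos hμ, div_le_iff₀ hμ] at hk2
      exact hk2
    have h4 : |s k - s i| ≤ 2 * Tm := by
      have h5 := abs_le.1 h2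
      have h6 := abs_le.1 hi.1
      rw [abs_le]
      constructor <;> linarith [h5.1, h5.2, h6.1, h6.2]
    have h5 : |(s k - s i) * X| ≤ 2 * Tm * (8 * B) := by
      rw [abs_mul]
      exact mul_le_mul h4 hXB (abs_nonneg _) (by linarith)
    have h6 : H0 * μ ≤ Tm * B := by
      have h61 : H0 * μ ≤ H0 * (2 * Tm) := mul_le_mul_of_nonneg_left hμT (by linarith)
      have h62 : (2 * H0) * Tm ≤ B * Tm := mul_le_mul_of_nonneg_right hB1 (by linarith)
      linarith
    have h7 : |b k| ≤ 18 * Tm * B := by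
      have e1 : b k = ((s k - s i) * X + b k - b i) - (s k - s i) * X + b i := by ring
      have h8 := abs_le.1 h3
      have h9 := abs_le.1 h5
      have h10 := abs_le.1 hi.2
      rw [abs_le]
      constructor
      · rw [e1]; linarith [h8.1, h9.2, h10.1]
      · rw [e1]; linarith [h8.2, h9.1, h10.2]
    exact (hL k).2 ⟨h2, hclo k h2 h7⟩
  have hμ2' : μ ^ 2 ≠ 0 := by positivity
  obtain ⟨k, l, hk1, hk2, hl1, hl2, hkl, hF⟩ := hmax ι _ _ hcfg i j
    (by simp) (by simp)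
    (by show (s j - s i) / μ ^ 2 = 1
        rw [hμ2, ← hg]; exact div_self hg0.ne')
    (by show ((s j - s i) * X + b j - b i) / μ = 0
        rw [← hg, hX]; simp)
    (by
      intro k l hk1 hk2 hl1 hl2 hkl heq
      have hk := hmem k hk1 hk2
      have hl := hmem l hl1 hl2
      have h1 := hsep k hk l hl hkl
      have h2 : s k - s i = s l - s i := by
        have : (s k - s i) / μ ^ 2 = (s l - s i) / μ ^ 2 := heq
        field_simp at this
        exact this
      have h3 : s k - s l = 0 := by linarith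
      rw [h3, abs_zero] at h1
      norm_num at h1)
    (by
      intro k hk2 hk1
      have hk1' : 0 < (s k - s i) / μ ^ 2 ∧ (s k - s i) / μ ^ 2 < 1 := hk1
      have hk := hmem k (by rw [abs_of_pos hk1'.1]; linarith [hk1'.2]) hk2
      apply hbet k hk
      rw [hμ2] at hk1'
      constructor
      · have := (div_pos_iff_of_pos_right hg0).1 hk1'.1
        linarith
      · have := (div_lt_one hg0).1 hk1'.2
        rw [hg] at this
        linarith)
  have hkL := hmem k hk1 hk2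
  have hlL := hmem l hl1 hl2
  have hks := hsk k hk1
  have hls := hsk l hl1
  have hkl' : s k < s l := by
    have h1 : (s k - s i) / μ ^ 2 < (s l - s i) / μ ^ 2 := hkl
    rw [div_lt_div_iff_of_pos_right (by positivity)] at h1
    linarith
  have hF' : s l * (X + 1 / μ) + b l < s k * (X + 1 / μ) + b k := by
    have h1 : (s l - s i) / μ ^ 2 + ((s l - s i) * X + b l - b i) / μ <
      (s k - s i) / μ ^ 2 + ((s k - s i) * X + b k - b i) / μ := hF
    have e : ∀ m, (s m - s i) / μ ^ 2 + ((s m - s i) * X + b m - b i) / μ =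
      (1 / μ) * ((s m * (X + 1 / μ) + b m) - (s i * (X + 1 / μ) + b i)) := by
      intro m; field_simp; ring
    rw [e l, e k] at h1
    have h2 : 0 < 1 / μ := by positivity
    have h3 := lt_of_mul_lt_mul_left h1 h2.le
    linarith
  obtain ⟨p, q, hpq, h1, h2, h3⟩ := cons_between L s (fun m => s m * (X + 1 / μ) + b m)
    (by
      intro a ha c hc hac heq
      have := hsep a ha c hc hac
      rw [heq, sub_self, abs_zero] at this
      norm_num at this) k l hkL hlL hkl' hF'.le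
  refine ⟨p, q, hpq, ?_, ?_, ?_⟩
  · have h5 := abs_le.1 hks
    have h6 := abs_le.1 hls
    have h7 := hpq.2.2.1
    rw [abs_le]
    constructor <;> linarith [h5.1, h5.2, h6.1, h6.2]
  · have h5 := abs_le.1 hks
    have h6 := abs_le.1 hls
    have h7 := hpq.2.2.1
    rw [abs_le]
    constructor <;> linarith [h5.1, h5.2, h6.1, h6.2]
  · have h7 : 0 < s q - s p := by linarith [hpq.2.2.1]
    have h8 : s q * (X + 1 / μ) + b q ≤ s p * (X + 1 / μ) + b p := h3
    show X + 1 / μ ≤ (b p - b q) / (s q - s p)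
    rw [le_div_iff₀ h7]
    linarith

theorem geo_p3 {M : ℝ} (hM : 1 ≤ M) {ι : Type} [Fintype ι] {s b : ι → ℝ} {Z : ℝ}
    (h : Cfg s b Z M) (L : Finset ι) (R Tm B : ℝ) (hR : 1 ≤ R) (hTm : Tm = R * (1 + 128 * M))
    (hB1 : 1024 * R ^ 2 ≤ B)
    (hBZ : 18 * Tm * B ≤ Z) (hL : ∀ k, k ∈ L ↔ |s k| ≤ Tm ∧ |b k| ≤ B)
    (hclo : ∀ k, |s k| ≤ Tm → |b k| ≤ 18 * Tm * B → |b k| ≤ B)
    (hsep : ∀ i ∈ L, ∀ j ∈ L, i ≠ j → 1 / 4 ≤ |s i - s j|) (i j : ι) (hi : i ∈ L) (hj : j ∈ L)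
    (hij : s i < s j) (hiR : |s i| ≤ R) (t : ℝ) (ht : 128 * M ≤ t)
    (htR : (s j - s i) * t ^ 2 ≤ 2 * R) (F : Finset ι)
    (hF : ∀ k ∈ L, |s k - s i| ≤ 64 * M * ((s j - s i) * t ^ 2) →
      |s k * cr s b i j + b k - (s i * cr s b i j + b i)| ≤ 3 * √(s j - s i) * t ^ 3 → k ∈ F) :
    t ^ 2 / (32 * M) ≤ F.card := by
  classical
  have hg : (1 : ℝ) / 4 ≤ s j - s i := by
    have := hsep i hi j hj (by rintro rfl; exact lt_irrefl _ hij)
    rw [abs_sub_comm, abs_of_pos (by linarith)] at this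
    exact this
  obtain ⟨g, hgdef⟩ : ∃ g, g = s j - s i := ⟨_, rfl⟩
  rw [← hgdef] at hg htR hF
  have hg0 : 0 < g := by linarith
  obtain ⟨μ, hμdef⟩ : ∃ μ, μ = √g := ⟨_, rfl⟩
  rw [← hμdef] at hF
  have hμ0 : 0 < μ := by rw [hμdef]; exact Real.sqrt_pos.2 hg0
  have hμ2 : μ ^ 2 = g := by rw [hμdef]; exact Real.sq_sqrt hg0.le
  have hμh : 1 / 2 ≤ μ := by
    by_contra hc
    push Not at hc
    nlinarith
  obtain ⟨X, hX⟩ : ∃ X, X = cr s b i j := ⟨_, rfl⟩
  rw [← hX] at hF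
  have hXe : g * X = b i - b j := by
    rw [hX, cr, ← hgdef]; exact mul_div_cancel₀ _ hg0.ne'
  obtain ⟨hsi, hbi⟩ := (hL i).1 hi
  obtain ⟨hsj, hbj⟩ := (hL j).1 hj
  have hTmR : R ≤ Tm := by
    rw [hTm]
    exact le_mul_of_one_le_right (by linarith) (by linarith)
  have hTm1 : 1 ≤ Tm := by linarith
  have hB0 : 1 ≤ B := by
    have : 1 * 1 ≤ R * R := mul_le_mul hR hR zero_le_one (by linarith)
    have e : R ^ 2 = R * R := by ring
    rw [e] at hB1
    linarith
  have ht1 : 128 ≤ t := by linarith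
  have ht8 : t ^ 2 ≤ 8 * R := by nlinarith [sq_nonneg t]
  have ht8' : t ≤ 8 * R := by nlinarith
  have ht3 : t ^ 3 ≤ 64 * R ^ 2 := by
    have e : t ^ 3 = t * t ^ 2 := by ring
    rw [e]
    calc t * t ^ 2 ≤ (8 * R) * (8 * R) := by gcongr
      _ = 64 * R ^ 2 := by ring
  have ht30 : 0 ≤ t ^ 3 := by positivity
  have hZ'B : 16 * t ^ 3 ≤ B := by linarith
  have hXB : |X| ≤ 8 * B := by
    have h1 : |g * X| ≤ 2 * B := by
      rw [hXe]
      calc |b i - b j| ≤ |b i| + |b j| := abs_sub _ _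
        _ ≤ 2 * B := by linarith
    rw [abs_mul, abs_of_pos hg0] at h1
    have h2 := abs_nonneg X
    have h3 : 1 / 4 * |X| ≤ g * |X| := mul_le_mul_of_nonneg_right hg h2
    linarith
  have hgT : g ≤ 2 * Tm := by
    rw [hgdef]
    have h1 := abs_le.1 hsi
    have h2 := abs_le.1 hsj
    linarith [h1.1, h2.2]
  have hμT : μ ≤ 2 * Tm := by
    by_contra hc
    push Not at hc
    have h1 : 1 < μ := by linarith
    have h2 : μ * 1 < μ * μ := mul_lt_mul_of_pos_left h1 hμ0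
    have h3 : μ * μ = g := by rw [← hμ2]; ring
    linarith
  have hTB : B ≤ Tm * B := le_mul_of_one_le_left (by linarith) hTm1
  have hZP : 18 * (Tm * B) ≤ Z := by
    have e : 18 * (Tm * B) = 18 * Tm * B := by ring
    rw [e]; exact hBZ
  have hcfg := h.transform X (s i) (b i) μ (16 * t ^ 3) hμ0 (by
    intro x y hx hy
    have hxμ : |x / μ| ≤ 2 * B := by
      rw [abs_div, abs_of_pos hμ0, div_le_iff₀ hμ0]
      have e1 : |x| ≤ B := hx.trans hZ'B
      have e2 : B * 1 ≤ B * (2 * μ) := by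
        apply mul_le_mul_of_nonneg_left _ (by linarith)
        linarith
      calc |x| ≤ B * 1 := by rw [mul_one]; exact e1
        _ ≤ B * (2 * μ) := e2
        _ = 2 * B * μ := by ring
    have hXx : |X + x / μ| ≤ 10 * B := by
      calc |X + x / μ| ≤ |X| + |x / μ| := abs_add_le _ _
        _ ≤ 10 * B := by linarith
    refine ⟨by linarith, ?_⟩
    have h1 : |s i * (X + x / μ)| ≤ 10 * (Tm * B) := by
      have e : 10 * (Tm * B) = Tm * (10 * B) := by ring
      rw [e, abs_mul]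
      exact mul_le_mul hsi hXx (abs_nonneg _) (by linarith)
    have h2 : |μ * y| ≤ 2 * (Tm * B) := by
      have e : 2 * (Tm * B) = 2 * Tm * B := by ring
      rw [e, abs_mul, abs_of_pos hμ0]
      exact mul_le_mul hμT (hy.trans hZ'B) (abs_nonneg _) (by linarith)
    calc |s i * (X + x / μ) + b i + μ * y| ≤ |s i * (X + x / μ) + b i| + |μ * y| := abs_add_le _ _
      _ ≤ |s i * (X + x / μ)| + |b i| + |μ * y| := by gcongr; exact abs_add_le _ _
      _ ≤ Z := by linarith)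
  have hP := P3N hM hcfg i j (by simp) (by simp)
    (by rw [hμ2, ← hgdef]; exact div_self hg0.ne')
    (by
      have : (s j - s i) * X + b j - b i = 0 := by rw [← hgdef, hXe]; ring
      rw [this]; simp) ht le_rfl
  refine hP.trans ?_
  norm_cast
  refine Finset.card_le_card ?_
  intro k hk
  rw [Finset.mem_filter] at hk
  obtain ⟨-, h1, h2⟩ := hk
  rw [hμ2, abs_div, abs_of_pos hg0, div_le_iff₀ hg0] at h1
  rw [abs_div, abs_of_pos hμ0, div_le_iff₀ hμ0] at h2
  have h1' : |s k - s i| ≤ 64 * M * (g * t ^ 2) := by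
    calc |s k - s i| ≤ 64 * M * t ^ 2 * g := h1
      _ = _ := by ring
  have h1'' : |s k - s i| ≤ 128 * M * R := by
    calc |s k - s i| ≤ 64 * M * (g * t ^ 2) := h1'
      _ ≤ 64 * M * (2 * R) := by gcongr
      _ = _ := by ring
  have hsk : |s k| ≤ Tm := by
    have : s k = (s k - s i) + s i := by ring
    rw [this]
    calc |s k - s i + s i| ≤ |s k - s i| + |s i| := abs_add_le _ _
      _ ≤ 128 * M * R + R := by linarith
      _ = Tm := by rw [hTm]; ring
  have hsub : |s k - s i| ≤ 2 * Tm := by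
    calc |s k - s i| ≤ |s k| + |s i| := abs_sub _ _
      _ ≤ 2 * Tm := by linarith
  have h2' : |(s k - s i) * X + b k - b i| ≤ 3 * μ * t ^ 3 := by
    calc |(s k - s i) * X + b k - b i| ≤ 3 * t ^ 3 * μ := h2
      _ = _ := by ring
  have h3 : |(s k - s i) * X| ≤ 16 * (Tm * B) := by
    have e : 16 * (Tm * B) = 2 * Tm * (8 * B) := by ring
    rw [e, abs_mul]
    exact mul_le_mul hsub hXB (abs_nonneg _) (by linarith)
  have h4 : 3 * μ * t ^ 3 ≤ Tm * B := by
    have : 3 * μ * t ^ 3 ≤ 3 * (2 * Tm) * (B / 16) := by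
      have : t ^ 3 ≤ B / 16 := by linarith
      gcongr
    have e : 3 * (2 * Tm) * (B / 16) = 6 / 16 * (Tm * B) := by ring
    rw [e] at this
    linarith
  have hbk : |b k| ≤ 18 * Tm * B := by
    have e0 : 18 * Tm * B = 18 * (Tm * B) := by ring
    rw [e0]
    have e : b k = ((s k - s i) * X + b k - b i) - (s k - s i) * X + b i := by ring
    rw [e]
    calc |((s k - s i) * X + b k - b i) - (s k - s i) * X + b i|
        ≤ |((s k - s i) * X + b k - b i) - (s k - s i) * X| + |b i| := abs_add_le _ _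
      _ ≤ |(s k - s i) * X + b k - b i| + |(s k - s i) * X| + |b i| := by
          gcongr; exact abs_sub _ _
      _ ≤ 18 * (Tm * B) := by linarith
  have hkL : k ∈ L := (hL k).2 ⟨hsk, hclo k hsk hbk⟩
  refine hF k hkL h1' ?_
  have e : s k * X + b k - (s i * X + b i) = (s k - s i) * X + b k - b i := by ring
  rw [e]; exact h2'

theorem geo (M : ℝ) (hM : 1 ≤ M) : ∃ T : ℝ, 1 ≤ T ∧ ∀ R : ℝ, 1 ≤ R → ∃ Z : ℝ, 1 ≤ Z ∧
    ∀ (ι : Type) [Fintype ι] (s b : ι → ℝ), Cfg s b Z M →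
      (∀ i j, i ≠ j → |s i| ≤ Z → |s j| ≤ Z → |b i| ≤ Z → |b j| ≤ Z → 1 / 4 ≤ |s i - s j|) →
      (∃ i j, s i = 0 ∧ b i = 0 ∧ b j = 0 ∧ 1 ≤ s j ∧ s j ≤ 2) →
      ∃ L : Finset ι, Good L s b M T R := by
  classical
  obtain ⟨T, H0, Z0, hT, hH0, hZ0, hmax⟩ := MaxP_exists M hM
  refine ⟨T, hT, fun R hR => ?_⟩
  have hR2 : 1 ≤ R ^ 2 := one_le_pow₀ hR
  obtain ⟨Tm, hTm⟩ : ∃ Tm : ℝ, Tm = R * (1 + 128 * M) := ⟨_, rfl⟩
  have hTm1 : R + 128 ≤ Tm := by
    rw [hTm]
    nlinarith [mul_nonneg (sub_nonneg.2 hR) (sub_nonneg.2 hM)]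
  obtain ⟨A, hA⟩ : ∃ A : ℝ, A = 2 * H0 + Z0 + 1024 * R ^ 2 + Tm := ⟨_, rfl⟩
  obtain ⟨Z, hAZ, hZ⟩ := closure Tm A (18 * Tm) (by linarith) (by linarith) (by linarith)
  refine ⟨Z, by linarith, ?_⟩
  intro ι _ s b hcfg hs hV
  obtain ⟨B, hAB, hBZ, hclo⟩ := hZ ι s b (fun i j hij h1 h2 h3 h4 =>
    hs i j hij (by linarith) (by linarith) h3 h4)
  have hB0 : 1 ≤ B := by linarith
  have hBZ' : B ≤ Z := by nlinarith
  have hL : ∀ k, k ∈ (Finset.univ.filter fun k => |s k| ≤ Tm ∧ |b k| ≤ B) ↔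
      |s k| ≤ Tm ∧ |b k| ≤ B := by
    intro k
    simp
  have hsep : ∀ i ∈ (Finset.univ.filter fun k => |s k| ≤ Tm ∧ |b k| ≤ B),
      ∀ j ∈ (Finset.univ.filter fun k => |s k| ≤ Tm ∧ |b k| ≤ B), i ≠ j →
        1 / 4 ≤ |s i - s j| := by
    intro i hi j hj hij
    rw [hL] at hi hj
    exact hs i j hij (by linarith) (by linarith) (by linarith) (by linarith)
  refine ⟨Finset.univ.filter fun k => |s k| ≤ Tm ∧ |b k| ≤ B, hsep, ?_, ?_, ?_⟩
  · obtain ⟨i, j, h1, h2, h3, h4, h5⟩ := hV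
    refine ⟨i, (hL i).2 ⟨?_, ?_⟩, j, (hL j).2 ⟨?_, ?_⟩, h1, h2, h3, h4, h5⟩
    · rw [h1, abs_zero]; linarith
    · rw [h2, abs_zero]; linarith
    · rw [abs_of_nonneg (by linarith)]; linarith
    · rw [h3, abs_zero]; linarith
  · intro i j hc hiR
    exact geo_max hT hH0 hZ0 hmax hcfg _ Tm B (by linarith) (by linarith) (by linarith) hBZ hL
      hclo hsep i j hc (by linarith)
  · intro i hi j hj hij hiR t ht htR F hF
    exact geo_p3 hM hcfg _ R Tm B hR hTm (by linarith) hBZ hL hclo hsep i j hi hj hij hiR t ht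
      htR F hF

end Pool.Agent.Helper734.FT
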