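import Pool.Agent.Helper734.FT.Basic

set_option autoImplicit false

open MeasureTheory Set

namespace Pool.Agent.Helper734.FT

/-- Lines of moderate slope and height. -/
def WL {ι : Type} (s b : ι → ℝ) (T H : ℝ) (k : ι) : Prop := |s k| ≤ T ∧ |b k| ≤ H + T * H

/-- Working hypotheses for the local argument (to be contradicted). -/
structure MX {ι : Type} (s b : ι → ℝ) (i0 i1 : ι) (M Z T H : ℝ) : Prop where
  cfg : Cfg s b Z M
  s0 : s i0 = 0
  b0 : b i0 = 0
  s1 : s i1 = 1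
  b1 : b i1 = 0
  dist : ∀ k l, WL s b T H k → WL s b T H l → k ≠ l → s k ≠ s l
  gap : ∀ k, WL s b T H k → ¬ (0 < s k ∧ s k < 1)
  ord : ∀ k l, WL s b T H k → WL s b T H l → s k < s l → s k + b k ≤ s l + b l

theorem MX.exists_steep {ι : Type} {s b : ι → ℝ} {i0 i1 : ι} {M Z T H : ℝ}
    (h : MX s b i0 i1 M Z T H) (hM : 1 ≤ M) (hT : 1 ≤ T) (hHZ : H ≤ Z) {ξ Λ : ℝ} (hξ : 1 ≤ ξ)
    (hΛ : 0 < Λ) (hA : M < ξ * Λ) (hH : ξ + Λ ≤ H) :
    ∃ (k : ι) (x y : ℝ), T < |s k| ∧ y = s k * x + b k ∧ ξ < x ∧ x < ξ + Λ ∧ 0 < y ∧ y < ξ := by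
  have hξ0 : 0 < ξ := by linarith
  have hH0 : 0 ≤ H := by linarith
  have hTH : 0 ≤ T * H := by positivity
  have hex : ∃ k, ∃ z ∈ Ioo ξ (ξ + Λ) ×ˢ Ioo (0 : ℝ) ξ, z.2 = s k * z.1 + b k := by
    by_contra hcon
    push Not at hcon
    have h1 := h.cfg.U (Ioo ξ (ξ + Λ) ×ˢ Ioo (0 : ℝ) ξ) (isOpen_Ioo.prod isOpen_Ioo)
      ((convex_Ioo _ _).prod (convex_Ioo _ _)) ?_ hcon
    · rw [Measure.volume_eq_prod, Measure.prod_prod, Real.volume_Ioo, Real.volume_Ioo,
        ← ENNReal.ofReal_mul (by linarith)] at h1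
      have h2 := (ENNReal.ofReal_le_ofReal_iff (by linarith)).1 h1
      have h3 : (ξ + Λ - ξ) * (ξ - 0) = ξ * Λ := by ring
      rw [h3] at h2
      linarith
    · rintro ⟨x, y⟩ hz
      simp only [mem_prod, mem_Ioo] at hz
      obtain ⟨⟨h2, h3⟩, h4, h5⟩ := hz
      refine ⟨?_, ?_⟩
      · simp only
        rw [abs_le]; constructor <;> linarith
      · simp only
        rw [abs_le]; constructor <;> linarith
  obtain ⟨k, ⟨x, y⟩, hz, hy⟩ := hex
  simp only [mem_prod, mem_Ioo] at hz hy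
  obtain ⟨⟨h2, h3⟩, h4, h5⟩ := hz
  refine ⟨k, x, y, ?_, hy, h2, h3, h4, h5⟩
  by_contra hcon
  rw [not_lt] at hcon
  have hw0 : WL s b T H i0 := by
    refine ⟨?_, ?_⟩
    · rw [h.s0, abs_zero]; linarith
    · rw [h.b0, abs_zero]; linarith
  have hw1 : WL s b T H i1 := by
    refine ⟨?_, ?_⟩
    · rw [h.s1, abs_one]; linarith
    · rw [h.b1, abs_zero]; linarith
  have hwk : WL s b T H k := by
    refine ⟨hcon, ?_⟩
    have e1 : b k = y - s k * x := by linarith
    rw [e1]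
    have h6 : |s k * x| ≤ T * H := by
      rw [abs_mul]
      have : |x| ≤ H := by rw [abs_le]; constructor <;> linarith
      exact mul_le_mul hcon this (abs_nonneg _) (by linarith)
    have h7 : |y| ≤ H := by rw [abs_le]; constructor <;> linarith
    exact (abs_sub _ _).trans (by linarith)
  have hx1 : 1 < x := by linarith
  rcases lt_trichotomy (s k) 0 with h6 | h6 | h6
  · have h7 := h.ord k i0 hwk hw0 (by rw [h.s0]; exact h6)
    rw [h.s0, h.b0] at h7
    nlinarith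
  · have h8 : k = i0 := by
      by_contra h9
      exact h.dist k i0 hwk hw0 h9 (by rw [h6, h.s0])
    rw [h8, h.s0, h.b0] at hy
    linarith
  · rcases lt_trichotomy (s k) 1 with h7 | h7 | h7
    · exact h.gap k hwk ⟨h6, h7⟩
    · have h8 : k = i1 := by
        by_contra h9
        exact h.dist k i1 hwk hw1 h9 (by rw [h7, h.s1])
      rw [h8, h.s1, h.b1] at hy
      linarith
    · have h8 := h.ord i1 k hw1 hwk (by rw [h.s1]; exact h7)
      rw [h.s1, h.b1] at h8
      nlinarith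

theorem mem_reg4 {ι : Type} {s b : ι → ℝ} (j l k k' : ι) (p q r t : ℝ) (z : ℝ × ℝ) :
    z ∈ reg s b ![j, l, k, k'] ![p, q, r, t] ↔
      0 < p * (z.2 - s j * z.1 - b j) ∧ 0 < q * (z.2 - s l * z.1 - b l) ∧
      0 < r * (z.2 - s k * z.1 - b k) ∧ 0 < t * (z.2 - s k' * z.1 - b k') := by
  unfold reg
  constructor
  · intro h
    exact ⟨h 0, h 1, h 2, h 3⟩
  · rintro ⟨h0, h1, h2, h3⟩ m
    fin_cases m
    · exact h0
    · exact h1
    · exact h2
    · exact h3

set_option maxHeartbeats 1000000 in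
theorem MX.gap_lower {ι : Type} {s b : ι → ℝ} {i0 i1 : ι} {M Z T H : ℝ}
    (h : MX s b i0 i1 M Z T H) (hM : 1 ≤ M) {ξ : ℝ} (hξ : 8 * M ≤ ξ) (hT : 32 * H * ξ ≤ T * M)
    (hH : ξ + 2 ≤ H) (hZ : 16 * H ≤ Z) {j l : ι} (hj : WL s b T H j) (hl : WL s b T H l)
    (h0 : 0 ≤ s j) (hjl : s j < s l) (htop : s l * (ξ + 1) + b l ≤ H) :
    ξ / (8 * M) ≤ (s l * (ξ + 1) + b l) - (s j * (ξ + 1) + b j) := by
  have hξ8 : 8 ≤ ξ := by linarith
  have hξp : 0 < ξ := by linarith
  have hMp : 0 < M := by linarith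
  have hHp : 0 < H := by linarith
  set L : ℝ := 2 * M / ξ with hL
  have hLp : 0 < L := by positivity
  have hLξ : L * ξ = 2 * M := by rw [hL]; field_simp
  have hL4 : L ≤ 1 / 4 := by
    rw [hL, div_le_iff₀ hξp]; linarith
  -- T * L ≥ 64 * H
  have hTL : 64 * H ≤ T * L := by
    have h1 : 32 * H * ξ * (2 / ξ) ≤ T * M * (2 / ξ) := by
      apply mul_le_mul_of_nonneg_right hT (by positivity)
    have e1 : 32 * H * ξ * (2 / ξ) = 64 * H := by field_simp; ring
    have e2 : T * M * (2 / ξ) = T * L := by rw [hL]; ring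
    linarith
  have hTp : 0 < T := by
    by_contra hcon
    have : T * L ≤ 0 := mul_nonpos_of_nonpos_of_nonneg (not_lt.1 hcon) hLp.le
    linarith
  have hT256 : 256 * H ≤ T := by
    have := mul_le_mul_of_nonneg_left hL4 hTp.le
    linarith
  have hT1 : 1 ≤ T := by linarith
  obtain ⟨k, x, y, hk, hyk, hx1, hx2, hy1, hy2⟩ :=
    h.exists_steep hM hT1 (by linarith) (ξ := ξ) (Λ := L) (by linarith) hLp
      (by linarith [mul_comm L ξ]) (by linarith)
  obtain ⟨k', x', y', hk', hyk', hx1', hx2', hy1', hy2'⟩ :=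
    h.exists_steep hM hT1 (by linarith) (ξ := ξ + 2 * L) (Λ := L) (by linarith) hLp
      (by
        have e : (ξ + 2 * L) * L = L * ξ + 2 * (L * L) := by ring
        have := mul_pos hLp hLp
        linarith) (by linarith)
  -- inverse slopes
  have hsk : s k ≠ 0 := by intro h0; rw [h0, abs_zero] at hk; linarith
  have hsk' : s k' ≠ 0 := by intro h0; rw [h0, abs_zero] at hk'; linarith
  have hu : |1 / s k| ≤ 1 / T := by
    rw [abs_div, abs_one]
    exact one_div_le_one_div_of_le hTp hk.le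
  have hu' : |1 / s k'| ≤ 1 / T := by
    rw [abs_div, abs_one]
    exact one_div_le_one_div_of_le hTp hk'.le
  have hHT : H / T ≤ L / 64 := by
    rw [div_le_div_iff₀ hTp (by norm_num)]; linarith
  have hmul : ∀ u v : ℝ, |u| ≤ 1 / T → |u * v| ≤ |v| / T := by
    intro u v hu
    rw [abs_mul]
    calc |u| * |v| ≤ 1 / T * |v| := mul_le_mul_of_nonneg_right hu (abs_nonneg _)
      _ = |v| / T := by ring
  -- x-intercepts
  set xk : ℝ := x - 1 / s k * y with hxk
  set xk' : ℝ := x' - 1 / s k' * y' with hxk'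
  have hbk : 1 / s k * b k = - xk := by
    have : b k = y - s k * x := by linarith
    rw [this, hxk]; field_simp; ring
  have hbk' : 1 / s k' * b k' = - xk' := by
    have : b k' = y' - s k' * x' := by linarith
    rw [this, hxk']; field_simp; ring
  have hdy : |1 / s k * y| ≤ L / 64 := by
    refine (hmul _ y hu).trans (le_trans ?_ hHT)
    rw [abs_of_pos hy1]; gcongr; linarith
  have hdy' : |1 / s k' * y'| ≤ L / 64 := by
    refine (hmul _ y' hu').trans (le_trans ?_ hHT)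
    rw [abs_of_pos hy1']; gcongr; linarith
  rw [abs_le] at hdy hdy'
  have hxk1 : ξ - L / 64 < xk := by rw [hxk]; linarith
  have hxk2 : xk < ξ + L + L / 64 := by rw [hxk]; linarith
  have hxk1' : ξ + 2 * L - L / 64 < xk' := by rw [hxk']; linarith
  have hxk2' : xk' < ξ + 3 * L + L / 64 := by rw [hxk']; linarith
  -- order facts
  have hW0 : WL s b T H i0 := by
    refine ⟨?_, ?_⟩
    · rw [h.s0, abs_zero]; exact hTp.le
    · rw [h.b0, abs_zero]; positivity
  have hsj : 0 ≤ s j + b j := by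
    rcases h0.eq_or_lt with h1 | h1
    · have : j = i0 := by
        by_contra hne
        exact h.dist j i0 hj hW0 hne (by rw [h.s0]; exact h1.symm)
      rw [this, h.s0, h.b0]; norm_num
    · have := h.ord i0 j hW0 hj (by rw [h.s0]; exact h1)
      rw [h.s0, h.b0] at this; linarith
  have hslp : 0 < s l := by linarith
  have hsl : 0 ≤ s l + b l := by
    have := h.ord i0 l hW0 hl (by rw [h.s0]; exact hslp)
    rw [h.s0, h.b0] at this; linarith
  have hord := h.ord j l hj hl hjl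
  have hslξ : s l * ξ ≤ H := by
    have e : s l * (ξ + 1) + b l = s l * ξ + (s l + b l) := by ring
    linarith
  have hsl8 : s l ≤ H / 8 := by
    rw [le_div_iff₀ (by norm_num)]
    have := mul_le_mul_of_nonneg_left hξ8 hslp.le
    linarith
  have hjx : 0 ≤ s j * (ξ + 1) + b j := by
    have e : s j * (ξ + 1) + b j = s j * ξ + (s j + b j) := by ring
    have := mul_nonneg h0 hξp.le
    linarith
  -- the window estimate
  have hreg : ∀ z ∈ reg s b ![j, l, k, k'] ![1, -1, -(1 / s k), 1 / s k'],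
      s j * z.1 + b j < z.2 ∧ z.2 < s l * z.1 + b l ∧ xk + 1 / s k * z.2 < z.1 ∧
      z.1 < xk' + 1 / s k' * z.2 := by
    intro z hz
    rw [mem_reg4] at hz
    obtain ⟨h1, h2, h3, h4⟩ := hz
    refine ⟨by linarith, by linarith, ?_, ?_⟩
    · have e : -(1 / s k) * (z.2 - s k * z.1 - b k) = z.1 - 1 / s k * z.2 + 1 / s k * b k := by
        field_simp; ring
      rw [e, hbk] at h3; linarith
    · have e : 1 / s k' * (z.2 - s k' * z.1 - b k') = 1 / s k' * z.2 - z.1 - 1 / s k' * b k' := by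
        field_simp
      rw [e, hbk'] at h4; linarith
  have hwin : ∀ z ∈ reg s b ![j, l, k, k'] ![1, -1, -(1 / s k), 1 / s k'],
      |z.2| ≤ 2 * H ∧ ξ - L / 2 < z.1 ∧ z.1 < ξ + 7 / 2 * L := by
    intro z hz
    obtain ⟨h1, h2, h3, h4⟩ := hreg z hz
    have m1 := abs_le.1 (hmul _ z.2 hu)
    have m2 := abs_le.1 (hmul _ z.2 hu')
    have hyT0 : 0 ≤ |z.2| / T := by positivity
    have hτ1 : -(2 + |z.2| / T) ≤ z.1 - (ξ + 1) := by linarith
    have hτ2 : z.1 - (ξ + 1) ≤ 2 + |z.2| / T := by linarith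
    have hup : z.2 ≤ H + s l * (2 + |z.2| / T) := by
      have : s l * z.1 + b l = (s l * (ξ + 1) + b l) + s l * (z.1 - (ξ + 1)) := by ring
      have h5 : s l * (z.1 - (ξ + 1)) ≤ s l * (2 + |z.2| / T) :=
        mul_le_mul_of_nonneg_left hτ2 hslp.le
      linarith
    have hlo : - (H + s l * (2 + |z.2| / T)) ≤ z.2 := by
      have : s j * z.1 + b j = (s j * (ξ + 1) + b j) + s j * (z.1 - (ξ + 1)) := by ring
      have h5 : s j * (-(2 + |z.2| / T)) ≤ s j * (z.1 - (ξ + 1)) :=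
        mul_le_mul_of_nonneg_left hτ1 h0
      have h6 : s j * (2 + |z.2| / T) ≤ s l * (2 + |z.2| / T) :=
        mul_le_mul_of_nonneg_right hjl.le (by linarith)
      linarith
    have habs : |z.2| ≤ H + s l * (2 + |z.2| / T) := abs_le.2 ⟨hlo, hup⟩
    have h7 : s l * (|z.2| / T) ≤ |z.2| / 2048 := by
      have h8 : s l * (|z.2| / T) ≤ H / 8 * (|z.2| / T) :=
        mul_le_mul_of_nonneg_right hsl8 hyT0
      have h9 : H / 8 * (|z.2| / T) ≤ |z.2| / 2048 := by
        rw [div_mul_div_comm, div_le_div_iff₀ (by positivity) (by norm_num)]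
        have h10 : |z.2| * (256 * H) ≤ |z.2| * T :=
          mul_le_mul_of_nonneg_left hT256 (abs_nonneg _)
        have e : |z.2| * (8 * T) = 8 * (|z.2| * T) := by ring
        have e2 : H * |z.2| * 2048 = 8 * (|z.2| * (256 * H)) := by ring
        rw [e, e2]; linarith
      linarith
    have hy2 : |z.2| ≤ 2 * H := by
      have : s l * (2 + |z.2| / T) = 2 * s l + s l * (|z.2| / T) := by ring
      linarith [abs_nonneg z.2]
    have hyT : |z.2| / T ≤ L / 32 := by
      have : |z.2| / T ≤ 2 * H / T := by gcongr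
      have e : 2 * H / T = 2 * (H / T) := by ring
      linarith
    exact ⟨hy2, by linarith, by linarith⟩
  have hne : (reg s b ![j, l, k, k'] ![1, -1, -(1 / s k), 1 / s k']).Nonempty := by
    set xm : ℝ := (xk + xk') / 2 with hxm
    set ym : ℝ := ((s j * xm + b j) + (s l * xm + b l)) / 2 with hym
    have hxm1 : ξ ≤ xm := by rw [hxm]; linarith
    have hxm2 : xm ≤ ξ + 1 := by rw [hxm]; linarith
    have hlo : 0 ≤ s j * xm + b j := by
      have e : s j * xm + b j = s j * (xm - 1) + (s j + b j) := by ring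
      have := mul_nonneg h0 (show 0 ≤ xm - 1 by linarith)
      linarith
    have hlo2 : s j * xm + b j < s l * xm + b l := by
      have e : s l * xm + b l - (s j * xm + b j) =
        (s l - s j) * (xm - 1) + ((s l + b l) - (s j + b j)) := by ring
      have := mul_pos (show 0 < s l - s j by linarith) (show 0 < xm - 1 by linarith)
      linarith
    have hup : s l * xm + b l ≤ H := by
      have := mul_le_mul_of_nonneg_left hxm2 hslp.le
      linarith
    have hym0 : 0 ≤ ym := by rw [hym]; linarith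
    have hymH : ym ≤ H := by rw [hym]; linarith
    have m1 : |1 / s k * ym| ≤ L / 64 := by
      refine (hmul _ ym hu).trans (le_trans ?_ hHT)
      rw [abs_of_nonneg hym0]; gcongr
    have m2 : |1 / s k' * ym| ≤ L / 64 := by
      refine (hmul _ ym hu').trans (le_trans ?_ hHT)
      rw [abs_of_nonneg hym0]; gcongr
    rw [abs_le] at m1 m2
    refine ⟨(xm, ym), ?_⟩
    rw [mem_reg4]
    refine ⟨?_, ?_, ?_, ?_⟩
    · simp only; linarith
    · simp only; linarith
    · have e : -(1 / s k) * (ym - s k * xm - b k) = xm - 1 / s k * ym + 1 / s k * b k := by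
        field_simp; ring
      simp only
      rw [e, hbk]; linarith
    · have e : 1 / s k' * (ym - s k' * xm - b k') = 1 / s k' * ym - xm - 1 / s k' * b k' := by
        field_simp
      simp only
      rw [e, hbk']; linarith
  have hvol := h.cfg.T 4 _ _ hne (by
    intro z hz
    obtain ⟨h1, h2, h3⟩ := hwin z hz
    refine ⟨?_, by linarith⟩
    rw [abs_le]; constructor <;> linarith)
  -- the area bound
  set g : ℝ := (s l * (ξ + 1) + b l) - (s j * (ξ + 1) + b j) with hg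
  have hg0 : 0 ≤ g := by
    have e : g = (s l - s j) * ξ + ((s l + b l) - (s j + b j)) := by rw [hg]; ring
    have := mul_pos (show 0 < s l - s j by linarith) hξp
    linarith
  have hsub : reg s b ![j, l, k, k'] ![1, -1, -(1 / s k), 1 / s k'] ⊆
      {z : ℝ × ℝ | ξ - L / 2 < z.1 ∧ z.1 < ξ + 7 / 2 * L ∧ b j + s j * z.1 < z.2 ∧
        z.2 < b j + s j * z.1 + g} := by
    intro z hz
    obtain ⟨h1, h2, h3⟩ := hwin z hz
    obtain ⟨h4, h5, h6, h7⟩ := hreg z hz
    refine ⟨h2, h3, by linarith, ?_⟩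
    have hz1 : z.1 ≤ ξ + 1 := by linarith
    have e : g = (s l * z.1 + b l) - (s j * z.1 + b j) + (s l - s j) * (ξ + 1 - z.1) := by
      rw [hg]; ring
    have := mul_nonneg (show 0 ≤ s l - s j by linarith) (show 0 ≤ ξ + 1 - z.1 by linarith)
    linarith
  have hvol2 := hvol.trans (measure_mono hsub)
  rw [vol_par_v _ _ _ _ _ (by linarith) hg0] at hvol2
  have h1 : 1 ≤ (ξ + 7 / 2 * L - (ξ - L / 2)) * g := by
    have : ENNReal.ofReal 1 ≤ ENNReal.ofReal ((ξ + 7 / 2 * L - (ξ - L / 2)) * g) := by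
      rwa [ENNReal.ofReal_one]
    rcases (ENNReal.ofReal_le_ofReal_iff' ).1 this with h | h
    · exact h
    · norm_num at h
  have h2 : 1 ≤ 4 * L * g := by linarith
  rw [div_le_iff₀ (by positivity)]
  have h3 : 4 * L * g * ξ = 8 * M * g := by
    have : 4 * L * g * ξ = 4 * g * (L * ξ) := by ring
    rw [this, hLξ]; ring
  have h4 : 1 * ξ ≤ 4 * L * g * ξ := mul_le_mul_of_nonneg_right h2 hξp.le
  linarith

theorem om_open (c1 c2 d1 d2 : ℝ) :
    IsOpen {z : ℝ × ℝ | 2 < z.1 ∧ z.1 < 3 ∧ c1 * z.1 + d1 < z.2 ∧ z.2 < c2 * z.1 + d2} := by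
  have e : {z : ℝ × ℝ | 2 < z.1 ∧ z.1 < 3 ∧ c1 * z.1 + d1 < z.2 ∧ z.2 < c2 * z.1 + d2} =
      {z : ℝ × ℝ | 2 < z.1} ∩ ({z : ℝ × ℝ | z.1 < 3} ∩ ({z : ℝ × ℝ | c1 * z.1 + d1 < z.2} ∩
        {z : ℝ × ℝ | z.2 < c2 * z.1 + d2})) := by
    ext z; rfl
  rw [e]
  refine IsOpen.inter (isOpen_lt (by fun_prop) (by fun_prop)) (IsOpen.inter
    (isOpen_lt (by fun_prop) (by fun_prop)) (IsOpen.inter (isOpen_lt (by fun_prop) (by fun_prop))
    (isOpen_lt (by fun_prop) (by fun_prop))))

theorem om_convex (c1 c2 d1 d2 : ℝ) :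
    Convex ℝ {z : ℝ × ℝ | 2 < z.1 ∧ z.1 < 3 ∧ c1 * z.1 + d1 < z.2 ∧ z.2 < c2 * z.1 + d2} := by
  rintro ⟨x, y⟩ ⟨h1, h2, h3, h4⟩ ⟨x', y'⟩ ⟨h1', h2', h3', h4'⟩ a c ha hc hac
  simp only at h1 h2 h3 h4 h1' h2' h3' h4'
  simp only [mem_ofPred_eq, Prod.smul_mk, Prod.mk_add_mk, smul_eq_mul]
  have key : ∀ u v : ℝ, 0 < u → 0 < v → 0 < a * u + c * v := by
    intro u v hu hv
    rcases ha.eq_or_lt with h | h
    · rw [← h] at hac ⊢
      have : c = 1 := by linarith
      rw [this]; linarith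
    · positivity
  have k1 := key (x - 2) (x' - 2) (by linarith) (by linarith)
  have k2 := key (3 - x) (3 - x') (by linarith) (by linarith)
  have k3 := key (y - (c1 * x + d1)) (y' - (c1 * x' + d1)) (by linarith) (by linarith)
  have k4 := key (c2 * x + d2 - y) (c2 * x' + d2 - y') (by linarith) (by linarith)
  have e2 : a * 2 + c * 2 = 2 := by linear_combination 2 * hac
  have e3 : a * 3 + c * 3 = 3 := by linear_combination 3 * hac
  have e4 : a * d1 + c * d1 = d1 := by linear_combination d1 * hac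
  have e5 : a * d2 + c * d2 = d2 := by linear_combination d2 * hac
  refine ⟨?_, ?_, ?_, ?_⟩
  · nlinarith
  · nlinarith
  · nlinarith
  · nlinarith

theorem MX.gap_upper {ι : Type} [Fintype ι] {s b : ι → ℝ} {i0 i1 : ι} {M Z T H : ℝ}
    (h : MX s b i0 i1 M Z T H) (hM : 1 ≤ M) (hT : H ≤ T) (hH : 4 ≤ H) (hZ : 64 ≤ Z) (hHZ : H ≤ Z)
    {j l : ι} (hj : WL s b T H j) (hl : WL s b T H l)
    (h0 : 0 ≤ s j) (hjl : s j < s l) (hadj : ∀ k, WL s b T H k → ¬ (s j < s k ∧ s k < s l))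
    (htop : s l * 3 + b l ≤ H) :
    (s l * 2 + b l) - (s j * 2 + b j) ≤ 2 ^ 258 * M := by
  classical
  have hT0 : 0 < T := by linarith
  have hi0 : WL s b T H i0 := by
    refine ⟨?_, ?_⟩
    · rw [h.s0, abs_zero]; exact hT0.le
    · rw [h.b0, abs_zero]; positivity
  have hsb : 0 ≤ s j + b j := by
    rcases h0.eq_or_lt with he | hlt
    · by_cases hji : j = i0
      · subst hji; rw [h.s0, h.b0]; simp
      · exfalso
        apply h.dist j i0 hj hi0 hji
        rw [h.s0, ← he]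
    · have := h.ord i0 j hi0 hj (by rw [h.s0]; exact hlt)
      rwa [h.s0, h.b0, add_zero] at this
  have hsl : s j + b j ≤ s l + b l := h.ord j l hj hl hjl
  set Ω : Set (ℝ × ℝ) := {z : ℝ × ℝ | 2 < z.1 ∧ z.1 < 3 ∧ s j * z.1 + b j < z.2 ∧
    z.2 < s l * z.1 + b l} with hΩ
  have hbd : ∀ z ∈ Ω, |z.1| ≤ 3 ∧ |z.2| ≤ H := by
    rintro ⟨x, y⟩ ⟨h1, h2, h3, h4⟩
    simp only at h1 h2 h3 h4 ⊢
    constructor
    · rw [abs_le]; constructor <;> linarith
    · rw [abs_le]
      constructor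
      · nlinarith
      · nlinarith
  have hwin : Ω ⊆ win Z := by
    intro z hz
    obtain ⟨h1, h2⟩ := hbd z hz
    exact ⟨by linarith, by linarith⟩
  set F : Finset ι := Finset.univ.filter (fun k => 2 ≤ |s k| ∧ |b k| ≤ 4 * |s k|) with hF
  have hcard : (F.card : ℝ) ≤ 258 := by
    have := P2count h.cfg i0 i1 h.s0 h.b0 h.s1 h.b1 (w := 4) (by norm_num) (by linarith)
    refine this.trans ?_
    norm_num
  have hcard' : F.card ≤ 258 := by exact_mod_cast hcard
  have hFΩ : ∀ k, k ∉ F → ∀ z ∈ Ω, z.2 ≠ s k * z.1 + b k := by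
    intro k hk z hz heq
    apply hk
    obtain ⟨b1, b2⟩ := hbd z hz
    obtain ⟨h1, h2, h3, h4⟩ := hz
    have hnW : ¬ WL s b T H k := by
      intro hW
      rcases lt_trichotomy (s k) (s j) with hlt | he | hgt
      · have := h.ord k j hW hj hlt
        nlinarith
      · by_cases hkj : k = j
        · subst hkj; linarith
        · exact h.dist k j hW hj hkj he
      · rcases lt_trichotomy (s k) (s l) with hlt' | he' | hgt'
        · exact hadj k hW ⟨hgt, hlt'⟩
        · by_cases hkl : k = l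
          · subst hkl; linarith
          · exact h.dist k l hW hl hkl he'
        · have := h.ord l k hl hW hgt'
          nlinarith
    have hbk : |b k| ≤ H + 3 * |s k| := by
      have : b k = z.2 - s k * z.1 := by linarith
      rw [this]
      calc |z.2 - s k * z.1| ≤ |z.2| + |s k * z.1| := abs_sub _ _
        _ = |z.2| + |s k| * |z.1| := by rw [abs_mul]
        _ ≤ H + |s k| * 3 := by gcongr
        _ = _ := by ring
    have hTk : T < |s k| := by
      by_contra hle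
      push Not at hle
      apply hnW
      refine ⟨hle, hbk.trans ?_⟩
      nlinarith
    rw [hF, Finset.mem_filter]
    refine ⟨Finset.mem_univ _, by linarith, by linarith⟩
  have hvol := split h.cfg F Ω (om_open _ _ _ _) (om_convex _ _ _ _) hwin hFΩ
  set g : ℝ := (s l * 2 + b l) - (s j * 2 + b j) with hg
  have hg0 : 0 ≤ g := by rw [hg]; linarith
  have hlow := vol_par_v 2 3 (b j) (s j) g (by norm_num) hg0
  have hsub : {z : ℝ × ℝ | 2 < z.1 ∧ z.1 < 3 ∧ b j + s j * z.1 < z.2 ∧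
      z.2 < b j + s j * z.1 + g} ⊆ Ω := by
    rintro ⟨x, y⟩ ⟨h1, h2, h3, h4⟩
    simp only at h1 h2 h3 h4
    refine ⟨h1, h2, by simp only; linarith, ?_⟩
    simp only
    nlinarith
  have h5 : ENNReal.ofReal g ≤ ENNReal.ofReal (2 ^ 258 * M) := by
    have e1 : (3 - 2 : ℝ) * g = g := by ring
    rw [e1] at hlow
    rw [← hlow]
    refine (measure_mono hsub).trans (hvol.trans ?_)
    rw [ENNReal.ofReal_mul (by positivity), ENNReal.ofReal_pow (by norm_num)]
    have e2 : ENNReal.ofReal (2 : ℝ) = 2 := by simp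
    rw [e2]
    gcongr
    · norm_num
  exact (ENNReal.ofReal_le_ofReal_iff (by positivity)).mp h5

theorem MX.slope_claim {ι : Type} [Fintype ι] {s b : ι → ℝ} {i0 i1 : ι} {M Z T H : ℝ}
    (h : MX s b i0 i1 M Z T H) (hM : 1 ≤ M) {ξ : ℝ} (hξ : 2 * (2 ^ 258 * M) ≤ ξ / (8 * M))
    (hT : 32 * H * ξ ≤ T * M) (hH : ξ + 2 ≤ H) (hZ : 16 * H ≤ Z)
    {l : ι} (hl : WL s b T H l) (h0 : 0 ≤ s l) (hh : s l * 2 + b l ≤ H / 2) :
    s l * 2 + b l ≤ ξ * s l := by
  classical
  have gu := @MX.gap_upper ι _ s b i0 i1 M Z T H h hM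
  obtain ⟨A, hA⟩ : ∃ A : ℝ, A = 2 ^ 258 * M := ⟨_, rfl⟩
  have hA1 : 1 ≤ A := by
    have : (1 : ℝ) ≤ 2 ^ 258 := one_le_pow₀ (by norm_num)
    rw [hA]
    exact one_le_mul_of_one_le_of_one_le this hM
  rw [← hA] at hξ
  simp only [← hA] at gu
  clear hA
  have hM0 : 0 < M := by linarith
  have hξ8 : 8 * M ≤ ξ := by
    rw [le_div_iff₀ (by positivity)] at hξ
    refine le_trans ?_ hξ
    exact le_mul_of_one_le_left (by positivity) (by linarith)
  have hξ8' : 8 ≤ ξ := by linarith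
  have hH0 : 0 < H := by linarith
  have hHT : H ≤ T := by
    have h1 : 32 * H * (8 * M) ≤ T * M := by
      refine le_trans ?_ hT
      gcongr
    have h2 : (256 * H) * M ≤ T * M := by linarith
    have h3 := le_of_mul_le_mul_right h2 hM0
    linarith
  have hT0 : 0 < T := by linarith
  have hw0 : WL s b T H i0 := by
    constructor
    · rw [h.s0, abs_zero]; exact hT0.le
    · rw [h.b0, abs_zero]; positivity
  induction hn : (Finset.univ.filter (fun k => WL s b T H k ∧ s k < s l)).card using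
    Nat.strong_induction_on generalizing l with
  | _ n ih =>
    rcases eq_or_lt_of_le h0 with hz | hpos
    · have : l = i0 := by
        by_contra hne
        apply h.dist l i0 hl hw0 hne
        rw [h.s0, ← hz]
      rw [this, h.s0, h.b0]
      simp
    · by_cases htop : H < s l * (ξ + 1) + b l
      · nlinarith
      · push Not at htop
        set C : Finset ι := Finset.univ.filter (fun k => WL s b T H k ∧ 0 ≤ s k ∧ s k < s l) with hC
        have hCne : C.Nonempty := ⟨i0, by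
          rw [hC, Finset.mem_filter]
          exact ⟨Finset.mem_univ _, hw0, by rw [h.s0], by rw [h.s0]; exact hpos⟩⟩
        obtain ⟨j, hjC, hjmax⟩ := Finset.exists_max_image C s hCne
        rw [hC, Finset.mem_filter] at hjC
        obtain ⟨-, hj, hj0, hjl⟩ := hjC
        have hadj : ∀ k, WL s b T H k → ¬ (s j < s k ∧ s k < s l) := by
          rintro k hk ⟨hk1, hk2⟩
          have := hjmax k (by
            rw [hC, Finset.mem_filter]
            exact ⟨Finset.mem_univ _, hk, by linarith, hk2⟩)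
          linarith
        have g1 := h.gap_lower hM hξ8 hT hH hZ hj hl hj0 hjl htop
        have g2 := gu hHT (by linarith) (by linarith) (by linarith) hj hl hj0 hjl hadj
          (by nlinarith)
        have ho := h.ord j l hj hl hjl
        have hlt : (Finset.univ.filter (fun k => WL s b T H k ∧ s k < s j)).card < n := by
          rw [← hn]
          apply Finset.card_lt_card
          rw [Finset.ssubset_iff_of_subset]
          · refine ⟨j, ?_, ?_⟩
            · rw [Finset.mem_filter]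
              exact ⟨Finset.mem_univ _, hj, hjl⟩
            · rw [Finset.mem_filter]
              rintro ⟨-, -, hh⟩
              exact lt_irrefl _ hh
          · intro k hk
            rw [Finset.mem_filter] at hk ⊢
            exact ⟨hk.1, hk.2.1, hk.2.2.trans hjl⟩
        have hind := ih _ hlt hj hj0 (by linarith) rfl
        have e1 : (s l - s j) * (ξ - 1) = ((s l * (ξ + 1) + b l) - (s j * (ξ + 1) + b j)) -
          ((s l * 2 + b l) - (s j * 2 + b j)) := by ring
        have e2 : (s l * 2 + b l) - (s j * 2 + b j) ≤ (s l - s j) * (ξ - 1) := by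
          rw [e1]
          linarith
        nlinarith

/-- every line meeting the box above the vertex crosses the base line steeply and not far away -/
theorem MX.box_lines {ι : Type} [Fintype ι] {s b : ι → ℝ} {i0 i1 : ι} {M Z T H : ℝ}
    (h : MX s b i0 i1 M Z T H) (hM : 1 ≤ M) {ξ Y : ℝ} (hξ : 2 * (2 ^ 258 * M) ≤ ξ / (8 * M))
    (hT : 32 * H * ξ ≤ T * M) (hY : 4 + 2 * ξ ≤ Y) (hH : 10 * Y ≤ H) (hZ : 16 * H ≤ Z)
    (k : ι) (x y : ℝ) (hx : |x| ≤ 1) (hy1 : Y ≤ y) (hy2 : y ≤ 2 * Y) (hk : y = s k * x + b k) :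
    2 ≤ |s k| ∧ |b k| ≤ (5 + 2 * ξ) * |s k| := by
  have hM0 : 0 < M := by linarith
  have hp : (1 : ℝ) ≤ 2 ^ 258 := one_le_pow₀ (by norm_num)
  have hξ1 : M ≤ ξ := by
    obtain ⟨P, hP⟩ : ∃ P : ℝ, P = 2 ^ 258 := ⟨_, rfl⟩
    rw [← hP] at hξ hp
    rw [le_div_iff₀ (by positivity)] at hξ
    have h1 : M ≤ 2 * (P * M) * (8 * M) := by
      have h2 : M ≤ M * M := by nlinarith
      have h3 : M * M ≤ P * (M * M) := le_mul_of_one_le_left (by positivity) hp
      have e : 2 * (P * M) * (8 * M) = 16 * (P * (M * M)) := by ring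
      rw [e]
      linarith
    linarith
  have hξ0 : 0 < ξ := by linarith
  have hY0 : 4 < Y := by linarith
  have hH0 : 40 < H := by linarith
  have hTH : 32 * H ≤ T := by
    by_contra hcon
    push Not at hcon
    have h1 : T * M < 32 * H * M := mul_lt_mul_of_pos_right hcon hM0
    have h2 : 32 * H * M ≤ 32 * H * ξ := mul_le_mul_of_nonneg_left hξ1 (by linarith)
    linarith
  have hT0 : 0 < T := by linarith
  have hTH0 : 0 < T * H := by positivity
  have hTT : T ≤ T * H := by nlinarith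
  have hW0 : WL s b T H i0 := by
    unfold WL
    rw [h.s0, h.b0, abs_zero]
    constructor <;> linarith
  obtain ⟨hx1, hx2⟩ := abs_le.1 hx
  have hbk : b k = y - s k * x := by linarith
  have hsx : |s k * x| ≤ |s k| := by
    rw [abs_mul]
    have := abs_nonneg (s k)
    nlinarith
  have hb1 : |b k| ≤ 2 * Y + |s k| := by
    rw [hbk]
    have h1 := abs_sub y (s k * x)
    have h2 : |y| ≤ 2 * Y := by rw [abs_of_pos (by linarith)]; exact hy2
    linarith
  by_cases hW : WL s b T H k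
  · rcases lt_trichotomy (s k) 0 with hs | hs | hs
    · have h1 := h.ord k i0 hW hW0 (by rw [h.s0]; exact hs)
      rw [h.s0, h.b0] at h1
      have h2 : |s k| = -s k := abs_of_neg hs
      rw [h2]
      rw [h2] at hb1
      have h3 : y ≤ 2 * (-s k) := by nlinarith
      constructor
      · linarith
      · nlinarith
    · exfalso
      by_cases hk0 : k = i0
      · rw [hk0, h.s0, h.b0] at hk
        linarith
      · exact h.dist k i0 hW hW0 hk0 (by rw [h.s0]; exact hs)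
    · have h2 : |s k| = s k := abs_of_pos hs
      rw [h2]
      rw [h2] at hb1
      have h3 : s k * 2 + b k = y + s k * (2 - x) := by rw [hbk]; ring
      have h4 : 0 ≤ s k * (2 - x) := mul_nonneg hs.le (by linarith)
      rcases le_or_gt (s k * 2 + b k) (H / 2) with h5 | h5
      · have h6 := h.slope_claim hM hξ hT (by linarith) hZ hW hs.le h5
        have h7 : Y ≤ ξ * s k := by linarith
        constructor
        · by_contra hcon
          push Not at hcon
          have : ξ * s k < ξ * 2 := mul_lt_mul_of_pos_left hcon hξ0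
          linarith
        · nlinarith
      · have h6 : s k * (2 - x) ≤ s k * 3 := mul_le_mul_of_nonneg_left (by linarith) hs.le
        have h7 : Y < s k := by linarith
        constructor
        · linarith
        · nlinarith
  · have hsT : T < |s k| := by
      by_contra hcon
      push Not at hcon
      apply hW
      refine ⟨hcon, ?_⟩
      linarith
    constructor
    · linarith
    · have h1 : |b k| ≤ 2 * |s k| := by linarith
      have h2 : 0 < |s k| := by linarith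
      nlinarith

theorem MX.false {ι : Type} [Fintype ι] {s b : ι → ℝ} {i0 i1 : ι} {M Z T H : ℝ}
    (h : MX s b i0 i1 M Z T H) (hM : 1 ≤ M) {ξ Y : ℝ} (hξ : 2 * (2 ^ 258 * M) ≤ ξ / (8 * M))
    (hT : 32 * H * ξ ≤ T * M) (hY : 4 + 2 * ξ ≤ Y) (hH : 10 * Y ≤ H) (hZ : 16 * H ≤ Z)
    (n : ℕ) (hn : 16 * (5 + 2 * ξ) ^ 2 + 2 ≤ n) (hYn : 2 ^ n * M < 2 * Y) : False := by
  classical
  have hM0 : 0 < M := by linarith
  have hξ0 : 0 < ξ := by
    have h1 : 0 < 2 * (2 ^ 258 * M) := by positivity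
    have h2 : 0 < ξ / (8 * M) := lt_of_lt_of_le h1 hξ
    by_contra hcon
    push Not at hcon
    have : ξ / (8 * M) ≤ 0 := div_nonpos_of_nonpos_of_nonneg hcon (by positivity)
    exact absurd h2 (not_lt.2 this)
  have hY0 : 4 < Y := by linarith
  obtain ⟨Ω, hΩ⟩ : ∃ Ω : Set (ℝ × ℝ), Ω = Ioo (-1 : ℝ) 1 ×ˢ Ioo Y (2 * Y) := ⟨_, rfl⟩
  have hmem : ∀ z ∈ Ω, |z.1| ≤ 1 ∧ Y ≤ z.2 ∧ z.2 ≤ 2 * Y := by
    intro z hz
    rw [hΩ] at hz
    obtain ⟨⟨a1, a2⟩, a3, a4⟩ := hz
    exact ⟨abs_le.2 ⟨a1.le, a2.le⟩, a3.le, a4.le⟩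
  obtain ⟨F, hF⟩ : ∃ F : Finset ι, F = Finset.univ.filter
    (fun k => 2 ≤ |s k| ∧ |b k| ≤ (5 + 2 * ξ) * |s k|) := ⟨_, rfl⟩
  have hcard : (F.card : ℝ) ≤ 16 * (5 + 2 * ξ) ^ 2 + 2 := by
    rw [hF]
    have := P2count h.cfg i0 i1 h.s0 h.b0 h.s1 h.b1 (w := 5 + 2 * ξ) (by linarith) (by linarith)
    convert this using 3
  have hcn : F.card ≤ n := by
    have : (F.card : ℝ) ≤ n := hcard.trans hn
    exact_mod_cast this
  have hvol := split h.cfg F Ω (by rw [hΩ]; exact isOpen_Ioo.prod isOpen_Ioo)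
    (by rw [hΩ]; exact (convex_Ioo _ _).prod (convex_Ioo _ _))
    (by
      intro z hz
      obtain ⟨a1, a2, a3⟩ := hmem z hz
      refine ⟨by linarith, ?_⟩
      rw [abs_le]
      constructor <;> linarith)
    (by
      intro i hi z hz heq
      obtain ⟨a1, a2, a3⟩ := hmem z hz
      apply hi
      rw [hF, Finset.mem_filter]
      exact ⟨Finset.mem_univ _, h.box_lines hM hξ hT hY hH hZ i z.1 z.2 a1 a2 a3 heq⟩)
  have hv : volume Ω = ENNReal.ofReal (2 * Y) := by
    rw [hΩ, Measure.volume_eq_prod, Measure.prod_prod, Real.volume_Ioo, Real.volume_Ioo,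
      ← ENNReal.ofReal_mul (by norm_num)]
    congr 1
    ring
  have h2 : (2 : ENNReal) ^ F.card * ENNReal.ofReal M ≤ ENNReal.ofReal (2 ^ n * M) := by
    rw [ENNReal.ofReal_mul (by positivity), ENNReal.ofReal_pow (by norm_num)]
    have e : ENNReal.ofReal 2 = 2 := by simp
    rw [e]
    gcongr
    norm_num
  rw [hv] at hvol
  have h3 := hvol.trans h2
  rw [ENNReal.ofReal_le_ofReal_iff (by positivity)] at h3
  linarith

/-- The conclusion of the local theorem, for given constants. -/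
def MaxP (M T H0 Z0 : ℝ) : Prop :=
    ∀ (ι : Type) [Fintype ι] (s b : ι → ℝ), Cfg s b Z0 M → ∀ i0 i1 : ι,
      s i0 = 0 → b i0 = 0 → s i1 = 1 → b i1 = 0 →
      (∀ k l, |s k| ≤ T → |b k| ≤ H0 → |s l| ≤ T → |b l| ≤ H0 → k ≠ l → s k ≠ s l) →
      (∀ k, |b k| ≤ H0 → ¬ (0 < s k ∧ s k < 1)) →
      ∃ k l, |s k| ≤ T ∧ |b k| ≤ H0 ∧ |s l| ≤ T ∧ |b l| ≤ H0 ∧ s k < s l ∧
        s l + b l < s k + b k

theorem MaxP_exists (M : ℝ) (hM : 1 ≤ M) :
    ∃ T H0 Z0 : ℝ, 1 ≤ T ∧ 1 ≤ H0 ∧ 1 ≤ Z0 ∧ MaxP M T H0 Z0 := by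
  have hfalse : ∀ {ι : Type} [Fintype ι] {s b : ι → ℝ} {i0 i1 : ι} {Z T H : ℝ},
      MX s b i0 i1 M Z T H → ∀ {ξ Y : ℝ}, 2 * (2 ^ 258 * M) ≤ ξ / (8 * M) →
      32 * H * ξ ≤ T * M → 4 + 2 * ξ ≤ Y → 10 * Y ≤ H → 16 * H ≤ Z →
      ∀ n : ℕ, 16 * (5 + 2 * ξ) ^ 2 + 2 ≤ n → 2 ^ n * M < 2 * Y → False := by
    intro ι _ s b i0 i1 Z T H h ξ Y h1 h2 h3 h4 h5 n h6 h7
    exact h.false hM h1 h2 h3 h4 h5 n h6 h7
  have hC1 : (1 : ℝ) ≤ 2 ^ 258 := one_le_pow₀ one_le_two
  generalize (2 : ℝ) ^ 258 = C at hfalse hC1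
  have hMpos : 0 < M := by linarith
  obtain ⟨ξ, hξ⟩ : ∃ ξ : ℝ, ξ = 16 * M * (C * M) := ⟨_, rfl⟩
  have hξ1 : 2 * (C * M) ≤ ξ / (8 * M) := by
    rw [hξ, le_div_iff₀ (by positivity)]
    nlinarith
  have hCM : 1 ≤ C * M := by nlinarith
  have hξ16 : 16 ≤ ξ := by
    rw [hξ]
    nlinarith
  obtain ⟨n, hn⟩ := exists_nat_ge (16 * (5 + 2 * ξ) ^ 2 + 2)
  obtain ⟨Y, hY⟩ : ∃ Y : ℝ, Y = 2 ^ n * M + 4 + 2 * ξ := ⟨_, rfl⟩
  have hpow : 0 < (2 : ℝ) ^ n * M := by positivity
  have hY1 : 4 + 2 * ξ ≤ Y := by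
    rw [hY]
    linarith
  have hY2 : 2 ^ n * M < 2 * Y := by
    rw [hY]
    linarith
  obtain ⟨H, hH⟩ : ∃ H : ℝ, H = 10 * Y := ⟨_, rfl⟩
  have hH40 : 40 ≤ H := by
    rw [hH]
    linarith
  obtain ⟨T, hT⟩ : ∃ T : ℝ, T = 32 * H * ξ := ⟨_, rfl⟩
  have hT1 : 1 ≤ T := by
    rw [hT]
    nlinarith
  have hTH : 0 ≤ T * H := by positivity
  have hTM : 32 * H * ξ ≤ T * M := by
    rw [← hT]
    nlinarith
  refine ⟨T, H + T * H, 16 * H, hT1, by linarith, by linarith, ?_⟩
  intro ι _ s b hcfg i0 i1 h0 hb0 h1 hb1 hdist hgap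
  by_contra hcon
  push Not at hcon
  refine hfalse (i0 := i0) (i1 := i1) ⟨hcfg, h0, hb0, h1, hb1, ?_, ?_, ?_⟩ hξ1 hTM hY1 hH.ge
    le_rfl n hn hY2
  · intro k l hk hl hkl
    exact hdist k l hk.1 hk.2 hl.1 hl.2 hkl
  · intro k hk
    exact hgap k hk.2
  · intro k l hk hl hkl
    exact hcon k l hk.1 hk.2 hl.1 hl.2 hkl

end Pool.Agent.Helper734.FT
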