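import Pool.Agent.Helper734.FT.Defs

set_option autoImplicit false

open MeasureTheory Set

namespace Pool.Agent.Helper734.FT

/-- Cone cell in coordinates, intersected with the closed unit ball. -/
def cell3 {k : ℕ} (p q r : Fin k → ℝ) (σ : Fin k → ℤˣ) : Set (ℝ × ℝ × ℝ) :=
  {P | P.1 ^ 2 + P.2.1 ^ 2 + P.2.2 ^ 2 ≤ 1 ∧
    ∀ i, 0 < ((σ i : ℤ) : ℝ) * (p i * P.1 + q i * P.2.1 + r i * P.2.2)}

/-- Normal form of the family: unit vectors `(p i, q i, r i)`, a closest pair `i0, j0` placed in the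
plane `r = 0`, with `cs, sn` the cosine and sine of their angle. -/
structure NF {k : ℕ} (p q r : Fin k → ℝ) (i0 j0 : Fin k) (cs sn : ℝ) : Prop where
  unit : ∀ i, p i ^ 2 + q i ^ 2 + r i ^ 2 = 1
  det : ∀ i j l, i ≠ j → j ≠ l → i ≠ l →
    p i * (q j * r l - r j * q l) - q i * (p j * r l - r j * p l) + r i * (p j * q l - q j * p l) ≠ 0
  ne : i0 ≠ j0
  pi0 : p i0 = 0
  qi0 : q i0 = 1
  ri0 : r i0 = 0
  pj0 : p j0 = - sn
  qj0 : q j0 = cs
  rj0 : r j0 = 0
  hcs : 1 / 2 ≤ cs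
  hsn : 0 < sn
  sq : cs ^ 2 + sn ^ 2 = 1
  close : ∀ i j, i ≠ j → (p i * p j + q i * q j + r i * r j) ^ 2 ≤ cs ^ 2

/-! auxiliary lemmas for the target -/

abbrev E3 : Type := EuclideanSpace ℝ (Fin 3)

theorem nf_inner (x y : E3) : inner ℝ x y = x 0 * y 0 + x 1 * y 1 + x 2 * y 2 := by
  rw [PiLp.inner_apply, Fin.sum_univ_three]
  simp only [RCLike.inner_apply, conj_trivial]
  ring

theorem nf_close {k : ℕ} (hk : 9 ≤ k) (u : Fin k → E3) (hu : ∀ i, ‖u i‖ = 1) :
    ∃ i j, i ≠ j ∧ 1 / 4 ≤ (inner ℝ (u i) (u j)) ^ 2 := by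
  by_contra hcon
  push Not at hcon
  have hkR : (9:ℝ) ≤ k := by exact_mod_cast hk
  have h1 : ∑ i, ∑ j, (inner ℝ (u i) (u j) : ℝ) ^ 2 ≤ k + k * (k - 1) / 4 := by
    have h2 : ∀ i : Fin k, ∑ j, (inner ℝ (u i) (u j) : ℝ) ^ 2 ≤ 1 + ((k:ℝ) - 1) / 4 := by
      intro i
      rw [← Finset.add_sum_erase _ _ (Finset.mem_univ i)]
      have h3 : (inner ℝ (u i) (u i) : ℝ) = 1 := by
        rw [real_inner_self_eq_norm_sq, hu]; norm_num
      rw [h3]
      have h4 : ∑ j ∈ Finset.univ.erase i, (inner ℝ (u i) (u j) : ℝ) ^ 2 ≤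
          ∑ j ∈ Finset.univ.erase i, (1 / 4 : ℝ) := by
        apply Finset.sum_le_sum
        intro j hj
        exact (hcon i j (Finset.ne_of_mem_erase hj).symm).le
      rw [Finset.sum_const, Finset.card_erase_of_mem (Finset.mem_univ i), Finset.card_univ,
        Fintype.card_fin, nsmul_eq_mul, Nat.cast_sub (by omega)] at h4
      push_cast at h4
      linarith
    calc ∑ i, ∑ j, (inner ℝ (u i) (u j) : ℝ) ^ 2 ≤ ∑ i : Fin k, (1 + ((k:ℝ) - 1) / 4) :=
          Finset.sum_le_sum fun i _ => h2 i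
      _ = k + k * (k - 1) / 4 := by
          rw [Finset.sum_const, Finset.card_univ, Fintype.card_fin, nsmul_eq_mul]
          ring
  have h1' : (k:ℝ) ^ 2 / 3 ≤ ∑ i, ∑ j, (inner ℝ (u i) (u j) : ℝ) ^ 2 := by
    have h2 : ∑ i, ∑ j, (inner ℝ (u i) (u j) : ℝ) ^ 2 =
        (∑ i, u i 0 ^ 2) * (∑ i, u i 0 ^ 2) + (∑ i, u i 1 ^ 2) * (∑ i, u i 1 ^ 2) +
        (∑ i, u i 2 ^ 2) * (∑ i, u i 2 ^ 2) +
        ((∑ i, u i 0 * u i 1) * (∑ i, u i 0 * u i 1) +
          (∑ i, u i 0 * u i 1) * (∑ i, u i 0 * u i 1)) +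
        ((∑ i, u i 0 * u i 2) * (∑ i, u i 0 * u i 2) +
          (∑ i, u i 0 * u i 2) * (∑ i, u i 0 * u i 2)) +
        ((∑ i, u i 1 * u i 2) * (∑ i, u i 1 * u i 2) +
          (∑ i, u i 1 * u i 2) * (∑ i, u i 1 * u i 2)) := by
      simp only [Finset.sum_mul_sum, ← Finset.sum_add_distrib]
      apply Finset.sum_congr rfl
      intro i _
      apply Finset.sum_congr rfl
      intro j _
      rw [nf_inner]
      ring
    have h3 : (∑ i, u i 0 ^ 2) + (∑ i, u i 1 ^ 2) + (∑ i, u i 2 ^ 2) = k := by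
      rw [← Finset.sum_add_distrib, ← Finset.sum_add_distrib]
      have h4 : ∀ i, u i 0 ^ 2 + u i 1 ^ 2 + u i 2 ^ 2 = 1 := by
        intro i
        have h5 : (inner ℝ (u i) (u i) : ℝ) = 1 := by
          rw [real_inner_self_eq_norm_sq, hu]; norm_num
        rw [nf_inner] at h5
        linarith
      simp_rw [h4]
      simp
    rw [h2, ← h3]
    set a := ∑ i, u i 0 ^ 2
    set b := ∑ i, u i 1 ^ 2
    set c := ∑ i, u i 2 ^ 2
    set d := ∑ i, u i 0 * u i 1
    set e := ∑ i, u i 0 * u i 2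
    set f := ∑ i, u i 1 * u i 2
    nlinarith [sq_nonneg (a - b), sq_nonneg (a - c), sq_nonneg (b - c), sq_nonneg d, sq_nonneg e,
      sq_nonneg f]
  have h5 : (k:ℝ) ^ 2 / 3 ≤ k + k * (k - 1) / 4 := h1'.trans h1
  have h6 : (k:ℝ) ≤ 9 := by nlinarith
  -- equality case k = 9 needs strictness
  have hk9 : k = 9 := by
    have : k ≤ 9 := by exact_mod_cast h6
    omega
  -- strict version
  have h7 : ∑ i, ∑ j, (inner ℝ (u i) (u j) : ℝ) ^ 2 < k + k * (k - 1) / 4 := by
    have h2 : ∀ i : Fin k, ∑ j, (inner ℝ (u i) (u j) : ℝ) ^ 2 < 1 + ((k:ℝ) - 1) / 4 := by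
      intro i
      rw [← Finset.add_sum_erase _ _ (Finset.mem_univ i)]
      have h3 : (inner ℝ (u i) (u i) : ℝ) = 1 := by
        rw [real_inner_self_eq_norm_sq, hu]; norm_num
      rw [h3]
      have hne : (Finset.univ.erase i).Nonempty := by
        rw [← Finset.card_pos, Finset.card_erase_of_mem (Finset.mem_univ i), Finset.card_univ,
          Fintype.card_fin]
        omega
      have h4 : ∑ j ∈ Finset.univ.erase i, (inner ℝ (u i) (u j) : ℝ) ^ 2 <
          ∑ j ∈ Finset.univ.erase i, (1 / 4 : ℝ) := by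
        apply Finset.sum_lt_sum_of_nonempty hne
        intro j hj
        exact (hcon i j (Finset.ne_of_mem_erase hj).symm)
      rw [Finset.sum_const, Finset.card_erase_of_mem (Finset.mem_univ i), Finset.card_univ,
        Fintype.card_fin, nsmul_eq_mul, Nat.cast_sub (by omega)] at h4
      push_cast at h4
      linarith
    have hne : (Finset.univ : Finset (Fin k)).Nonempty := ⟨⟨0, by omega⟩, Finset.mem_univ _⟩
    calc ∑ i, ∑ j, (inner ℝ (u i) (u j) : ℝ) ^ 2 < ∑ i : Fin k, (1 + ((k:ℝ) - 1) / 4) :=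
          Finset.sum_lt_sum_of_nonempty hne fun i _ => h2 i
      _ = k + k * (k - 1) / 4 := by
          rw [Finset.sum_const, Finset.card_univ, Fintype.card_fin, nsmul_eq_mul]
          ring
  have h8 := h1'.trans_lt h7
  rw [hk9] at h8
  norm_num at h8

theorem nf_mp (B : OrthonormalBasis (Fin 3) ℝ E3) :
    MeasurePreserving (fun x : E3 => ((inner ℝ (B 0) x : ℝ), (inner ℝ (B 1) x : ℝ),
      (inner ℝ (B 2) x : ℝ))) volume volume := by
  have h1 := B.measurePreserving_repr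
  have h2 : MeasurePreserving (@WithLp.ofLp 2 (Fin 3 → ℝ)) := PiLp.volume_preserving_ofLp (Fin 3)
  have h3 := volume_preserving_piFinSuccAbove (n := 2) (fun _ : Fin 3 => ℝ) 0
  have h4 := volume_preserving_finTwoArrow ℝ
  have h5 : MeasurePreserving (Prod.map (id : ℝ → ℝ) (MeasurableEquiv.finTwoArrow (α := ℝ)))
      (volume.prod volume) (volume.prod volume) := (MeasurePreserving.id _).prod h4
  have h6 := h5.comp (h3.comp (h2.comp h1))
  refine ⟨?_, ?_⟩
  · fun_prop
  · have h7 := h6.map_eq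
    have e : (Prod.map (id : ℝ → ℝ) (MeasurableEquiv.finTwoArrow (α := ℝ))) ∘
        ((MeasurableEquiv.piFinSuccAbove (fun _ : Fin 3 => ℝ) 0) ∘
          ((@WithLp.ofLp 2 (Fin 3 → ℝ)) ∘ B.repr)) =
        (fun x : E3 => ((inner ℝ (B 0) x : ℝ), (inner ℝ (B 1) x : ℝ),
      (inner ℝ (B 2) x : ℝ))) := by
      funext x
      have e0 : B.repr x 0 = inner ℝ (B 0) x := B.repr_apply_apply x 0
      have e1 : B.repr x 1 = inner ℝ (B 1) x := B.repr_apply_apply x 1
      have e2 : B.repr x 2 = inner ℝ (B 2) x := B.repr_apply_apply x 2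
      rw [← e0, ← e1, ← e2]
      rfl
    rw [e] at h7
    exact h7

theorem nf_cell_meas {k : ℕ} (p q r : Fin k → ℝ) (σ : Fin k → ℤˣ) :
    MeasurableSet (cell3 p q r σ) := by
  unfold cell3
  apply MeasurableSet.inter
  · exact (isClosed_le (f := fun P : ℝ × ℝ × ℝ => P.1 ^ 2 + P.2.1 ^ 2 + P.2.2 ^ 2)
      (g := fun _ => (1:ℝ)) (by fun_prop) (by fun_prop)).measurableSet
  · have : {P : ℝ × ℝ × ℝ | ∀ i, 0 < ((σ i : ℤ) : ℝ) * (p i * P.1 + q i * P.2.1 + r i * P.2.2)} =
        ⋂ i, {P : ℝ × ℝ × ℝ | 0 < ((σ i : ℤ) : ℝ) * (p i * P.1 + q i * P.2.1 + r i * P.2.2)} := by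
      ext P
      simp
    have h2 : MeasurableSet {P : ℝ × ℝ × ℝ | ∀ i, 0 < ((σ i : ℤ) : ℝ) * (p i * P.1 + q i * P.2.1 + r i * P.2.2)} := by
      rw [this]
      apply MeasurableSet.iInter
      intro i
      exact (isOpen_lt (by fun_prop) (by fun_prop)).measurableSet
    exact h2

theorem nf_inner_B (B : OrthonormalBasis (Fin 3) ℝ E3) (x y : E3) :
    inner ℝ x y = inner ℝ (B 0) x * inner ℝ (B 0) y + inner ℝ (B 1) x * inner ℝ (B 1) y +
      inner ℝ (B 2) x * inner ℝ (B 2) y := by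
  rw [← B.sum_inner_mul_inner x y, Fin.sum_univ_three]
  simp only [real_inner_comm]

theorem nf_zero_B (B : OrthonormalBasis (Fin 3) ℝ E3) (x : E3) (h0 : inner ℝ (B 0) x = 0)
    (h1 : inner ℝ (B 1) x = 0) (h2 : inner ℝ (B 2) x = 0) : x = 0 := by
  have := nf_inner_B B x x
  rw [h0, h1, h2] at this
  simp only [mul_zero, add_zero] at this
  exact inner_self_eq_zero.1 this

theorem normal_form {k : ℕ} (hk : 9 ≤ k) (v : Fin k → EuclideanSpace ℝ (Fin 3))
    (hv : ∀ i j l : Fin k, i ≠ j → j ≠ l → i ≠ l → LinearIndependent ℝ ![v i, v j, v l]) :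
    ∃ (p q r : Fin k → ℝ) (i0 j0 : Fin k) (cs sn : ℝ), NF p q r i0 j0 cs sn ∧
      ∀ σ : Fin k → ℤˣ, ∃ τ : Fin k → ℤˣ,
        volume {x : EuclideanSpace ℝ (Fin 3) | ‖x‖ ≤ 1 ∧ ∀ i, 0 < ((τ i : ℤ) : ℝ) * inner ℝ (v i) x}
          = volume (cell3 p q r σ) := by
  classical
  -- a third index
  have hthird : ∀ i j : Fin k, ∃ l, i ≠ l ∧ j ≠ l := by
    intro i j
    have : (({i, j} : Finset (Fin k))ᶜ).Nonempty := by
      rw [← Finset.card_pos, Finset.card_compl, Fintype.card_fin]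
      have := Finset.card_le_two (a := i) (b := j)
      omega
    obtain ⟨l, hl⟩ := this
    rw [Finset.mem_compl, Finset.mem_insert, Finset.mem_singleton, not_or] at hl
    exact ⟨l, fun h => hl.1 h.symm, fun h => hl.2 h.symm⟩
  have hpair : ∀ i j : Fin k, i ≠ j → ∀ s t : ℝ, s • v i + t • v j = 0 → s = 0 ∧ t = 0 := by
    intro i j hij s t h
    obtain ⟨l, hl1, hl2⟩ := hthird i j
    have h1 := Fintype.linearIndependent_iff.1 (hv i j l hij hl2 hl1) ![s, t, 0] (by
      rw [Fin.sum_univ_three]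
      simpa using h)
    exact ⟨by simpa using h1 0, by simpa using h1 1⟩
  have hv0 : ∀ i, v i ≠ 0 := by
    intro i h
    obtain ⟨l, hl1, -⟩ := hthird i i
    have := hpair i l hl1 1 0 (by rw [h]; simp)
    exact one_ne_zero this.1
  have hvn : ∀ i, 0 < ‖v i‖ := fun i => norm_pos_iff.2 (hv0 i)
  obtain ⟨u, hu⟩ : ∃ u : Fin k → E3, ∀ i, u i = (‖v i‖)⁻¹ • v i := ⟨_, fun _ => rfl⟩
  have hun : ∀ i, ‖u i‖ = 1 := by
    intro i
    rw [hu]
    rw [norm_smul, norm_inv, norm_norm, inv_mul_cancel₀ (hvn i).ne']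
  obtain ⟨a0, b0, hab0, hab1⟩ := nf_close hk u hun
  -- the closest pair
  obtain ⟨⟨i0, j0⟩, hmem, hmax⟩ := Finset.exists_max_image
    ((Finset.univ : Finset (Fin k)).offDiag) (fun x => |(inner ℝ (u x.1) (u x.2) : ℝ)|)
    ⟨(a0, b0), by simp [Finset.mem_offDiag, hab0]⟩
  have hij0 : i0 ≠ j0 := by
    rw [Finset.mem_offDiag] at hmem
    exact hmem.2.2
  set κ : ℝ := inner ℝ (u i0) (u j0) with hκ
  have hmax' : ∀ i j, i ≠ j → |(inner ℝ (u i) (u j) : ℝ)| ≤ |κ| := by
    intro i j hij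
    exact hmax (i, j) (by simp [Finset.mem_offDiag, hij])
  set cs : ℝ := |κ| with hcs
  have hcs0 : 0 ≤ cs := abs_nonneg _
  have hcs2 : cs ^ 2 = κ ^ 2 := sq_abs _
  have hcsh : 1 / 2 ≤ cs := by
    have h1 := hmax' a0 b0 hab0
    have h2 : (1/2:ℝ) ≤ |(inner ℝ (u a0) (u b0) : ℝ)| := by
      apply abs_le_of_sq_le_sq' _ (abs_nonneg _) |>.2
      rw [sq_abs]
      norm_num
      linarith
    linarith
  have hcs1 : cs < 1 := by
    by_contra hge
    push Not at hge
    have h1 : (inner ℝ (u i0 - κ • u j0) (u i0 - κ • u j0) : ℝ) = 1 - κ ^ 2 := by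
      rw [inner_sub_left, inner_sub_right, inner_sub_right, real_inner_smul_left,
        real_inner_smul_left, real_inner_smul_right, real_inner_smul_right,
        real_inner_self_eq_norm_sq, real_inner_self_eq_norm_sq, hun, hun,
        real_inner_comm (u i0) (u j0), ← hκ]
      ring
    have h2 : (inner ℝ (u i0 - κ • u j0) (u i0 - κ • u j0) : ℝ) ≤ 0 := by
      rw [h1, ← hcs2]
      nlinarith
    have h3 : u i0 - κ • u j0 = 0 := by
      rw [← inner_self_eq_zero (𝕜 := ℝ)]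
      exact le_antisymm h2 real_inner_self_nonneg
    have h4 := hpair i0 j0 hij0 ((‖v i0‖)⁻¹) (-(κ * (‖v j0‖)⁻¹)) (by
      rw [hu, hu] at h3
      simp only [smul_smul] at h3
      rw [neg_smul, ← sub_eq_add_neg]
      exact h3)
    exact (inv_pos.2 (hvn i0)).ne' h4.1
  have hpos1 : 0 < 1 - cs ^ 2 := by nlinarith
  set sn : ℝ := √(1 - cs ^ 2) with hsn
  have hsn0 : 0 < sn := Real.sqrt_pos.2 hpos1
  have hsn2 : sn ^ 2 = 1 - cs ^ 2 := Real.sq_sqrt hpos1.le
  -- sign
  obtain ⟨η, hη⟩ : ∃ η : ℤˣ, ((η : ℤ) : ℝ) * κ = cs := by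
    rcases le_total 0 κ with h | h
    · exact ⟨1, by rw [hcs, abs_of_nonneg h]; simp⟩
    · exact ⟨-1, by rw [hcs, abs_of_nonpos h]; simp⟩
  have hη2 : ((η : ℤ) : ℝ) ^ 2 = 1 := by
    rcases Int.units_eq_one_or η with h | h <;> rw [h] <;> norm_num
  set ηr : ℝ := ((η : ℤ) : ℝ) with hηr
  have hηκ : ηr * cs = κ := by
    rw [← hη]
    linear_combination κ * hη2
  -- frame
  set e1 : E3 := (sn⁻¹) • (cs • u i0 - ηr • u j0) with he1
  have hii : (inner ℝ (u i0) (u i0) : ℝ) = 1 := by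
    rw [real_inner_self_eq_norm_sq, hun]; norm_num
  have hjj : (inner ℝ (u j0) (u j0) : ℝ) = 1 := by
    rw [real_inner_self_eq_norm_sq, hun]; norm_num
  have hji : (inner ℝ (u j0) (u i0) : ℝ) = κ := by
    rw [real_inner_comm]
  have he12 : (inner ℝ e1 (u i0) : ℝ) = 0 := by
    rw [he1, real_inner_smul_left, inner_sub_left, real_inner_smul_left, real_inner_smul_left,
      hii, hji, hη]
    ring
  have he11 : (inner ℝ e1 e1 : ℝ) = 1 := by
    have h1 : (inner ℝ e1 e1 : ℝ) = (sn⁻¹) ^ 2 * (cs ^ 2 - 2 * cs * (ηr * κ) + ηr ^ 2) := by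
      rw [he1, real_inner_smul_left, real_inner_smul_right, inner_sub_left, inner_sub_right,
        inner_sub_right, real_inner_smul_left, real_inner_smul_left, real_inner_smul_left,
        real_inner_smul_left, real_inner_smul_right, real_inner_smul_right,
        real_inner_smul_right, real_inner_smul_right, hii, hjj, hji, ← hκ]
      ring
    rw [h1, hη, hη2]
    have : cs ^ 2 - 2 * cs * cs + 1 = sn ^ 2 := by rw [hsn2]; ring
    rw [this, ← mul_pow, inv_mul_cancel₀ hsn0.ne', one_pow]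
  obtain ⟨B, hB⟩ := Orthonormal.exists_orthonormalBasis_extension_of_card_eq (𝕜 := ℝ) (E := E3)
    (ι := Fin 3) (by simp) (v := ![e1, u i0, 0]) (s := {0, 1}) (by
      rw [orthonormal_iff_ite]
      rintro ⟨i, hi⟩ ⟨j, hj⟩
      simp only [Set.domRestrict_apply]
      rcases hi with rfl | hi
      · rcases hj with rfl | hj
        · simpa using he11
        · rw [Set.mem_singleton_iff] at hj
          subst hj
          have hne : ((⟨0, by simp⟩ : ({0, 1} : Set (Fin 3))) = ⟨1, by simp⟩) ↔ False := by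
            rw [Subtype.mk_eq_mk]; decide
          rw [if_neg (fun h => hne.1 h)]
          simpa using he12
      · rw [Set.mem_singleton_iff] at hi
        subst hi
        rcases hj with rfl | hj
        · have : (inner ℝ (u i0) e1 : ℝ) = 0 := by rw [real_inner_comm]; exact he12
          have hne : ((⟨1, by simp⟩ : ({0, 1} : Set (Fin 3))) = ⟨0, by simp⟩) ↔ False := by
            rw [Subtype.mk_eq_mk]; decide
          rw [if_neg (fun h => hne.1 h)]
          simpa using this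
        · rw [Set.mem_singleton_iff] at hj
          subst hj
          simpa using hii)
  have hB0 : B 0 = e1 := by
    have := hB 0 (by simp)
    simpa using this
  have hB1 : B 1 = u i0 := by
    have := hB 1 (by simp)
    simpa using this
  have hBo : ∀ i j, (inner ℝ (B i) (B j) : ℝ) = if i = j then 1 else 0 := fun i j =>
    orthonormal_iff_ite.1 B.orthonormal i j
  obtain ⟨w, hw⟩ : ∃ w : Fin k → E3, ∀ i, w i = if i = j0 then ηr • u j0 else u i :=
    ⟨_, fun _ => rfl⟩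
  have hwi0 : w i0 = B 1 := by
    rw [hw, hB1]
    rw [if_neg hij0]
  have hwj0 : w j0 = cs • B 1 - sn • B 0 := by
    rw [hw, hB1, hB0, he1]
    rw [if_pos rfl, smul_smul, mul_inv_cancel₀ hsn0.ne', one_smul]
    abel
  have hww : ∀ i j, (inner ℝ (w i) (w j) : ℝ) ^ 2 = (inner ℝ (u i) (u j) : ℝ) ^ 2 := by
    intro i j
    have h1 : ∀ i, ∃ c : ℝ, c ^ 2 = 1 ∧ w i = c • u i := by
      intro i
      by_cases h : i = j0
      · refine ⟨ηr, hη2, ?_⟩
        rw [hw]
        rw [if_pos h, h]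
      · refine ⟨1, by norm_num, ?_⟩
        rw [hw]
        rw [if_neg h, one_smul]
    obtain ⟨c, hc, hc'⟩ := h1 i
    obtain ⟨d, hd, hd'⟩ := h1 j
    rw [hc', hd', real_inner_smul_left, real_inner_smul_right]
    calc (c * (d * inner ℝ (u i) (u j))) ^ 2 = c ^ 2 * d ^ 2 * (inner ℝ (u i) (u j) : ℝ) ^ 2 := by ring
      _ = _ := by rw [hc, hd]; ring
  -- w i is a nonzero multiple of v i
  have hwv : ∀ i, ∃ c : ℝ, c ≠ 0 ∧ w i = c • v i := by
    intro i
    by_cases h : i = j0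
    · refine ⟨ηr * (‖v i‖)⁻¹, ?_, ?_⟩
      · apply mul_ne_zero
        · intro h2
          rw [h2] at hη2
          norm_num at hη2
        · exact (inv_pos.2 (hvn i)).ne'
      · rw [hw]
        rw [if_pos h, h, hu, smul_smul]
    · refine ⟨(‖v i‖)⁻¹, (inv_pos.2 (hvn i)).ne', ?_⟩
      rw [hw, if_neg h, hu]
  refine ⟨fun i => inner ℝ (B 0) (w i), fun i => inner ℝ (B 1) (w i), fun i => inner ℝ (B 2) (w i),
    i0, j0, cs, sn, ⟨?_, ?_, hij0, ?_, ?_, ?_, ?_, ?_, ?_, hcsh, hsn0, ?_, ?_⟩, ?_⟩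
  · intro i
    have h1 := nf_inner_B B (w i) (w i)
    have h2 : (inner ℝ (w i) (w i) : ℝ) = 1 := by
      have h3 := hww i i
      have h4 : (inner ℝ (u i) (u i) : ℝ) = 1 := by
        rw [real_inner_self_eq_norm_sq, hun]; norm_num
      rw [h4, one_pow] at h3
      have h5 : 0 ≤ (inner ℝ (w i) (w i) : ℝ) := real_inner_self_nonneg
      nlinarith
    rw [h2] at h1
    linarith
  · intro i j l hij hjl hil
    intro hdet
    set W : Fin 3 → E3 := ![w i, w j, w l] with hW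
    set M : Matrix (Fin 3) (Fin 3) ℝ := Matrix.of fun a b => inner ℝ (B b) (W a) with hM
    have hMdet : M.det = 0 := by
      rw [Matrix.det_fin_three, ← hdet]
      simp only [hM, hW, Matrix.of_apply, Matrix.cons_val_zero, Matrix.cons_val_one,
        Matrix.cons_val]
      ring
    obtain ⟨g, hg0, hg⟩ := Matrix.exists_vecMul_eq_zero_iff.2 hMdet
    have hgW : ∑ a, g a • W a = 0 := by
      have h1 : ∀ b : Fin 3, inner ℝ (B b) (∑ a, g a • W a) = (0:ℝ) := by
        intro b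
        rw [inner_sum]
        have h2 := congrFun hg b
        simp only [Matrix.vecMul, dotProduct, Pi.zero_apply, hM, Matrix.of_apply] at h2
        rw [← h2]
        apply Finset.sum_congr rfl
        intro a _
        rw [real_inner_smul_right]
      exact nf_zero_B B _ (h1 0) (h1 1) (h1 2)
    obtain ⟨ci, hci, hci'⟩ := hwv i
    obtain ⟨cj, hcj, hcj'⟩ := hwv j
    obtain ⟨cl, hcl, hcl'⟩ := hwv l
    have h3 := Fintype.linearIndependent_iff.1 (hv i j l hij hjl hil)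
      ![g 0 * ci, g 1 * cj, g 2 * cl] (by
        rw [Fin.sum_univ_three]
        rw [Fin.sum_univ_three] at hgW
        simp only [hW, Matrix.cons_val_zero, Matrix.cons_val_one, Matrix.cons_val] at hgW ⊢
        rw [hci', hcj', hcl'] at hgW
        simp only [smul_smul] at hgW
        exact hgW)
    apply hg0
    funext a
    fin_cases a
    · have := h3 0
      simp only [Matrix.cons_val_zero] at this
      exact (mul_eq_zero.1 this).resolve_right hci
    · have := h3 1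
      simp only [Matrix.cons_val_one, Matrix.cons_val] at this
      exact (mul_eq_zero.1 this).resolve_right hcj
    · have := h3 2
      simp only [Matrix.cons_val] at this
      exact (mul_eq_zero.1 this).resolve_right hcl
  · rw [hwi0, hBo]; simp
  · rw [hwi0, hBo]; simp
  · rw [hwi0, hBo]; simp
  · rw [hwj0, inner_sub_right, real_inner_smul_right, real_inner_smul_right, hBo, hBo]; simp
  · rw [hwj0, inner_sub_right, real_inner_smul_right, real_inner_smul_right, hBo, hBo]; simp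
  · rw [hwj0, inner_sub_right, real_inner_smul_right, real_inner_smul_right, hBo, hBo]; simp
  · rw [hsn2]; ring
  · intro i j hij
    rw [← nf_inner_B B (w i) (w j), hww]
    have h1 := hmax' i j hij
    have h2 : (inner ℝ (u i) (u j) : ℝ) ^ 2 = |(inner ℝ (u i) (u j) : ℝ)| ^ 2 := (sq_abs _).symm
    rw [h2]
    exact pow_le_pow_left₀ (abs_nonneg _) h1 2
  · intro σ
    refine ⟨fun i => if i = j0 then η * σ j0 else σ i, ?_⟩
    rw [← (nf_mp B).measure_preimage (nf_cell_meas _ _ _ _).nullMeasurableSet]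
    congr 1
    ext x
    simp only [cell3, Set.mem_preimage, Set.mem_setOf_eq]
    have hnorm : ‖x‖ ≤ 1 ↔ (inner ℝ (B 0) x : ℝ) ^ 2 + (inner ℝ (B 1) x : ℝ) ^ 2 +
        (inner ℝ (B 2) x : ℝ) ^ 2 ≤ 1 := by
      have h1 := nf_inner_B B x x
      rw [real_inner_self_eq_norm_sq] at h1
      have h2 : (inner ℝ (B 0) x : ℝ) ^ 2 + (inner ℝ (B 1) x : ℝ) ^ 2 +
        (inner ℝ (B 2) x : ℝ) ^ 2 = ‖x‖ ^ 2 := by rw [h1]; ring
      rw [h2]
      constructor
      · intro h
        exact pow_le_one₀ (norm_nonneg _) h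
      · intro h
        by_contra h3
        push Not at h3
        nlinarith
    have hsgn : ∀ i, 0 < (((if i = j0 then η * σ j0 else σ i : ℤˣ) : ℤ) : ℝ) * inner ℝ (v i) x ↔
        0 < ((σ i : ℤ) : ℝ) * (inner ℝ (B 0) (w i) * inner ℝ (B 0) x +
          inner ℝ (B 1) (w i) * inner ℝ (B 1) x + inner ℝ (B 2) (w i) * inner ℝ (B 2) x) := by
      intro i
      rw [← nf_inner_B B (w i) x]
      by_cases h : i = j0
      · rw [if_pos h, h, hw, if_pos rfl, hu]
        rw [real_inner_smul_left, real_inner_smul_left]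
        push_cast
        rw [← hηr]
        have e : ((σ j0 : ℤ) : ℝ) * (ηr * ((‖v j0‖)⁻¹ * inner ℝ (v j0) x)) =
            (‖v j0‖)⁻¹ * (ηr * ((σ j0 : ℤ) : ℝ) * inner ℝ (v j0) x) := by ring
        rw [e, mul_pos_iff_of_pos_left (inv_pos.2 (hvn j0))]
      · rw [if_neg h, hw, if_neg h, hu]
        rw [real_inner_smul_left]
        have e : ((σ i : ℤ) : ℝ) * ((‖v i‖)⁻¹ * inner ℝ (v i) x) =
            (‖v i‖)⁻¹ * (((σ i : ℤ) : ℝ) * inner ℝ (v i) x) := by ring
        rw [e, mul_pos_iff_of_pos_left (inv_pos.2 (hvn i))]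
    rw [hnorm]
    simp_rw [hsgn]

theorem cell3_pos {k : ℕ} (p q r : Fin k → ℝ) (σ : Fin k → ℤˣ) (h : (cell3 p q r σ).Nonempty) :
    0 < volume (cell3 p q r σ) := by
  obtain ⟨P, hP1, hP2⟩ := h
  let U : Set (ℝ × ℝ × ℝ) := {P | P.1 ^ 2 + P.2.1 ^ 2 + P.2.2 ^ 2 < 1 ∧
    ∀ i, 0 < ((σ i : ℤ) : ℝ) * (p i * P.1 + q i * P.2.1 + r i * P.2.2)}
  have hUo : IsOpen U := by
    have h1 : IsOpen {P : ℝ × ℝ × ℝ | P.1 ^ 2 + P.2.1 ^ 2 + P.2.2 ^ 2 < 1} := by
      apply isOpen_lt
      · fun_prop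
      · fun_prop
    have h2 : IsOpen {P : ℝ × ℝ × ℝ |
        ∀ i, 0 < ((σ i : ℤ) : ℝ) * (p i * P.1 + q i * P.2.1 + r i * P.2.2)} := by
      rw [Set.setOf_forall]
      apply isOpen_iInter_of_finite
      intro i
      apply isOpen_lt
      · fun_prop
      · fun_prop
    exact h1.inter h2
  have hUn : U.Nonempty := by
    refine ⟨(P.1 / 2, P.2.1 / 2, P.2.2 / 2), ?_, ?_⟩
    · show (P.1 / 2) ^ 2 + (P.2.1 / 2) ^ 2 + (P.2.2 / 2) ^ 2 < 1
      nlinarith [sq_nonneg P.1, sq_nonneg P.2.1, sq_nonneg P.2.2]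
    · intro i
      show 0 < ((σ i : ℤ) : ℝ) * (p i * (P.1 / 2) + q i * (P.2.1 / 2) + r i * (P.2.2 / 2))
      have := hP2 i
      have e : ((σ i : ℤ) : ℝ) * (p i * (P.1 / 2) + q i * (P.2.1 / 2) + r i * (P.2.2 / 2)) =
          (((σ i : ℤ) : ℝ) * (p i * P.1 + q i * P.2.1 + r i * P.2.2)) / 2 := by ring
      rw [e]
      exact half_pos this
  have hpos : 0 < volume U := hUo.measure_pos volume hUn
  refine lt_of_lt_of_le hpos (measure_mono ?_)
  rintro Q ⟨hQ1, hQ2⟩
  exact ⟨hQ1.le, hQ2⟩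

/-- sign -/
noncomputable def sg (x : ℝ) : ℤˣ := if 0 < x then 1 else -1

lemma sg_mul_pos {x : ℝ} (hx : x ≠ 0) : 0 < ((sg x : ℤ) : ℝ) * x := by
  unfold sg
  split_ifs with h
  · simpa using h
  · have : x < 0 := lt_of_le_of_ne (not_lt.mp h) hx
    simpa using this

lemma exists_small {α : Type} (F : Finset α) (f : α → ℝ) (hf : ∀ x ∈ F, 0 < f x) :
    ∃ e : ℝ, 0 < e ∧ ∀ x ∈ F, e < f x := by
  have h1 : ∀ᶠ e in nhdsWithin (0:ℝ) (Ioi 0), ∀ x ∈ F, e < f x := by
    rw [Filter.eventually_all_finset]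
    intro x hx
    filter_upwards [Ioo_mem_nhdsGT (hf x hx)] with e he
    exact he.2
  have h2 : ∀ᶠ e in nhdsWithin (0:ℝ) (Ioi 0), 0 < e := self_mem_nhdsWithin
  exact (h2.and h1).exists

/-- the functional -/
def LL {k : ℕ} (p q r : Fin k → ℝ) (i : Fin k) (P : ℝ × ℝ × ℝ) : ℝ :=
  p i * P.1 + q i * P.2.1 + r i * P.2.2

lemma cell3_meas {k : ℕ} (p q r : Fin k → ℝ) (σ : Fin k → ℤˣ) : MeasurableSet (cell3 p q r σ) := by
  have e : cell3 p q r σ = {P : ℝ × ℝ × ℝ | P.1 ^ 2 + P.2.1 ^ 2 + P.2.2 ^ 2 ≤ 1} ∩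
      ⋂ i, {P : ℝ × ℝ × ℝ | 0 < ((σ i : ℤ) : ℝ) * (p i * P.1 + q i * P.2.1 + r i * P.2.2)} := by
    ext P
    simp only [cell3, Set.mem_inter_iff, Set.mem_iInter]
    rfl
  rw [e]
  apply MeasurableSet.inter
  · exact (isClosed_le (by fun_prop) continuous_const).measurableSet
  · apply MeasurableSet.iInter
    intro i
    exact (isOpen_lt continuous_const (by fun_prop)).measurableSet

lemma cell3_vol_pos {k : ℕ} (p q r : Fin k → ℝ) (σ : Fin k → ℤˣ) (P : ℝ × ℝ × ℝ)
    (hP : ∀ i, 0 < ((σ i : ℤ) : ℝ) * (p i * P.1 + q i * P.2.1 + r i * P.2.2)) :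
    0 < volume (cell3 p q r σ) := by
  set U : Set (ℝ × ℝ × ℝ) := {P | P.1 ^ 2 + P.2.1 ^ 2 + P.2.2 ^ 2 < 1} ∩
    ⋂ i, {P : ℝ × ℝ × ℝ | 0 < ((σ i : ℤ) : ℝ) * (p i * P.1 + q i * P.2.1 + r i * P.2.2)} with hU
  have hUo : IsOpen U := by
    apply IsOpen.inter
    · exact isOpen_lt (by fun_prop) continuous_const
    · apply isOpen_iInter_of_finite
      intro i
      exact isOpen_lt continuous_const (by fun_prop)
  have hUs : U ⊆ cell3 p q r σ := by
    rintro Q ⟨h1, h2⟩
    refine ⟨le_of_lt h1, fun i => ?_⟩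
    exact (Set.mem_iInter.mp h2) i
  have hUn : U.Nonempty := by
    -- scale the point
    set R := P.1 ^ 2 + P.2.1 ^ 2 + P.2.2 ^ 2 with hR
    have hR0 : 0 ≤ R := by positivity
    set c : ℝ := 1 / (R + 1) with hc
    have hc0 : 0 < c := by positivity
    refine ⟨(c * P.1, c * P.2.1, c * P.2.2), ?_, ?_⟩
    · change (c * P.1) ^ 2 + (c * P.2.1) ^ 2 + (c * P.2.2) ^ 2 < 1
      have : (c * P.1) ^ 2 + (c * P.2.1) ^ 2 + (c * P.2.2) ^ 2 = c ^ 2 * R := by rw [hR]; ring
      rw [this, hc, div_pow, one_pow, one_div, inv_mul_lt_iff₀ (by positivity)]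
      nlinarith
    · rw [Set.mem_iInter]
      intro i
      change 0 < ((σ i : ℤ) : ℝ) * (p i * (c * P.1) + q i * (c * P.2.1) + r i * (c * P.2.2))
      have : ((σ i : ℤ) : ℝ) * (p i * (c * P.1) + q i * (c * P.2.1) + r i * (c * P.2.2)) =
        c * (((σ i : ℤ) : ℝ) * (p i * P.1 + q i * P.2.1 + r i * P.2.2)) := by ring
      rw [this]
      exact mul_pos hc0 (hP i)
  exact lt_of_lt_of_le (hUo.measure_pos volume hUn) (measure_mono hUs)

lemma cell3_disj {k : ℕ} (p q r : Fin k → ℝ) (σ τ : Fin k → ℤˣ) (h : σ ≠ τ) :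
    Disjoint (cell3 p q r σ) (cell3 p q r τ) := by
  rw [Set.disjoint_left]
  rintro P ⟨-, h1⟩ ⟨-, h2⟩
  apply h
  funext i
  have h3 := h1 i
  have h4 := h2 i
  rcases Int.units_eq_one_or (σ i) with h5 | h5 <;> rcases Int.units_eq_one_or (τ i) with h6 | h6
  · rw [h5, h6]
  · exfalso
    rw [h5] at h3; rw [h6] at h4
    simp only [Units.val_one, Int.cast_one, one_mul, Units.val_neg, Int.cast_neg] at h3 h4
    linarith
  · exfalso
    rw [h5] at h3; rw [h6] at h4
    simp only [Units.val_one, Int.cast_one, one_mul, Units.val_neg, Int.cast_neg] at h3 h4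
    linarith
  · rw [h5, h6]

theorem lune {k : ℕ} (p q r : Fin k → ℝ) (i0 j0 : Fin k) (cs sn : ℝ) (h : NF p q r i0 j0 cs sn)
    (a0 : ℝ) (ha0 : 0 ≤ a0)
    (ha : ∀ σ, 0 < volume (cell3 p q r σ) → ENNReal.ofReal a0 ≤ volume (cell3 p q r σ)) :
    ((k : ℝ) - 2) * a0 ≤ 2 * sn / cs := by
  classical
  have hcs0 : 0 < cs := by linarith [h.hcs]
  have hsn0 := h.hsn
  set S : Finset (Fin k) := (Finset.univ.erase i0).erase j0 with hS
  have hSmem : ∀ l, l ∈ S ↔ l ≠ j0 ∧ l ≠ i0 := by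
    intro l
    simp [hS]
  have hk2 : S.card + 2 = k := by
    have h1 : (Finset.univ.erase i0).card = k - 1 := by
      rw [Finset.card_erase_of_mem (Finset.mem_univ _), Finset.card_univ, Fintype.card_fin]
    have h2 : S.card = k - 1 - 1 := by
      rw [hS, Finset.card_erase_of_mem, h1]
      simp [h.ne.symm]
    have h3 : 2 ≤ k := by
      by_contra hlt
      push Not at hlt
      have a1 := i0.2
      have a2 := j0.2
      apply h.ne
      apply Fin.ext
      omega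
    omega
  have hr : ∀ l ∈ S, r l ≠ 0 := by
    intro l hl hr0
    obtain ⟨hl1, hl2⟩ := (hSmem l).mp hl
    apply h.det i0 j0 l h.ne hl1.symm hl2.symm
    rw [h.pi0, h.qi0, h.ri0, h.pj0, h.rj0, hr0]
    ring
  have hc0 : ∀ l ∈ S, ∀ m ∈ S, l ≠ m → p l * r m - p m * r l ≠ 0 := by
    intro l hl m hm hlm h0
    obtain ⟨hl1, hl2⟩ := (hSmem l).mp hl
    obtain ⟨hm1, hm2⟩ := (hSmem m).mp hm
    apply h.det i0 l m hl2.symm hlm hm2.symm
    rw [h.pi0, h.qi0, h.ri0]
    linear_combination -h0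
  -- choice of η
  obtain ⟨η, hη, hηne⟩ : ∃ η ∈ Ioo 0 (sn / cs), ∀ l ∈ S, ∀ m ∈ S, l ≠ m →
      (p l * r m - p m * r l) + η * (q l * r m - q m * r l) ≠ 0 := by
    have hinf : (Ioo 0 (sn / cs)).Infinite := Ioo_infinite (by positivity)
    obtain ⟨η, hη1, hη2⟩ := hinf.exists_notMem_finset
      ((S ×ˢ S).image (fun lm => -(p lm.1 * r lm.2 - p lm.2 * r lm.1) /
        (q lm.1 * r lm.2 - q lm.2 * r lm.1)))
    refine ⟨η, hη1, fun l hl m hm hlm h0 => ?_⟩
    have hd : q l * r m - q m * r l ≠ 0 := by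
      intro hd
      rw [hd, mul_zero, add_zero] at h0
      exact hc0 l hl m hm hlm h0
    apply hη2
    rw [Finset.mem_image]
    refine ⟨(l, m), Finset.mem_product.mpr ⟨hl, hm⟩, ?_⟩
    simp only
    rw [div_eq_iff hd]
    linarith
  obtain ⟨hη0, hη1⟩ := hη
  set t : Fin k → ℝ := fun l => -(p l + η * q l) / r l with ht
  have htr : ∀ l ∈ S, r l * t l = -(p l + η * q l) := by
    intro l hl
    simp only [ht]
    have := hr l hl
    field_simp
  have htne : ∀ l ∈ S, ∀ m ∈ S, l ≠ m → t l ≠ t m := by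
    intro l hl m hm hlm heq
    apply hηne l hl m hm hlm
    have e1 := htr l hl
    have e2 := htr m hm
    rw [← heq] at e2
    have : (p l + η * q l) * r m = (p m + η * q m) * r l := by
      have e3 : p l + η * q l = - (r l * t l) := by linarith
      have e4 : p m + η * q m = - (r m * t l) := by linarith
      rw [e3, e4]; ring
    linarith
  obtain ⟨e, he0, he⟩ := exists_small ((S ×ˢ S).filter (fun lm => lm.1 ≠ lm.2))
    (fun lm => |t lm.1 - t lm.2|) (by
      rintro ⟨l, m⟩ hlm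
      rw [Finset.mem_filter, Finset.mem_product] at hlm
      exact abs_pos.mpr (sub_ne_zero.mpr (htne l hlm.1.1 m hlm.1.2 hlm.2)))
  have he' : ∀ l ∈ S, ∀ m ∈ S, l ≠ m → e < |t l - t m| := by
    intro l hl m hm hlm
    exact he (l, m) (Finset.mem_filter.mpr ⟨Finset.mem_product.mpr ⟨hl, hm⟩, hlm⟩)
  -- points and signs
  set Pt : Fin k → ℝ × ℝ × ℝ := fun l => (1, η, t l + e) with hPt
  have hval : ∀ l, ∀ m ∈ S, p m * (Pt l).1 + q m * (Pt l).2.1 + r m * (Pt l).2.2 =
      r m * (t l + e - t m) := by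
    intro l m hm
    have := htr m hm
    simp only [hPt]
    linarith
  set σ : Fin k → Fin k → ℤˣ := fun l i =>
    sg (p i * (Pt l).1 + q i * (Pt l).2.1 + r i * (Pt l).2.2) with hσ
  have hvi0 : ∀ l, p i0 * (Pt l).1 + q i0 * (Pt l).2.1 + r i0 * (Pt l).2.2 = η := by
    intro l; rw [h.pi0, h.qi0, h.ri0]; simp [hPt]
  have hvj0 : ∀ l, p j0 * (Pt l).1 + q j0 * (Pt l).2.1 + r j0 * (Pt l).2.2 = cs * η - sn := by
    intro l; rw [h.pj0, h.qj0, h.rj0]; simp [hPt]; ring
  have hcsη : cs * η - sn < 0 := by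
    rw [lt_div_iff₀ hcs0] at hη1
    linarith
  have hne : ∀ l ∈ S, ∀ i, p i * (Pt l).1 + q i * (Pt l).2.1 + r i * (Pt l).2.2 ≠ 0 := by
    intro l hl i
    by_cases hi0 : i = i0
    · rw [hi0, hvi0]; exact hη0.ne'
    · by_cases hj0 : i = j0
      · rw [hj0, hvj0]; exact hcsη.ne
      · have hiS : i ∈ S := (hSmem i).mpr ⟨hj0, hi0⟩
        rw [hval l i hiS]
        apply mul_ne_zero (hr i hiS)
        by_cases hil : i = l
        · subst hil
          intro h0
          linarith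
        · intro h0
          have h1 := he' l hl i hiS (Ne.symm hil)
          have h2 : t l - t i = -e := by linarith
          rw [h2, abs_neg, abs_of_pos he0] at h1
          exact lt_irrefl _ h1
  have hσne : ∀ l ∈ S, ∀ m ∈ S, t l < t m → σ l ≠ σ m := by
    intro l hl m hm hlt heq
    have hlm : l ≠ m := by rintro rfl; exact lt_irrefl _ hlt
    have h1 := he' l hl m hm hlm
    rw [abs_of_neg (by linarith)] at h1
    have h2 := congrFun heq m
    simp only [hσ] at h2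
    rw [hval l m hm, hval m m hm] at h2
    have hrm := hr m hm
    have h3 := sg_mul_pos (x := r m * (t l + e - t m)) (mul_ne_zero hrm (by linarith [he0] : t l + e - t m < 0).ne)
    have h4 := sg_mul_pos (x := r m * (t m + e - t m)) (mul_ne_zero hrm (by linarith [he0] : 0 < t m + e - t m).ne')
    rw [h2] at h3
    generalize ((sg (r m * (t m + e - t m)) : ℤ) : ℝ) = s at h3 h4
    have h5 : 0 < s * r m := by
      have : s * (r m * (t m + e - t m)) = (s * r m) * e := by ring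
      rw [this] at h4
      exact (pos_iff_pos_of_mul_pos h4).mpr he0
    have h6 : s * (r m * (t l + e - t m)) < 0 := by
      have : s * (r m * (t l + e - t m)) = (s * r m) * (t l + e - t m) := by ring
      rw [this]
      exact mul_neg_of_pos_of_neg h5 (by linarith)
    linarith
  have hσne' : ∀ l ∈ S, ∀ m ∈ S, l ≠ m → σ l ≠ σ m := by
    intro l hl m hm hlm
    rcases lt_or_gt_of_ne (htne l hl m hm hlm) with h1 | h1
    · exact hσne l hl m hm h1
    · exact (hσne m hm l hl h1).symm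
  -- volume
  have hbox : (⋃ l ∈ S, cell3 p q r (σ l)) ⊆ Icc (0:ℝ) 1 ×ˢ (Icc (0:ℝ) (sn / cs) ×ˢ Icc (-1:ℝ) 1) := by
    intro P hP
    simp only [Set.mem_iUnion] at hP
    obtain ⟨l, hl, hP1, hP2⟩ := hP
    have h1 := hP2 i0
    have h2 := hP2 j0
    have hs1 : σ l i0 = 1 := by
      simp only [hσ]; rw [hvi0]; unfold sg; rw [if_pos hη0]
    have hs2 : σ l j0 = -1 := by
      simp only [hσ]; rw [hvj0]; unfold sg; rw [if_neg (not_lt.mpr hcsη.le)]
    rw [hs1, h.pi0, h.qi0, h.ri0] at h1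
    rw [hs2, h.pj0, h.qj0, h.rj0] at h2
    simp only [Units.val_one, Int.cast_one, one_mul, Units.val_neg, Int.cast_neg, zero_mul,
      zero_add, add_zero] at h1 h2
    have hx1 : P.1 ≤ 1 := by nlinarith [sq_nonneg P.2.1, sq_nonneg P.2.2]
    have hx0 : 0 < P.1 := by
      by_contra hcon
      push Not at hcon
      nlinarith
    have hz : |P.2.2| ≤ 1 := by
      apply abs_le_of_sq_le_sq _ (by norm_num)
      nlinarith [sq_nonneg P.2.1, sq_nonneg P.1]
    refine ⟨⟨hx0.le, hx1⟩, ⟨h1.le, ?_⟩, abs_le.mp hz⟩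
    rw [le_div_iff₀ hcs0]
    nlinarith
  have hvbox : volume (Icc (0:ℝ) 1 ×ˢ (Icc (0:ℝ) (sn / cs) ×ˢ Icc (-1:ℝ) 1)) =
      ENNReal.ofReal (2 * sn / cs) := by
    rw [Measure.volume_eq_prod, Measure.prod_prod, Measure.volume_eq_prod, Measure.prod_prod,
      Real.volume_Icc, Real.volume_Icc, Real.volume_Icc, ← ENNReal.ofReal_mul (by
        rw [sub_zero]; positivity), ← ENNReal.ofReal_mul (by norm_num)]
    congr 1
    ring
  have hsum : (S.card : ENNReal) * ENNReal.ofReal a0 ≤ ENNReal.ofReal (2 * sn / cs) := by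
    calc (S.card : ENNReal) * ENNReal.ofReal a0 = ∑ l ∈ S, ENNReal.ofReal a0 := by
          rw [Finset.sum_const, nsmul_eq_mul]
      _ ≤ ∑ l ∈ S, volume (cell3 p q r (σ l)) := by
          apply Finset.sum_le_sum
          intro l hl
          apply ha
          apply cell3_vol_pos p q r (σ l) (Pt l)
          intro i
          exact sg_mul_pos (hne l hl i)
      _ = volume (⋃ l ∈ S, cell3 p q r (σ l)) := by
          rw [measure_biUnion_finset]
          · intro l hl m hm hlm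
            exact cell3_disj p q r _ _ (hσne' l hl m hm hlm)
          · intro l _
            exact cell3_meas p q r _
      _ ≤ ENNReal.ofReal (2 * sn / cs) := by
          rw [← hvbox]
          exact measure_mono hbox
  rw [← ENNReal.ofReal_natCast, ← ENNReal.ofReal_mul (Nat.cast_nonneg _)] at hsum
  have h1 := (ENNReal.ofReal_le_ofReal_iff (by positivity)).mp hsum
  have h2 : (k : ℝ) - 2 = S.card := by
    have h3 : ((S.card + 2 : ℕ) : ℝ) = (k : ℝ) := congrArg _ hk2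
    push_cast at h3
    linarith
  rw [h2]
  exact h1

/-- area of a sheared section -/
theorem sec_vol (α β ε t : ℝ) (hα : 0 < α) (hβ : 0 < β) (Ω : Set (ℝ × ℝ)) :
    volume {q : ℝ × ℝ | ∃ z ∈ Ω, q = (t * (α * z.1 + ε * z.2), t * (β * z.2))} =
      ENNReal.ofReal (t ^ 2 * (α * β)) * volume Ω := by
  set f := (Matrix.toLin (Module.Basis.finTwoProd ℝ) (Module.Basis.finTwoProd ℝ))
    !![t * α, t * ε; 0, t * β] with hf
  have hdet : LinearMap.det f = t ^ 2 * (α * β) := by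
    rw [hf, LinearMap.det_toLin, Matrix.det_fin_two_of]
    ring
  have hset : {q : ℝ × ℝ | ∃ z ∈ Ω, q = (t * (α * z.1 + ε * z.2), t * (β * z.2))} = f '' Ω := by
    ext q
    simp only [Set.mem_image]
    constructor
    · rintro ⟨z, hz, rfl⟩
      refine ⟨z, hz, ?_⟩
      rw [hf, Matrix.toLin_finTwoProd]
      ext
      · simp; ring
      · simp; ring
    · rintro ⟨z, hz, rfl⟩
      refine ⟨z, hz, ?_⟩
      rw [hf, Matrix.toLin_finTwoProd]
      ext
      · simp; ring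
      · simp; ring
  rw [hset, Measure.addHaar_image_linearMap, hdet, abs_of_nonneg (by positivity)]

/-- volume of the cone piece over a planar region -/
theorem cone_vol (α β ε h : ℝ) (hα : 0 < α) (hβ : 0 < β) (hh : 0 < h) (Ω : Set (ℝ × ℝ))
    (hΩ : IsOpen Ω) :
    volume {P : ℝ × ℝ × ℝ | ∃ t : ℝ, ∃ z ∈ Ω, 0 < t ∧ t ≤ h ∧
      P = (t * (α * z.1 + ε * z.2), t * (β * z.2), t)} = ENNReal.ofReal (α * β * h ^ 3 / 3) * volume Ω := by
  set C := {P : ℝ × ℝ × ℝ | ∃ t : ℝ, ∃ z ∈ Ω, 0 < t ∧ t ≤ h ∧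
      P = (t * (α * z.1 + ε * z.2), t * (β * z.2), t)} with hC
  have hCeq : C = {P : ℝ × ℝ × ℝ | 0 < P.2.2 ∧ P.2.2 ≤ h} ∩
      (fun P : ℝ × ℝ × ℝ => ((P.1 / P.2.2 - ε * (P.2.1 / (β * P.2.2))) / α,
        P.2.1 / (β * P.2.2))) ⁻¹' Ω := by
    ext P
    constructor
    · rintro ⟨t, z, hz, ht0, ht1, rfl⟩
      refine ⟨⟨ht0, ht1⟩, ?_⟩
      show ((t * (α * z.1 + ε * z.2) / t - ε * (t * (β * z.2) / (β * t))) / α,
        t * (β * z.2) / (β * t)) ∈ Ω
      have e2 : t * (β * z.2) / (β * t) = z.2 := by field_simp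
      rw [e2]
      have e1 : (t * (α * z.1 + ε * z.2) / t - ε * z.2) / α = z.1 := by field_simp; ring
      rw [e1]
      exact hz
    · rintro ⟨⟨h0, h1⟩, h2⟩
      refine ⟨P.2.2, _, h2, h0, h1, ?_⟩
      have hne := h0.ne'
      ext
      · show P.1 = P.2.2 * (α * ((P.1 / P.2.2 - ε * (P.2.1 / (β * P.2.2))) / α) +
          ε * (P.2.1 / (β * P.2.2)))
        field_simp
        ring
      · show P.2.1 = P.2.2 * (β * (P.2.1 / (β * P.2.2)))
        field_simp
      · rfl
  have hCm : MeasurableSet C := by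
    rw [hCeq]
    apply MeasurableSet.inter
    · have hm : Measurable (fun P : ℝ × ℝ × ℝ => P.2.2) := by fun_prop
      exact (measurableSet_lt measurable_const hm).inter (measurableSet_le hm measurable_const)
    · apply hΩ.measurableSet.preimage
      fun_prop
  have h1 := (volume_preserving_prodAssoc (α₁ := ℝ) (β₁ := ℝ) (γ₁ := ℝ)).measure_preimage
    hCm.nullMeasurableSet
  rw [← h1]
  have h2 : MeasurableSet ((MeasurableEquiv.prodAssoc : (ℝ × ℝ) × ℝ ≃ᵐ ℝ × ℝ × ℝ) ⁻¹' C) :=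
    MeasurableEquiv.prodAssoc.measurable hCm
  have h3 : volume ((MeasurableEquiv.prodAssoc : (ℝ × ℝ) × ℝ ≃ᵐ ℝ × ℝ × ℝ) ⁻¹' C) =
      ∫⁻ t : ℝ, volume ((fun q : ℝ × ℝ => (q, t)) ⁻¹'
        ((MeasurableEquiv.prodAssoc : (ℝ × ℝ) × ℝ ≃ᵐ ℝ × ℝ × ℝ) ⁻¹' C)) :=
    Measure.prod_apply_symm h2
  rw [h3]
  have h4 : ∀ t : ℝ, volume ((fun q : ℝ × ℝ => (q, t)) ⁻¹'
        ((MeasurableEquiv.prodAssoc : (ℝ × ℝ) × ℝ ≃ᵐ ℝ × ℝ × ℝ) ⁻¹' C)) =
      (Ioc 0 h).indicator (fun t => ENNReal.ofReal (t ^ 2 * (α * β)) * volume Ω) t := by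
    intro t
    by_cases ht : t ∈ Ioc 0 h
    · rw [indicator_of_mem ht, ← sec_vol α β ε t hα hβ Ω]
      congr 1
      ext q
      constructor
      · rintro ⟨t', z, hz, h0, h1, he⟩
        have he' : (q.1, q.2, t) = (t' * (α * z.1 + ε * z.2), t' * (β * z.2), t') := he
        simp only [Prod.mk.injEq] at he'
        obtain ⟨e1, e2, e3⟩ := he'
        subst e3
        exact ⟨z, hz, Prod.ext e1 e2⟩
      · rintro ⟨z, hz, he⟩
        refine ⟨t, z, hz, ht.1, ht.2, ?_⟩
        show (q.1, q.2, t) = _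
        rw [he]
    · rw [indicator_of_notMem ht]
      have : (fun q : ℝ × ℝ => (q, t)) ⁻¹'
        ((MeasurableEquiv.prodAssoc : (ℝ × ℝ) × ℝ ≃ᵐ ℝ × ℝ × ℝ) ⁻¹' C) = ∅ := by
        rw [eq_empty_iff_forall_notMem]
        rintro q ⟨t', z, hz, h0, h1, he⟩
        have he' : (q.1, q.2, t) = (t' * (α * z.1 + ε * z.2), t' * (β * z.2), t') := he
        simp only [Prod.mk.injEq] at he'
        obtain ⟨e1, e2, e3⟩ := he'
        subst e3
        exact ht ⟨h0, h1⟩
      rw [this, measure_empty]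
  simp_rw [h4]
  rw [lintegral_indicator measurableSet_Ioc, lintegral_mul_const _ (by fun_prop)]
  congr 1
  rw [← ofReal_integral_eq_lintegral_ofReal]
  · congr 1
    rw [← intervalIntegral.integral_of_le hh.le, intervalIntegral.integral_mul_const, integral_pow]
    norm_num
    ring
  · apply Continuous.integrableOn_Ioc
    fun_prop
  · exact Filter.Eventually.of_forall fun t => by positivity

theorem cone_T_dense {A B C : ℝ} (h : A ≠ 0 ∨ B ≠ 0 ∨ C ≠ 0) :
    Dense {z : ℝ × ℝ | A * z.1 + B * z.2 + C ≠ 0} := by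
  by_cases hAB : A = 0 ∧ B = 0
  · obtain ⟨hA, hB⟩ := hAB
    have hC : C ≠ 0 := by
      rcases h with h | h | h
      · exact absurd hA h
      · exact absurd hB h
      · exact h
    have : {z : ℝ × ℝ | A * z.1 + B * z.2 + C ≠ 0} = Set.univ := by
      ext z
      simp [hA, hB, hC]
    rw [this]
    exact dense_univ
  · have hpos : 0 < A ^ 2 + B ^ 2 := by
      by_contra hcon
      apply hAB
      constructor
      · nlinarith [sq_nonneg A, sq_nonneg B]
      · nlinarith [sq_nonneg A, sq_nonneg B]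
    intro z
    by_cases hz : A * z.1 + B * z.2 + C = 0
    · rw [mem_closure_iff_seq_limit]
      refine ⟨fun n : ℕ => (z.1 + (1 / ((n : ℝ) + 1)) * A, z.2 + (1 / ((n : ℝ) + 1)) * B), ?_, ?_⟩
      · intro n
        have hn : (0 : ℝ) < 1 / ((n : ℝ) + 1) := Nat.one_div_pos_of_nat
        show A * (z.1 + (1 / ((n : ℝ) + 1)) * A) + B * (z.2 + (1 / ((n : ℝ) + 1)) * B) + C ≠ 0
        have : A * (z.1 + (1 / ((n : ℝ) + 1)) * A) + B * (z.2 + (1 / ((n : ℝ) + 1)) * B) + C
            = (1 / ((n : ℝ) + 1)) * (A ^ 2 + B ^ 2) := by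
          linear_combination hz
        rw [this]
        positivity
      · have h0 := tendsto_one_div_add_atTop_nhds_zero_nat (𝕜 := ℝ)
        have h1 : Filter.Tendsto (fun n : ℕ => z.1 + (1 / ((n : ℝ) + 1)) * A) Filter.atTop
            (nhds (z.1 + 0 * A)) := tendsto_const_nhds.add (h0.mul_const A)
        have h2 : Filter.Tendsto (fun n : ℕ => z.2 + (1 / ((n : ℝ) + 1)) * B) Filter.atTop
            (nhds (z.2 + 0 * B)) := tendsto_const_nhds.add (h0.mul_const B)
        have h3 := h1.prodMk_nhds h2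
        simpa using h3
    · exact subset_closure hz

theorem cone_T {k : ℕ} (p q r : Fin k → ℝ) (hne : ∀ i, p i ^ 2 + q i ^ 2 + r i ^ 2 = 1)
    (α β ε Z : ℝ) (hα : 0 < α) (hβ : 0 < β) (n : ℕ) (a : Fin n → Fin k) (c : Fin n → ℝ)
    (Ω : Set (ℝ × ℝ))
    (hΩ : Ω = {z | ∀ m, 0 < c m * (p (a m) * (α * z.1 + ε * z.2) + q (a m) * (β * z.2) + r (a m))})
    (hn : Ω.Nonempty) (hw : Ω ⊆ win Z) :
    ∃ σ : Fin k → ℤˣ, 0 < volume (cell3 p q r σ) ∧
      volume (cell3 p q r σ) ≤ ENNReal.ofReal (α * β / 3) * volume Ω := by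
  have hopen : IsOpen Ω := by
    rw [hΩ]
    have : {z : ℝ × ℝ | ∀ m, 0 < c m * (p (a m) * (α * z.1 + ε * z.2) + q (a m) * (β * z.2) + r (a m))}
      = ⋂ m, {z : ℝ × ℝ | 0 < c m * (p (a m) * (α * z.1 + ε * z.2) + q (a m) * (β * z.2) + r (a m))} := by
      ext z; simp
    rw [this]
    apply isOpen_iInter_of_finite
    intro m
    apply isOpen_lt continuous_const
    fun_prop
  -- a generic point
  have hdense : Dense (⋂ l : Fin k, {z : ℝ × ℝ | (α * p l) * z.1 + (ε * p l + β * q l) * z.2 + r l ≠ 0}) := by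
    apply dense_iInter_of_isOpen
    · intro l
      apply isOpen_ne_fun
      · fun_prop
      · exact continuous_const
    · intro l
      apply cone_T_dense
      by_contra hcon
      push Not at hcon
      obtain ⟨h1, h2, h3⟩ := hcon
      have hp : p l = 0 := by
        rcases mul_eq_zero.1 h1 with h | h
        · exact absurd h hα.ne'
        · exact h
      have hq : q l = 0 := by
        rw [hp] at h2
        have : β * q l = 0 := by linarith
        rcases mul_eq_zero.1 this with h | h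
        · exact absurd h hβ.ne'
        · exact h
      have := hne l
      rw [hp, hq, h3] at this
      norm_num at this
  obtain ⟨z0, hz0Ω, hz0⟩ := hdense.inter_open_nonempty Ω hopen hn
  have hf0 : ∀ l, p l * (α * z0.1 + ε * z0.2) + q l * (β * z0.2) + r l ≠ 0 := by
    intro l
    have := Set.mem_iInter.1 hz0 l
    simp only [Set.mem_setOf_eq] at this
    intro h
    apply this
    linarith
  have hz0c : ∀ m, 0 < c m * (p (a m) * (α * z0.1 + ε * z0.2) + q (a m) * (β * z0.2) + r (a m)) := by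
    have := hz0Ω
    rw [hΩ] at this
    exact this
  classical
  set σ : Fin k → ℤˣ := fun l =>
    if 0 < p l * (α * z0.1 + ε * z0.2) + q l * (β * z0.2) + r l then 1 else -1 with hσ
  have hσ0 : ∀ l, 0 < ((σ l : ℤ) : ℝ) * (p l * (α * z0.1 + ε * z0.2) + q l * (β * z0.2) + r l) := by
    intro l
    simp only [hσ]
    split_ifs with h
    · simpa using h
    · have := lt_of_le_of_ne (not_lt.1 h) (hf0 l)
      simp only [Units.val_neg, Units.val_one, Int.cast_neg, Int.cast_one]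
      linarith
  -- the cone
  have hsame : ∀ m (v : ℝ), 0 < ((σ (a m) : ℤ) : ℝ) * v → 0 < c m * v := by
    intro m v hv
    have h1 := hσ0 (a m)
    have h2 := hz0c m
    set F := p (a m) * (α * z0.1 + ε * z0.2) + q (a m) * (β * z0.2) + r (a m)
    set s := ((σ (a m) : ℤ) : ℝ)
    -- s*F>0, c*F>0, s*v>0
    have h3 : 0 < (s * F) * (c m * F) * (s * v) := by positivity
    have h4 : (s * F) * (c m * F) * (s * v) = (s * F) ^ 2 * (c m * v) := by ring
    rw [h4] at h3
    exact (pos_iff_pos_of_mul_pos h3).1 (by positivity)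
  refine ⟨σ, ?_, ?_⟩
  · apply cell3_pos
    set X := α * z0.1 + ε * z0.2 with hX
    set Y := β * z0.2 with hY
    set N := X ^ 2 + Y ^ 2 + 1 with hN
    have hNpos : 1 ≤ N := by rw [hN]; nlinarith [sq_nonneg X, sq_nonneg Y]
    refine ⟨(X / N, Y / N, 1 / N), ?_, ?_⟩
    · show (X / N) ^ 2 + (Y / N) ^ 2 + (1 / N) ^ 2 ≤ 1
      have : (X / N) ^ 2 + (Y / N) ^ 2 + (1 / N) ^ 2 = 1 / N := by
        have hN0 : N ≠ 0 := by positivity
        field_simp
        rw [hN]
      rw [this]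
      rw [div_le_one (by linarith)]
      exact hNpos
    · intro i
      show 0 < ((σ i : ℤ) : ℝ) * (p i * (X / N) + q i * (Y / N) + r i * (1 / N))
      have : ((σ i : ℤ) : ℝ) * (p i * (X / N) + q i * (Y / N) + r i * (1 / N))
        = (((σ i : ℤ) : ℝ) * (p i * X + q i * Y + r i)) / N := by
        ring
      rw [this]
      exact div_pos (hσ0 i) (by linarith)
  · have hvol := cone_vol α β ε 1 hα hβ one_pos Ω hopen
    have hsub : cell3 p q r σ ⊆ {P : ℝ × ℝ × ℝ | ∃ t : ℝ, ∃ z ∈ Ω, 0 < t ∧ t ≤ 1 ∧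
      P = (t * (α * z.1 + ε * z.2), t * (β * z.2), t)} := by
      rintro ⟨x, y, w⟩ ⟨hball, hcell⟩
      simp only at hball hcell
      have hC : ∀ m, 0 < c m * (p (a m) * x + q (a m) * y + r (a m) * w) :=
        fun m => hsame m _ (hcell (a m))
      -- general point in the cone
      have hgen : ∀ x' y' w' : ℝ, 0 < w' →
          (∀ m, 0 < c m * (p (a m) * x' + q (a m) * y' + r (a m) * w')) →
          (((x' / w' - ε * (y' / w' / β)) / α, y' / w' / β) : ℝ × ℝ) ∈ Ω := by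
        intro x' y' w' hw' hc
        rw [hΩ]
        intro m
        show 0 < c m * (p (a m) * (α * ((x' / w' - ε * (y' / w' / β)) / α) + ε * (y' / w' / β)) +
          q (a m) * (β * (y' / w' / β)) + r (a m))
        have e1 : α * ((x' / w' - ε * (y' / w' / β)) / α) = x' / w' - ε * (y' / w' / β) := by
          field_simp
        have e2 : β * (y' / w' / β) = y' / w' := by field_simp
        rw [e1, e2]
        have e3 : c m * (p (a m) * (x' / w' - ε * (y' / w' / β) + ε * (y' / w' / β)) +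
          q (a m) * (y' / w') + r (a m)) = (c m * (p (a m) * x' + q (a m) * y' + r (a m) * w')) / w' := by
          field_simp
          ring
        rw [e3]
        exact div_pos (hc m) hw'
      by_cases hwpos : 0 < w
      · refine ⟨w, ((x / w - ε * (y / w / β)) / α, y / w / β), hgen x y w hwpos hC, hwpos, ?_, ?_⟩
        · nlinarith [sq_nonneg x, sq_nonneg y]
        · ext
          · show x = w * (α * ((x / w - ε * (y / w / β)) / α) + ε * (y / w / β))
            field_simp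
            ring
          · show y = w * (β * (y / w / β))
            field_simp
          · rfl
      · exfalso
        have hw0 : 0 ≤ -w := by linarith
        set X := α * z0.1 + ε * z0.2 with hX
        set Y := β * z0.2 with hY
        have key : ∀ τ : ℝ, 0 < τ →
          |(x + (τ - w) * X)| ≤ (α + |ε|) * Z * τ ∧ |(y + (τ - w) * Y)| ≤ β * Z * τ := by
          intro τ hτ
          have hmem := hgen (x + (τ - w) * X) (y + (τ - w) * Y) τ hτ (by
            intro m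
            have h1 := hC m
            have h2 := hz0c m
            have : c m * (p (a m) * (x + (τ - w) * X) + q (a m) * (y + (τ - w) * Y) + r (a m) * τ)
              = c m * (p (a m) * x + q (a m) * y + r (a m) * w)
                + (τ - w) * (c m * (p (a m) * X + q (a m) * Y + r (a m))) := by ring
            rw [this]
            have h3 : 0 < τ - w := by linarith
            positivity)
          have hwin := hw hmem
          obtain ⟨hw1, hw2⟩ := hwin
          simp only at hw1 hw2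
          set X' := x + (τ - w) * X
          set Y' := y + (τ - w) * Y
          set z1 := (X' / τ - ε * (Y' / τ / β)) / α with hz1
          set z2 := Y' / τ / β with hz2
          have hY' : Y' = β * z2 * τ := by rw [hz2]; field_simp
          have hX' : X' = (α * z1 + ε * z2) * τ := by
            rw [hz1, hz2]; field_simp; ring
          constructor
          · rw [hX', abs_mul, abs_of_pos hτ]
            apply mul_le_mul_of_nonneg_right _ hτ.le
            calc |α * z1 + ε * z2| ≤ |α * z1| + |ε * z2| := abs_add_le _ _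
              _ = α * |z1| + |ε| * |z2| := by rw [abs_mul, abs_mul, abs_of_pos hα]
              _ ≤ α * Z + |ε| * Z := by
                  apply add_le_add
                  · exact mul_le_mul_of_nonneg_left hw1 hα.le
                  · exact mul_le_mul_of_nonneg_left hw2 (abs_nonneg _)
              _ = (α + |ε|) * Z := by ring
          · rw [hY', abs_mul, abs_of_pos hτ, abs_mul, abs_of_pos hβ]
            apply mul_le_mul_of_nonneg_right _ hτ.le
            exact mul_le_mul_of_nonneg_left hw2 hβ.le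
        have lim : ∀ u K V : ℝ, (∀ τ : ℝ, 0 < τ → |u + τ * V| ≤ K * τ) → u = 0 := by
          intro u K V hu
          have h1 : ∀ τ : ℝ, 0 < τ → |u| ≤ (|K| + |V|) * τ := by
            intro τ hτ
            have := hu τ hτ
            have h2 : |u| ≤ |u + τ * V| + |τ * V| := by
              have := abs_sub (u + τ * V) (τ * V)
              simpa using this
            rw [abs_mul, abs_of_pos hτ] at h2
            have h3 : K * τ ≤ |K| * τ := mul_le_mul_of_nonneg_right (le_abs_self K) hτ.le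
            nlinarith
          by_contra hne0
          have hupos : 0 < |u| := abs_pos.2 hne0
          have hden : 0 < |K| + |V| + 1 := by positivity
          have := h1 (|u| / (|K| + |V| + 1)) (by positivity)
          have h4 : (|K| + |V|) * (|u| / (|K| + |V| + 1)) < |u| := by
            rw [mul_div_assoc', div_lt_iff₀ hden]
            nlinarith
          linarith
        have hx0 : x - w * X = 0 := lim (x - w * X) ((α + |ε|) * Z) X (by
          intro τ hτ
          have := (key τ hτ).1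
          have e : x - w * X + τ * X = x + (τ - w) * X := by ring
          rw [e]; exact this)
        have hy0 : y - w * Y = 0 := lim (y - w * Y) (β * Z) Y (by
          intro τ hτ
          have := (key τ hτ).2
          have e : y - w * Y + τ * Y = y + (τ - w) * Y := by ring
          rw [e]; exact this)
        rcases Nat.eq_zero_or_pos n with hn0 | hnpos
        · subst hn0
          have hmem : ((Z + 1, 0) : ℝ × ℝ) ∈ Ω := by
            rw [hΩ]
            intro m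
            exact m.elim0
          have := (hw hmem).1
          simp only at this
          have h2 := le_abs_self (Z + 1)
          linarith
        · have h1 := hC ⟨0, hnpos⟩
          have h2 := hz0c ⟨0, hnpos⟩
          set m : Fin n := ⟨0, hnpos⟩
          have hx1 : x = w * X := by linarith
          have hy1 : y = w * Y := by linarith
          rw [hx1, hy1] at h1
          have e : c m * (p (a m) * (w * X) + q (a m) * (w * Y) + r (a m) * w)
            = w * (c m * (p (a m) * X + q (a m) * Y + r (a m))) := by ring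
          rw [e] at h1
          nlinarith
    calc volume (cell3 p q r σ) ≤ _ := measure_mono hsub
      _ = ENNReal.ofReal (α * β * 1 ^ 3 / 3) * volume Ω := hvol
      _ = ENNReal.ofReal (α * β / 3) * volume Ω := by
        congr 2
        ring

theorem cone_U {k : ℕ} (p q r : Fin k → ℝ)
    (α β ε h : ℝ) (hα : 0 < α) (hβ : 0 < β) (hh : 0 < h)
    (Ω : Set (ℝ × ℝ)) (ho : IsOpen Ω) (hc : Convex ℝ Ω) (hn : Ω.Nonempty)
    (hmiss : ∀ i, ∀ z ∈ Ω, p i * (α * z.1 + ε * z.2) + q i * (β * z.2) + r i ≠ 0)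
    (hb : ∀ z ∈ Ω, h ^ 2 * ((α * z.1 + ε * z.2) ^ 2 + (β * z.2) ^ 2 + 1) ≤ 1) :
    ∃ σ : Fin k → ℤˣ, 0 < volume (cell3 p q r σ) ∧
      ENNReal.ofReal (α * β * h ^ 3 / 3) * volume Ω ≤ volume (cell3 p q r σ) := by
  obtain ⟨z0, hz0⟩ := hn
  set f : Fin k → ℝ × ℝ → ℝ := fun i z => p i * (α * z.1 + ε * z.2) + q i * (β * z.2) + r i with hf
  have hcont : ∀ i, Continuous (f i) := by
    intro i; simp only [hf]; fun_prop
  have hpre : IsPreconnected Ω := hc.isPreconnected
  have hsame : ∀ i, ∀ z ∈ Ω, 0 < f i z0 * f i z := by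
    intro i z hz
    by_contra hle
    push Not at hle
    have hne0 : f i z0 ≠ 0 := hmiss i z0 hz0
    have hne : f i z ≠ 0 := hmiss i z hz
    have hlt : f i z0 * f i z < 0 := lt_of_le_of_ne hle (mul_ne_zero hne0 hne)
    rcases mul_neg_iff.1 hlt with ⟨h1, h2⟩ | ⟨h1, h2⟩
    · have := hpre.intermediate_value hz hz0 (hcont i).continuousOn
      have h0 : (0 : ℝ) ∈ Set.Icc (f i z) (f i z0) := ⟨h2.le, h1.le⟩
      obtain ⟨w, hw, hw0⟩ := this h0
      exact hmiss i w hw hw0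
    · have := hpre.intermediate_value hz0 hz (hcont i).continuousOn
      have h0 : (0 : ℝ) ∈ Set.Icc (f i z0) (f i z) := ⟨h1.le, h2.le⟩
      obtain ⟨w, hw, hw0⟩ := this h0
      exact hmiss i w hw hw0
  let σ : Fin k → ℤˣ := fun i => if 0 < f i z0 then 1 else -1
  have hσ : ∀ i, ∀ z ∈ Ω, 0 < ((σ i : ℤ) : ℝ) * f i z := by
    intro i z hz
    have h1 := hsame i z hz
    by_cases hp : 0 < f i z0
    · have : σ i = 1 := by simp [σ, hp]
      rw [this]
      have : 0 < f i z := by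
        by_contra hcon
        push Not at hcon
        have := mul_nonpos_of_nonneg_of_nonpos hp.le hcon
        linarith
      simpa using this
    · have : σ i = -1 := by simp [σ, hp]
      rw [this]
      have hneg : f i z < 0 := by
        push Not at hp
        by_contra hcon
        push Not at hcon
        have := mul_nonpos_of_nonpos_of_nonneg hp hcon
        linarith
      simp only [Units.val_neg, Units.val_one, Int.cast_neg, Int.cast_one]
      linarith
  have hsub : {P : ℝ × ℝ × ℝ | ∃ t : ℝ, ∃ z ∈ Ω, 0 < t ∧ t ≤ h ∧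
      P = (t * (α * z.1 + ε * z.2), t * (β * z.2), t)} ⊆ cell3 p q r σ := by
    rintro P ⟨t, z, hz, ht0, hth, rfl⟩
    refine ⟨?_, ?_⟩
    · have hbz := hb z hz
      have ht2 : t ^ 2 ≤ h ^ 2 := by nlinarith
      have hnn : 0 ≤ (α * z.1 + ε * z.2) ^ 2 + (β * z.2) ^ 2 + 1 := by positivity
      have := mul_le_mul_of_nonneg_right ht2 hnn
      dsimp only
      nlinarith
    · intro i
      have h1 := mul_pos ht0 (hσ i z hz)
      dsimp only
      have : ((σ i : ℤ) : ℝ) * (p i * (t * (α * z.1 + ε * z.2)) + q i * (t * (β * z.2)) + r i * t)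
          = t * (((σ i : ℤ) : ℝ) * f i z) := by
        simp only [hf]; ring
      rw [this]; exact h1
  refine ⟨σ, ?_, ?_⟩
  · apply cell3_pos
    exact ⟨_, hsub ⟨h, z0, hz0, hh, le_refl _, rfl⟩⟩
  · rw [← cone_vol α β ε h hα hβ hh Ω ho]
    exact measure_mono hsub

lemma aux_finite {k : ℕ} (p q r : Fin k → ℝ) (σ : Fin k → ℤˣ) : volume (cell3 p q r σ) ≠ ⊤ := by
  have hsub : cell3 p q r σ ⊆ Icc (-1 : ℝ) 1 ×ˢ (Icc (-1 : ℝ) 1 ×ˢ Icc (-1 : ℝ) 1) := by
    intro P hP
    have h1 := hP.1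
    simp only [mem_prod, mem_Icc]
    refine ⟨⟨?_, ?_⟩, ⟨?_, ?_⟩, ⟨?_, ?_⟩⟩ <;>
      nlinarith [sq_nonneg P.1, sq_nonneg P.2.1, sq_nonneg P.2.2]
  have hc : IsCompact (Icc (-1 : ℝ) 1 ×ˢ (Icc (-1 : ℝ) 1 ×ˢ Icc (-1 : ℝ) 1)) :=
    isCompact_Icc.prod (isCompact_Icc.prod isCompact_Icc)
  exact ((measure_mono hsub).trans_lt hc.measure_lt_top).ne

lemma aux_sep (p q r p' q' r' cs sn T α ε β Z Q Q' s s' b b' : ℝ)
    (hu : p ^ 2 + q ^ 2 + r ^ 2 = 1) (hu' : p' ^ 2 + q' ^ 2 + r' ^ 2 = 1)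
    (hcl : (p * p' + q * q' + r * r') ^ 2 ≤ cs ^ 2) (hsq : cs ^ 2 + sn ^ 2 = 1)
    (hcs : 1 / 2 ≤ cs) (hsn : 0 < sn) (hT : T = sn / cs) (hα : 0 < α) (hβ : β = α * T)
    (hε : 0 < ε) (hε1 : ε ≤ α * T) (hε2 : ε * (10 * Z) ≤ α) (hZ : 1 ≤ Z)
    (hαZ : α ^ 2 * Z ^ 2 ≤ 6 / 1000)
    (hQ : Q = β * q + ε * p) (hQ' : Q' = β * q' + ε * p') (hQ0 : Q ≠ 0) (hQ0' : Q' ≠ 0)
    (hs : s = -α * p / Q) (hs' : s' = -α * p' / Q') (hb : b = -r / Q) (hb' : b' = -r' / Q')
    (h1 : |s| ≤ Z) (h2 : |s'| ≤ Z) (h3 : |b| ≤ Z) (h4 : |b'| ≤ Z) : 1 / 4 ≤ |s - s'| := by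
  have hcs0 : 0 < cs := by linarith
  have hTpos : 0 < T := by rw [hT]; positivity
  have hβpos : 0 < β := by rw [hβ]; positivity
  -- w vectors
  set x := β * p / Q with hx
  set y := β * q / Q with hy
  set z := β * r / Q with hz
  set x' := β * p' / Q' with hx'
  set y' := β * q' / Q' with hy'
  set z' := β * r' / Q' with hz'
  have ex : x = -T * s := by rw [hx, hs, hβ]; field_simp
  have ey : y = 1 + ε / α * s := by
    rw [hy, hs]; field_simp; rw [hQ]; ring
  have ez : z = -β * b := by rw [hz, hb]; field_simp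
  have ex' : x' = -T * s' := by rw [hx', hs', hβ]; field_simp
  have ey' : y' = 1 + ε / α * s' := by
    rw [hy', hs']; field_simp; rw [hQ']; ring
  have ez' : z' = -β * b' := by rw [hz', hb']; field_simp
  have n1 : x ^ 2 + y ^ 2 + z ^ 2 = (β / Q) ^ 2 := by
    rw [hx, hy, hz]
    have : (β * p / Q) ^ 2 + (β * q / Q) ^ 2 + (β * r / Q) ^ 2 = (β / Q) ^ 2 * (p ^ 2 + q ^ 2 + r ^ 2) := by ring
    rw [this, hu, mul_one]
  have n2 : x' ^ 2 + y' ^ 2 + z' ^ 2 = (β / Q') ^ 2 := by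
    rw [hx', hy', hz']
    have : (β * p' / Q') ^ 2 + (β * q' / Q') ^ 2 + (β * r' / Q') ^ 2 = (β / Q') ^ 2 * (p' ^ 2 + q' ^ 2 + r' ^ 2) := by ring
    rw [this, hu', mul_one]
  have n3 : (x * x' + y * y' + z * z') ^ 2 ≤ cs ^ 2 * ((x ^ 2 + y ^ 2 + z ^ 2) * (x' ^ 2 + y' ^ 2 + z' ^ 2)) := by
    rw [n1, n2]
    have : x * x' + y * y' + z * z' = (β / Q) * (β / Q') * (p * p' + q * q' + r * r') := by
      rw [hx, hy, hz, hx', hy', hz']; ring
    rw [this, mul_pow]
    calc (β / Q * (β / Q')) ^ 2 * (p * p' + q * q' + r * r') ^ 2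
        ≤ (β / Q * (β / Q')) ^ 2 * cs ^ 2 := by gcongr
      _ = _ := by ring
  have hN : 0 < x ^ 2 + y ^ 2 + z ^ 2 := by
    rw [n1]; positivity
  have n4 : sn ^ 2 * (x' ^ 2 + y' ^ 2 + z' ^ 2) ≤ (x - x') ^ 2 + (y - y') ^ 2 + (z - z') ^ 2 := by
    have l1 : (x ^ 2 + y ^ 2 + z ^ 2) * (x' ^ 2 + y' ^ 2 + z' ^ 2) - (x * x' + y * y' + z * z') ^ 2 =
      (x ^ 2 + y ^ 2 + z ^ 2) * ((x - x') ^ 2 + (y - y') ^ 2 + (z - z') ^ 2) -
        (x * (x' - x) + y * (y' - y) + z * (z' - z)) ^ 2 := by ring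
    have l2 : (x ^ 2 + y ^ 2 + z ^ 2) * (sn ^ 2 * (x' ^ 2 + y' ^ 2 + z' ^ 2)) ≤
        (x ^ 2 + y ^ 2 + z ^ 2) * ((x - x') ^ 2 + (y - y') ^ 2 + (z - z') ^ 2) := by
      have hsn2 : sn ^ 2 = 1 - cs ^ 2 := by linarith
      have l3 := sq_nonneg (x * (x' - x) + y * (y' - y) + z * (z' - z))
      have l4 : (x ^ 2 + y ^ 2 + z ^ 2) * (sn ^ 2 * (x' ^ 2 + y' ^ 2 + z' ^ 2)) =
          (x ^ 2 + y ^ 2 + z ^ 2) * (x' ^ 2 + y' ^ 2 + z' ^ 2) -
            cs ^ 2 * ((x ^ 2 + y ^ 2 + z ^ 2) * (x' ^ 2 + y' ^ 2 + z' ^ 2)) := by rw [hsn2]; ring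
      rw [l4]
      generalize (x ^ 2 + y ^ 2 + z ^ 2) * (x' ^ 2 + y' ^ 2 + z' ^ 2) = NN at *
      generalize (x ^ 2 + y ^ 2 + z ^ 2) * ((x - x') ^ 2 + (y - y') ^ 2 + (z - z') ^ 2) = ND at *
      generalize (x * (x' - x) + y * (y' - y) + z * (z' - z)) ^ 2 = ee at *
      generalize (x * x' + y * y' + z * z') ^ 2 = dd at *
      linarith
    exact le_of_mul_le_mul_left l2 hN
  have hεα : ε / α ≤ T := by rw [div_le_iff₀ hα]; linarith
  have hεα0 : 0 < ε / α := by positivity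
  have hεZ : ε / α * Z ≤ 1 / 10 := by
    rw [div_mul_eq_mul_div, div_le_iff₀ hα]; linarith
  have n5 : 81 / 100 ≤ x' ^ 2 + y' ^ 2 + z' ^ 2 := by
    have : 9 / 10 ≤ y' := by
      rw [ey']
      have h6 := mul_le_mul_of_nonneg_left (abs_le.1 h2).1 hεα0.le
      rw [mul_neg] at h6
      linarith
    have h7 : (9 / 10 : ℝ) ^ 2 ≤ y' ^ 2 := by gcongr
    have h8 := sq_nonneg x'
    have h9 := sq_nonneg z'
    norm_num at h7
    linarith
  have n6 : (x - x') ^ 2 + (y - y') ^ 2 + (z - z') ^ 2 ≤ 2 * T ^ 2 * (s - s') ^ 2 + β ^ 2 * (4 * Z ^ 2) := by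
    rw [ex, ex', ey, ey', ez, ez']
    have e1 : (-T * s - -T * s') ^ 2 + (1 + ε / α * s - (1 + ε / α * s')) ^ 2 + (-β * b - -β * b') ^ 2
      = T ^ 2 * (s - s') ^ 2 + (ε / α) ^ 2 * (s - s') ^ 2 + β ^ 2 * (b - b') ^ 2 := by ring
    rw [e1]
    have e2 : (ε / α) ^ 2 ≤ T ^ 2 := by gcongr
    have e3 : (b - b') ^ 2 ≤ 4 * Z ^ 2 := by
      have : |b - b'| ≤ 2 * Z := (abs_sub _ _).trans (by linarith)
      have := sq_le_sq' (abs_le.1 this).1 (abs_le.1 this).2
      linarith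
    have e4 : (ε / α) ^ 2 * (s - s') ^ 2 ≤ T ^ 2 * (s - s') ^ 2 := by gcongr
    have e5 : β ^ 2 * (b - b') ^ 2 ≤ β ^ 2 * (4 * Z ^ 2) := by gcongr
    linarith
  have n7 : T ^ 2 * (81 / 100 * cs ^ 2) ≤ T ^ 2 * (2 * (s - s') ^ 2 + 4 * (α ^ 2 * Z ^ 2)) := by
    have t1 : T ^ 2 * cs ^ 2 = sn ^ 2 := by rw [hT]; field_simp
    have t2 : β ^ 2 = T ^ 2 * α ^ 2 := by rw [hβ]; ring
    rw [t2] at n6
    have t3 : sn ^ 2 * (81 / 100) ≤ sn ^ 2 * (x' ^ 2 + y' ^ 2 + z' ^ 2) := by gcongr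
    calc T ^ 2 * (81 / 100 * cs ^ 2) = sn ^ 2 * (81 / 100) := by rw [← t1]; ring
      _ ≤ 2 * T ^ 2 * (s - s') ^ 2 + T ^ 2 * α ^ 2 * (4 * Z ^ 2) := t3.trans (n4.trans n6)
      _ = _ := by ring
  have n8 := le_of_mul_le_mul_left n7 (by positivity)
  have n9 : (1/4 : ℝ) ^ 2 ≤ |s - s'| ^ 2 := by
    rw [sq_abs]
    have h6 : (1 / 2 : ℝ) ^ 2 ≤ cs ^ 2 := by gcongr
    norm_num at h6 ⊢
    linarith
  exact (sq_le_sq₀ (by norm_num) (abs_nonneg _)).1 n9

theorem to_flat (M Z : ℝ) (hM : 1 ≤ M) (hZ : 1 ≤ Z) : ∃ K : ℕ, ∀ k : ℕ, K ≤ k →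
    ∀ (p q r : Fin k → ℝ) (i0 j0 : Fin k) (cs sn : ℝ), NF p q r i0 j0 cs sn →
      (∀ σ τ : Fin k → ℤˣ, 0 < volume (cell3 p q r σ) → 0 < volume (cell3 p q r τ) →
        volume (cell3 p q r σ) < ENNReal.ofReal M * volume (cell3 p q r τ)) →
      ∃ (ι : Type) (_ : Fintype ι) (s b : ι → ℝ), Cfg s b Z (2 * M) ∧
        (∀ i j, i ≠ j → |s i| ≤ Z → |s j| ≤ Z → |b i| ≤ Z → |b j| ≤ Z → 1 / 4 ≤ |s i - s j|) ∧
        (∃ i j, s i = 0 ∧ b i = 0 ∧ b j = 0 ∧ 1 ≤ s j ∧ s j ≤ 2) := by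
  refine ⟨⌈1000 * Z ^ 2 + 10⌉₊, fun k hk p q r i0 j0 cs sn hN hMM => ?_⟩
  have hkR : 1000 * Z ^ 2 + 10 ≤ (k : ℝ) := Nat.ceil_le.1 hk
  have hcs0 : 0 < cs := by linarith [hN.hcs]
  have hsn := hN.hsn
  obtain ⟨T, hT⟩ : ∃ T, T = sn / cs := ⟨_, rfl⟩
  have hTpos : 0 < T := by rw [hT]; positivity
  have hT2 : T ≤ 2 := by
    rw [hT, div_le_iff₀ hcs0]
    nlinarith [hN.sq, hN.hcs, sq_nonneg (sn - 1)]
  -- a positive cell of minimal volume
  have hex : ∃ σ, 0 < volume (cell3 p q r σ) := by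
    by_contra hcon
    push Not at hcon
    have h := lune p q r i0 j0 cs sn hN (2 * sn / cs + 1) (by positivity) (fun σ h => by
      exact absurd h (not_lt.2 (hcon σ)))
    have h2 : 0 < 2 * sn / cs := by positivity
    nlinarith [sq_nonneg Z]
  classical
  obtain ⟨σ0, hσ0, hmin⟩ := Finset.exists_min_image
    (Finset.univ.filter (fun σ : Fin k → ℤˣ => 0 < volume (cell3 p q r σ)))
    (fun σ => volume (cell3 p q r σ)) (by
      obtain ⟨σ, hσ⟩ := hex
      exact ⟨σ, by simp [hσ]⟩)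
  simp only [Finset.mem_filter, Finset.mem_univ, true_and] at hσ0 hmin
  obtain ⟨a0, ha0⟩ : ∃ a0, a0 = (volume (cell3 p q r σ0)).toReal := ⟨_, rfl⟩
  have ha0v : ENNReal.ofReal a0 = volume (cell3 p q r σ0) := by
    rw [ha0]; exact ENNReal.ofReal_toReal (aux_finite _ _ _ _)
  have ha0pos : 0 < a0 := by
    rw [ha0]; exact ENNReal.toReal_pos hσ0.ne' (aux_finite _ _ _ _)
  have hlow : ∀ σ, 0 < volume (cell3 p q r σ) → ENNReal.ofReal a0 ≤ volume (cell3 p q r σ) := by
    intro σ hσ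
    rw [ha0v]; exact hmin σ hσ
  have hupp : ∀ σ, 0 < volume (cell3 p q r σ) → volume (cell3 p q r σ) ≤ ENNReal.ofReal (M * a0) := by
    intro σ hσ
    rw [ENNReal.ofReal_mul (by linarith), ha0v]
    exact (hMM σ σ0 hσ hσ0).le
  have hlune := lune p q r i0 j0 cs sn hN a0 ha0pos.le hlow
  have hlune' : ((k : ℝ) - 2) * a0 ≤ 2 * T := by rw [hT]; rw [mul_div_assoc] at hlune; exact hlune
  obtain ⟨α, hα'⟩ : ∃ α, α = √(3 * a0 / T) := ⟨_, rfl⟩
  have hα : 0 < α := by rw [hα']; exact Real.sqrt_pos.2 (by positivity)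
  have hα2 : α ^ 2 = 3 * a0 / T := by rw [hα']; exact Real.sq_sqrt (by positivity)
  obtain ⟨β, hβ⟩ : ∃ β, β = α * T := ⟨_, rfl⟩
  have hβpos : 0 < β := by rw [hβ]; positivity
  have hαβ : α * β = 3 * a0 := by
    rw [hβ, ← mul_assoc, ← pow_two, hα2]; field_simp
  have hα2T : α ^ 2 * T = 3 * a0 := by rw [hα2]; field_simp
  have hαk : ((k : ℝ) - 2) * α ^ 2 ≤ 6 := by
    have : T * (((k : ℝ) - 2) * α ^ 2) ≤ T * 6 := by nlinarith
    exact le_of_mul_le_mul_left this hTpos
  have hαZ : α ^ 2 * Z ^ 2 ≤ 6 / 1000 := by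
    have : (1000 * Z ^ 2) * α ^ 2 ≤ ((k : ℝ) - 2) * α ^ 2 := by
      gcongr; linarith
    linarith
  have hβ2 : β ≤ 2 * α := by rw [hβ]; nlinarith
  -- choice of ε
  obtain ⟨ε, hε, hεf⟩ : ∃ ε ∈ Ioc (0 : ℝ) (min (α * T) (min (α / (10 * Z)) (α / 2))),
      ε ∉ (Finset.univ.image (fun l : Fin k => -β * q l / p l) : Set ℝ) := by
    have hinf : (Ioc (0 : ℝ) (min (α * T) (min (α / (10 * Z)) (α / 2)))).Infinite := by
      apply Set.Ioc_infinite
      have : 0 < α * T := by positivity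
      have : 0 < α / (10 * Z) := by positivity
      have : 0 < α / 2 := by positivity
      simp only [lt_min_iff]; exact ⟨by assumption, by assumption, by assumption⟩
    exact hinf.exists_notMem_finset _
  obtain ⟨hε0, hεm⟩ := hε
  simp only [le_min_iff] at hεm
  obtain ⟨hε1, hε2, hε3⟩ := hεm
  have hε2' : ε * (10 * Z) ≤ α := by
    rwa [le_div_iff₀ (by positivity)] at hε2
  obtain ⟨Q, hQ⟩ : ∃ Q : Fin k → ℝ, ∀ l, Q l = β * q l + ε * p l := ⟨_, fun l => rfl⟩
  have hQ0 : ∀ l, Q l = 0 → p l = 0 ∧ q l = 0 := by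
    intro l hl
    rw [hQ] at hl
    by_cases hp : p l = 0
    · refine ⟨hp, ?_⟩
      rw [hp, mul_zero, add_zero] at hl
      exact (mul_eq_zero.1 hl).resolve_left hβpos.ne'
    · exfalso
      apply hεf
      simp only [Finset.coe_image, Finset.coe_univ, image_univ, mem_range]
      exact ⟨l, by rw [div_eq_iff hp]; linarith⟩
  have hf : ∀ l, Q l ≠ 0 → ∀ z : ℝ × ℝ, p l * (α * z.1 + ε * z.2) + q l * (β * z.2) + r l =
      Q l * (z.2 - (-α * p l / Q l) * z.1 - (-r l / Q l)) := by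
    intro l hl z
    field_simp
    rw [hQ]; ring
  have hf0 : ∀ l, Q l = 0 → ∀ z : ℝ × ℝ, p l * (α * z.1 + ε * z.2) + q l * (β * z.2) + r l ≠ 0 := by
    intro l hl z
    obtain ⟨h1, h2⟩ := hQ0 l hl
    have := hN.unit l
    rw [h1, h2] at this ⊢
    intro h
    simp only [zero_mul, zero_add] at h
    rw [h] at this
    norm_num at this
  refine ⟨{l : Fin k // Q l ≠ 0}, inferInstance, fun l => -α * p l / Q l, fun l => -r l / Q l,
    ⟨?_, ?_, ?_⟩, ?_, ?_⟩
  · -- T
    intro n a σ hne hsub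
    obtain ⟨τ, h1, h2⟩ := cone_T p q r hN.unit α β ε Z hα hβpos n (fun m => (a m).1)
      (fun m => σ m / Q (a m)) (reg (fun l : {l : Fin k // Q l ≠ 0} => -α * p l / Q l)
        (fun l : {l : Fin k // Q l ≠ 0} => -r l / Q l) a σ) (by
        ext z
        simp only [reg, mem_setOf_eq]
        refine forall_congr' fun m => ?_
        rw [hf _ (a m).2, ← mul_assoc, div_mul_cancel₀ _ (a m).2]) hne hsub
    have h3 := (hlow τ h1).trans h2
    rw [show α * β / 3 = a0 from by rw [hαβ]; ring] at h3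
    have h4 : ENNReal.ofReal a0 * 1 ≤ ENNReal.ofReal a0 * volume (reg
      (fun l : {l : Fin k // Q l ≠ 0} => -α * p l / Q l)
        (fun l : {l : Fin k // Q l ≠ 0} => -r l / Q l) a σ) := by rwa [mul_one]
    exact (ENNReal.mul_le_mul_iff_right (by simpa using ha0pos) ENNReal.ofReal_ne_top).1 h4
  · -- U
    intro Ω ho hc hw hmiss
    rcases Ω.eq_empty_or_nonempty with rfl | hne
    · simp
    obtain ⟨τ, h1, h2⟩ := cone_U p q r α β ε (4/5) hα hβpos (by norm_num) Ω ho hc hne (by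
      intro i z hz
      by_cases hi : Q i = 0
      · exact hf0 i hi z
      · rw [hf i hi z]
        refine mul_ne_zero hi ?_
        have := hmiss ⟨i, hi⟩ z hz
        simp only at this
        intro h
        apply this
        linarith) (by
      intro z hz
      obtain ⟨hz1, hz2⟩ := hw hz
      have hz1' := abs_le.1 hz1
      have hz2' := abs_le.1 hz2
      have m1 : |α * z.1| ≤ α * Z := by
        rw [abs_mul, abs_of_pos hα]; gcongr
      have m2 : |ε * z.2| ≤ α * Z := by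
        rw [abs_mul, abs_of_pos hε0]
        have hεα : ε ≤ α := by linarith
        gcongr
      have m3 : |β * z.2| ≤ 2 * α * Z := by
        rw [abs_mul, abs_of_pos hβpos]; gcongr
      have e1 : (α * z.1 + ε * z.2) ^ 2 ≤ (2 * (α * Z)) ^ 2 := by
        have m4 : |α * z.1 + ε * z.2| ≤ 2 * (α * Z) := (abs_add_le _ _).trans (by linarith)
        exact sq_le_sq' (abs_le.1 m4).1 (abs_le.1 m4).2
      have e2 : (β * z.2) ^ 2 ≤ (2 * α * Z) ^ 2 := sq_le_sq' (abs_le.1 m3).1 (abs_le.1 m3).2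
      have e3 : (2 * (α * Z)) ^ 2 = 4 * (α ^ 2 * Z ^ 2) := by ring
      have e4 : (2 * α * Z) ^ 2 = 4 * (α ^ 2 * Z ^ 2) := by ring
      rw [e3] at e1
      rw [e4] at e2
      linarith)
    have h3 := h2.trans (hupp τ h1)
    have h4 : α * β * (4/5) ^ 3 / 3 = a0 * (64/125) := by rw [hαβ]; ring
    rw [h4] at h3
    have h5 : ENNReal.ofReal (M * a0) ≤ ENNReal.ofReal (a0 * (64/125)) * ENNReal.ofReal (2 * M) := by
      rw [← ENNReal.ofReal_mul (by positivity)]
      apply ENNReal.ofReal_le_ofReal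
      nlinarith [mul_pos (show (0:ℝ) < M by linarith) ha0pos]
    have h6 := h3.trans h5
    exact (ENNReal.mul_le_mul_iff_right (by simp; positivity) ENNReal.ofReal_ne_top).1 h6
  · -- G
    intro i j l hij hjl hil x y h1 h2 h3
    have hdet := hN.det i.1 j.1 l.1 (fun h => hij (Subtype.ext h)) (fun h => hjl (Subtype.ext h))
      (fun h => hil (Subtype.ext h))
    have e1 := hf i.1 i.2 (x, y)
    have e2 := hf j.1 j.2 (x, y)
    have e3 := hf l.1 l.2 (x, y)
    simp only at h1 h2 h3 e1 e2 e3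
    have z1 : y - (-α * p i / Q i) * x - (-r i / Q i) = 0 := by linarith
    have z2 : y - (-α * p j / Q j) * x - (-r j / Q j) = 0 := by linarith
    have z3 : y - (-α * p l / Q l) * x - (-r l / Q l) = 0 := by linarith
    rw [z1, mul_zero] at e1
    rw [z2, mul_zero] at e2
    rw [z3, mul_zero] at e3
    apply hdet
    linear_combination (p j * q l - q j * p l) * e1 - (p i * q l - q i * p l) * e2 +
      (p i * q j - q i * p j) * e3
  · -- separation
    intro i j hij h1 h2 h3 h4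
    exact aux_sep (p i) (q i) (r i) (p j) (q j) (r j) cs sn T α ε β Z (Q i) (Q j) _ _ _ _
      (hN.unit _) (hN.unit _) (hN.close i.1 j.1 (fun h => hij (Subtype.ext h))) hN.sq hN.hcs hsn hT hα hβ
      hε0 hε1 hε2' hZ hαZ (hQ _) (hQ _) i.2 j.2 rfl rfl rfl rfl h1 h2 h3 h4
  · -- pair
    have hQi : Q i0 = β := by rw [hQ, hN.pi0, hN.qi0]; ring
    have hQj : Q j0 = (α - ε) * sn := by
      rw [hQ, hN.pj0, hN.qj0, hβ, hT]; field_simp; ring
    have hαε : 0 < α - ε := by linarith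
    refine ⟨⟨i0, by rw [hQi]; exact hβpos.ne'⟩, ⟨j0, by rw [hQj]; positivity⟩, ?_, ?_, ?_, ?_, ?_⟩
    · simp [hN.pi0]
    · simp [hN.ri0]
    · simp [hN.rj0]
    · simp only [hQj, hN.pj0]
      rw [le_div_iff₀ (by positivity)]
      nlinarith
    · simp only [hQj, hN.pj0]
      rw [div_le_iff₀ (by positivity)]
      nlinarith

end Pool.Agent.Helper734.FT
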